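import Pool.Agent.U820.LT.TrC
import Pool.Agent.U729.LT.Mask

/-!
# The certified sphere as a list of facets
-/

set_option autoImplicit false

noncomputable section

namespace Pool.Agent.U820.LT

open Pool.Agent.U729.LT

theorem sp_fsM {U N : ℕ} {t : Tr} (h : InvT U t) (hU : U < 2 ^ N) :
    ∀ M, 512 + 2 ≤ M → Sp (2 * 3 + 1) (cx M (fsM 512 N U t.get)) := by
  intro M hM
  have e : cx M (fsM 512 N U t.get) = KM M U t.get := by
    rw [cx_fsM]
    ext T
    constructor
    · rintro ⟨i, -, h1, h2⟩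
      exact ⟨i, h1, h2⟩
    · rintro ⟨i, h1, h2⟩
      exact ⟨i, bit_lt hU h1, h1, h2⟩
  rw [e]
  exact h.2.2 M (by omega)

end Pool.Agent.U820.LT
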