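import Pool.Agent.U729.LT.Chk

/-!
# A fast checker for shellings

`chkF` checks the same conditions as `Pool.Agent.U729.LT.chk`, but it compares a facet only with the facets that
contain the two lowest vertices of the face in question.
-/

set_option autoImplicit false

namespace Pool.Agent.U820.LT

open Pool.Agent.U729.LT

/-! ### definitions -/

/-- filter in continuation-passing style, the result is reversed -/
def fltk (A : ℕ) (k : List (ℕ × ℕ) → Bool) (l : List (ℕ × ℕ)) : List (ℕ × ℕ) → Bool :=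
  List.rec (motive := fun _ => List (ℕ × ℕ) → Bool) (fun acc => k acc)
    (fun x _ ih acc => bif' (Nat.beq (Nat.land x.1 A) 0) (ih acc) (ih (x :: acc))) l

/-- reversal in continuation-passing style -/
def rvk (k : List (ℕ × ℕ) → Bool) (l : List (ℕ × ℕ)) : List (ℕ × ℕ) → Bool :=
  List.rec (motive := fun _ => List (ℕ × ℕ) → Bool) (fun acc => k acc) (fun x _ ih acc => ih (x :: acc)) l

/-- zip in continuation-passing style, the result is reversed -/
def zpk (k : List (ℕ × ℕ) → Bool) (fs : List ℕ) : List ℕ → List (ℕ × ℕ) → Bool :=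
  List.rec (motive := fun _ => List ℕ → List (ℕ × ℕ) → Bool) (fun _ acc => k acc)
    (fun f _ ih rs acc => List.rec (motive := fun _ => Bool) false (fun r rs' _ => ih rs' ((f, r) :: acc)) rs) fs

/-- `r` is contained in no member of the list -/
def al (r : ℕ) (l : List (ℕ × ℕ)) : Bool :=
  List.rec (motive := fun _ => Bool) true (fun g _ ih => bif' (Nat.beq (Nat.land g.1 r) r) false ih) l

/-- every element of `rem` is the only element of `f` missing in some member of the list -/
def ex' (f : ℕ) (l : List (ℕ × ℕ)) : ℕ → Bool :=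
  List.rec (motive := fun _ => ℕ → Bool) (fun rem => Nat.beq rem 0)
    (fun g _ ih rem => bif' (Nat.beq rem 0) true
      (bif' (Nat.beq (Nat.land (Nat.xor f (Nat.land f g.1)) (Nat.sub (Nat.xor f (Nat.land f g.1)) 1)) 0)
        (ih (Nat.xor rem (Nat.land rem (Nat.xor f (Nat.land f g.1))))) (ih rem))) l

/-- the elements `v` of `f` such that `A`, `B` are the two lowest elements of `f` without `v`; here `L = f % B` -/
def msk (A B f L : ℕ) : ℕ :=
  bif' (Nat.beq L A) (Nat.xor f (Nat.xor A B))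
    (bif' (Nat.beq (Nat.land (Nat.xor L A) (Nat.sub (Nat.xor L A) 1)) 0) (Nat.xor L A) 0)

/-- the check of one facet in the bucket `A`, `B` -/
def itm (A B f r c m : ℕ) (pre suf : List (ℕ × ℕ)) : Bool :=
  bif' (bif' (Nat.beq (Nat.mod r B) A) (bif' (Nat.beq (Nat.land r B) B) (al r pre) true) true)
    (bif' (bif' (Nat.beq (Nat.mod c B) A) (bif' (Nat.beq (Nat.land c B) B) (al c suf) true) true)
      (bif' (ex' f pre (Nat.land r m)) (ex' f suf (Nat.land c m)) false) false) false

/-- the check of the bucket `A`, `B` -/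
def trav (A B : ℕ) (l : List (ℕ × ℕ)) : List (ℕ × ℕ) → Bool :=
  List.rec (motive := fun _ => List (ℕ × ℕ) → Bool) (fun _ => true)
    (fun x xs ih pre => bif' (itm A B x.1 x.2 (Nat.xor x.1 x.2) (msk A B x.1 (Nat.mod x.1 B)) pre xs)
      (ih (x :: pre)) false) l

/-- the list is empty -/
def emp (l : List (ℕ × ℕ)) : Bool := List.rec (motive := fun _ => Bool) true (fun _ _ _ => false) l

/-- the check of the bucket `A` (a reversed list) -/
def sing (A : ℕ) (l : List (ℕ × ℕ)) : List (ℕ × ℕ) → Bool :=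
  List.rec (motive := fun _ => List (ℕ × ℕ) → Bool) (fun _ => true)
    (fun x xs ih pre => bif' (bif' (Nat.beq x.2 A) (emp xs) true)
      (bif' (bif' (Nat.beq (Nat.xor x.1 x.2) A) (emp pre) true) (ih (x :: pre)) false) false) l

/-- the basic conditions -/
def base (k w : ℕ) (l : List (ℕ × ℕ)) : List (ℕ × ℕ) → Bool :=
  List.rec (motive := fun _ => List (ℕ × ℕ) → Bool) (fun _ => true)
    (fun x xs ih pre => bif' (Nat.blt x.1 (Nat.pow 2 w)) (bif' (Nat.beq (pc w x.1) k)
      (bif' (Nat.beq (Nat.land x.2 x.1) x.2) (bif' (bif' (Nat.beq x.2 0) (emp pre) true)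
        (bif' (bif' (Nat.beq (Nat.xor x.1 x.2) 0) (emp xs) true) (ih (x :: pre)) false) false) false) false) false) l

/-- the loop over `B` -/
def lpB (A : ℕ) (ms : List ℕ) : List (ℕ × ℕ) → Bool :=
  List.rec (motive := fun _ => List (ℕ × ℕ) → Bool) (fun _ => true)
    (fun B _ ih La => bif' (fltk B (fun Lab => trav A B Lab []) La []) (ih La) false) ms

/-- the loop over `A` -/
def lpA (Z : List (ℕ × ℕ)) (ms : List ℕ) : Bool :=
  List.rec (motive := fun _ => Bool) true
    (fun A ms' ih => bif' (fltk A (fun La => bif' (sing A La []) (lpB A ms' La) false) Z []) ih false) ms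

/-- the list of the powers of two -/
def ckm (w : ℕ) (ms : List ℕ) : ℕ → Bool :=
  List.rec (motive := fun _ => ℕ → Bool) (fun a => Nat.beq a w)
    (fun m _ ih a => bif' (Nat.beq m (Nat.pow 2 a)) (ih (Nat.succ a)) false) ms

/-- The fast checker. `ms` is the list of the numbers `2 ^ v`, `v < w`. -/
def chkF (k w : ℕ) (ms fs rs : List ℕ) : Bool :=
  bif' (ckm w ms 0) (zpk (fun Z' => rvk (fun Z => bif' (base k w Z []) (lpA Z ms) false) Z' []) fs rs []) false

/-! ### soundness of the loops -/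

/-- the predicate of the bucket -/
def qb (a : ℕ) (x : ℕ × ℕ) : Bool := x.1.testBit a

theorem land_pow (n a : ℕ) : Nat.beq (Nat.land n (2 ^ a)) 0 = !(n.testBit a) := by
  have h : Nat.land n (2 ^ a) = (n.testBit a).toNat * 2 ^ a := Nat.and_two_pow n a
  rw [h]
  cases n.testBit a
  · simp
  · rw [Bool.toNat_true, one_mul, Bool.not_true, ← Bool.not_eq_true, Nat.beq_eq]
    exact (Nat.two_pow_pos a).ne'

theorem fltk_eq (a : ℕ) (k : List (ℕ × ℕ) → Bool) (l : List (ℕ × ℕ)) : ∀ acc,
    fltk (2 ^ a) k l acc = k ((l.filter (qb a)).reverse ++ acc) := by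
  induction l with
  | nil => intro acc; rfl
  | cons x l ih =>
    intro acc
    have e : fltk (2 ^ a) k (x :: l) acc = bif' (Nat.beq (Nat.land x.1 (2 ^ a)) 0) (fltk (2 ^ a) k l acc)
      (fltk (2 ^ a) k l (x :: acc)) := rfl
    rw [e, land_pow, ih, ih]
    cases h : x.1.testBit a
    · rw [Bool.not_false, bif'_true, List.filter_cons_of_neg (by simp [qb, h])]
    · rw [Bool.not_true, bif'_false, List.filter_cons_of_pos (by simp [qb, h])]
      simp

theorem rvk_eq (k : List (ℕ × ℕ) → Bool) (l : List (ℕ × ℕ)) : ∀ acc, rvk k l acc = k (l.reverse ++ acc) := by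
  induction l with
  | nil => intro acc; rfl
  | cons x l ih =>
    intro acc
    have e : rvk k (x :: l) acc = rvk k l (x :: acc) := rfl
    rw [e, ih]
    simp

theorem zpk_eq (k : List (ℕ × ℕ) → Bool) (fs : List ℕ) : ∀ rs acc, zpk k fs rs acc = true →
    fs.length ≤ rs.length ∧ k ((fs.zip rs).reverse ++ acc) = true := by
  induction fs with
  | nil => intro rs acc h; exact ⟨Nat.zero_le _, h⟩
  | cons f fs ih =>
    intro rs acc h
    cases rs with
    | nil => exact absurd h (by show ¬ (false = true); simp)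
    | cons r rs =>
      have h1 : zpk k fs rs ((f, r) :: acc) = true := h
      obtain ⟨h2, h3⟩ := ih _ _ h1
      refine ⟨by simpa using h2, ?_⟩
      simpa using h3

theorem al_sound {r : ℕ} {l : List (ℕ × ℕ)} (h : al r l = true) : ∀ g ∈ l, g.1 &&& r ≠ r := by
  induction l with
  | nil => simp
  | cons x l ih =>
    have h : bif' (Nat.beq (x.1 &&& r) r) false (al r l) = true := h
    intro g hg
    cases h1 : Nat.beq (x.1 &&& r) r
    · rw [h1, bif'_false] at h
      rcases List.mem_cons.1 hg with rfl | hg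
      · intro h2
        rw [h2, Nat.beq_refl] at h1
        exact absurd h1 (by simp)
      · exact ih h g hg
    · rw [h1, bif'_true] at h
      exact absurd h (by simp)

theorem eq_pow_of {e v : ℕ} (h : e &&& (e - 1) = 0) (hv : e.testBit v = true) : e = 2 ^ v := by
  apply Nat.eq_of_testBit_eq
  intro i
  rw [Nat.testBit_two_pow]
  by_cases hi : v = i
  · rw [← hi, hv]; simp
  · cases h1 : e.testBit i
    · simp [hi]
    · exact absurd (pow_two_bits h hv h1) hi

theorem ex_sound {f : ℕ} {l : List (ℕ × ℕ)} : ∀ rem : ℕ, ex' f l rem = true →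
    ∀ v, rem.testBit v = true → ∃ g ∈ l, f ^^^ (f &&& g.1) = 2 ^ v := by
  induction l with
  | nil =>
    intro rem h v hv
    have h : Nat.beq rem 0 = true := h
    rw [Nat.beq_eq] at h
    rw [h] at hv
    simp at hv
  | cons x l ih =>
    intro rem h v hv
    have h : bif' (Nat.beq rem 0) true (bif' (Nat.beq ((f ^^^ (f &&& x.1)) &&& ((f ^^^ (f &&& x.1)) - 1)) 0)
      (ex' f l (rem ^^^ (rem &&& (f ^^^ (f &&& x.1))))) (ex' f l rem)) = true := h
    have h0 : Nat.beq rem 0 = false := by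
      rw [Bool.eq_false_iff]
      intro h1
      rw [Nat.beq_eq] at h1
      rw [h1] at hv
      simp at hv
    rw [h0, bif'_false] at h
    cases h1 : Nat.beq ((f ^^^ (f &&& x.1)) &&& ((f ^^^ (f &&& x.1)) - 1)) 0
    · rw [h1, bif'_false] at h
      obtain ⟨g, hg, h2⟩ := ih _ h v hv
      exact ⟨g, List.mem_cons_of_mem _ hg, h2⟩
    · rw [h1, bif'_true] at h
      rw [Nat.beq_eq] at h1
      by_cases h2 : (f ^^^ (f &&& x.1)).testBit v = true
      · exact ⟨x, List.mem_cons_self, eq_pow_of h1 h2⟩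
      · rw [Bool.not_eq_true] at h2
        obtain ⟨g, hg, h3⟩ := ih _ h v (by rw [Nat.testBit_xor, Nat.testBit_land, hv, h2]; rfl)
        exact ⟨g, List.mem_cons_of_mem _ hg, h3⟩

theorem trav_sound {A B : ℕ} {l : List (ℕ × ℕ)} : ∀ pre, trav A B l pre = true → ∀ p x s, l = p ++ x :: s →
    itm A B x.1 x.2 (x.1 ^^^ x.2) (msk A B x.1 (x.1 % B)) (p.reverse ++ pre) s = true := by
  induction l with
  | nil => intro pre _ p x s h; simp at h
  | cons y l ih =>
    intro pre h p x s hl
    have h : bif' (itm A B y.1 y.2 (y.1 ^^^ y.2) (msk A B y.1 (y.1 % B)) pre l) (trav A B l (y :: pre)) false = true := h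
    rw [bif'_eq_true] at h
    cases p with
    | nil =>
      rw [List.nil_append, List.cons.injEq] at hl
      obtain ⟨rfl, rfl⟩ := hl
      exact h.1
    | cons z p =>
      rw [List.cons_append, List.cons.injEq] at hl
      obtain ⟨rfl, hl⟩ := hl
      have := ih _ h.2 p x s hl
      simpa using this

theorem emp_sound {l : List (ℕ × ℕ)} (h : emp l = true) : l = [] := by
  cases l with
  | nil => rfl
  | cons x l => exact absurd h (by show ¬ (false = true); simp)

theorem bif_true {c t : Bool} (h : bif' c t true = true) (hc : c = true) : t = true := by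
  rw [hc, bif'_true] at h
  exact h

theorem sing_sound {A : ℕ} {l : List (ℕ × ℕ)} : ∀ pre, sing A l pre = true → ∀ p x s, l = p ++ x :: s →
    (x.2 = A → s = []) ∧ (x.1 ^^^ x.2 = A → p.reverse ++ pre = []) := by
  induction l with
  | nil => intro pre _ p x s h; simp at h
  | cons y l ih =>
    intro pre h p x s hl
    have h : bif' (bif' (Nat.beq y.2 A) (emp l) true)
      (bif' (bif' (Nat.beq (y.1 ^^^ y.2) A) (emp pre) true) (sing A l (y :: pre)) false) false = true := h
    rw [bif'_eq_true, bif'_eq_true] at h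
    cases p with
    | nil =>
      rw [List.nil_append, List.cons.injEq] at hl
      obtain ⟨rfl, rfl⟩ := hl
      refine ⟨fun h1 => emp_sound (bif_true h.1 (by rw [h1, Nat.beq_refl])), fun h1 => ?_⟩
      rw [List.reverse_nil, List.nil_append]
      exact emp_sound (bif_true h.2.1 (by rw [h1, Nat.beq_refl]))
    | cons z p =>
      rw [List.cons_append, List.cons.injEq] at hl
      obtain ⟨rfl, hl⟩ := hl
      have := ih _ h.2.2 p x s hl
      simpa using this

theorem base_sound {k w : ℕ} {l : List (ℕ × ℕ)} : ∀ pre, base k w l pre = true → ∀ p x s, l = p ++ x :: s →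
    x.1 < 2 ^ w ∧ pc w x.1 = k ∧ x.2 &&& x.1 = x.2 ∧ (x.2 = 0 → p.reverse ++ pre = []) ∧
      (x.1 ^^^ x.2 = 0 → s = []) := by
  induction l with
  | nil => intro pre _ p x s h; simp at h
  | cons y l ih =>
    intro pre h p x s hl
    have h : bif' (Nat.blt y.1 (2 ^ w)) (bif' (Nat.beq (pc w y.1) k)
      (bif' (Nat.beq (y.2 &&& y.1) y.2) (bif' (bif' (Nat.beq y.2 0) (emp pre) true)
        (bif' (bif' (Nat.beq (y.1 ^^^ y.2) 0) (emp l) true) (base k w l (y :: pre)) false) false) false) false) false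
          = true := h
    rw [bif'_eq_true, bif'_eq_true, bif'_eq_true, bif'_eq_true, bif'_eq_true] at h
    obtain ⟨h1, h2, h3, h4, h5, h6⟩ := h
    cases p with
    | nil =>
      rw [List.nil_append, List.cons.injEq] at hl
      obtain ⟨rfl, rfl⟩ := hl
      refine ⟨?_, Nat.eq_of_beq_eq_true h2, Nat.eq_of_beq_eq_true h3, fun h => ?_, fun h => ?_⟩
      · rw [Nat.blt_eq] at h1
        exact h1
      · rw [List.reverse_nil, List.nil_append]
        exact emp_sound (bif_true h4 (by rw [h, Nat.beq_refl]))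
      · exact emp_sound (bif_true h5 (by rw [h, Nat.beq_refl]))
    | cons z p =>
      rw [List.cons_append, List.cons.injEq] at hl
      obtain ⟨rfl, hl⟩ := hl
      have := ih _ h6 p x s hl
      simpa using this

theorem ckm_sound {w : ℕ} {ms : List ℕ} : ∀ a₀, ckm w ms a₀ = true → ∀ a, a₀ ≤ a → a < w →
    ∃ ms₁ ms₂, ms = ms₁ ++ 2 ^ a :: ms₂ ∧ ∀ b, a < b → b < w → 2 ^ b ∈ ms₂ := by
  induction ms with
  | nil =>
    intro a₀ h a h1 h2
    have h : Nat.beq a₀ w = true := h
    rw [Nat.beq_eq] at h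
    omega
  | cons m ms ih =>
    intro a₀ h a h1 h2
    have h : bif' (Nat.beq m (2 ^ a₀)) (ckm w ms (a₀ + 1)) false = true := h
    rw [bif'_eq_true, Nat.beq_eq] at h
    rcases Nat.eq_or_lt_of_le h1 with rfl | h3
    · refine ⟨[], ms, by rw [h.1, List.nil_append], fun b h4 h5 => ?_⟩
      obtain ⟨m1, m2, h6, -⟩ := ih _ h.2 b h4 h5
      rw [h6]
      simp
    · obtain ⟨m1, m2, h6, h7⟩ := ih _ h.2 a h3 h2
      exact ⟨m :: m1, m2, by rw [h6]; rfl, h7⟩

theorem lpA_sound {Z : List (ℕ × ℕ)} {ms : List ℕ} (h : lpA Z ms = true) : ∀ ms₁ a ms₂, ms = ms₁ ++ 2 ^ a :: ms₂ →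
    sing (2 ^ a) (Z.filter (qb a)).reverse [] = true ∧ lpB (2 ^ a) ms₂ (Z.filter (qb a)).reverse = true := by
  induction ms with
  | nil => intro m1 a m2 h1; simp at h1
  | cons A ms ih =>
    intro m1 a m2 h1
    have h : bif' (fltk A (fun La => bif' (sing A La []) (lpB A ms La) false) Z []) (lpA Z ms) false = true := h
    rw [bif'_eq_true] at h
    cases m1 with
    | nil =>
      rw [List.nil_append, List.cons.injEq] at h1
      obtain ⟨rfl, rfl⟩ := h1
      have h2 := h.1
      rw [fltk_eq, List.append_nil, bif'_eq_true] at h2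
      exact h2
    | cons z m1 =>
      rw [List.cons_append, List.cons.injEq] at h1
      exact ih h.2 m1 a m2 h1.2

theorem lpB_sound {A : ℕ} {L : List (ℕ × ℕ)} {ms : List ℕ} (h : lpB A ms L = true) : ∀ b, 2 ^ b ∈ ms →
    trav A (2 ^ b) (L.filter (qb b)).reverse [] = true := by
  induction ms with
  | nil => simp
  | cons B ms ih =>
    intro b hb
    have h : bif' (fltk B (fun Lab => trav A B Lab []) L []) (lpB A ms L) false = true := h
    rw [bif'_eq_true] at h
    rcases List.mem_cons.1 hb with rfl | hb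
    · have h2 := h.1
      rw [fltk_eq, List.append_nil] at h2
      exact h2
    · exact ih h.2 b hb

/-! ### lowest elements -/

theorem low2 {P : ℕ → Prop} (h : ∃ i j, i < j ∧ P i ∧ P j) : ∃ a b, a < b ∧ P a ∧ P b ∧ ∀ i < b, P i → i = a := by
  classical
  obtain ⟨i, j, hij, hi, hj⟩ := h
  have h1 : ∃ a, P a := ⟨i, hi⟩
  obtain ⟨a, ha⟩ : ∃ a, a = Nat.find h1 := ⟨_, rfl⟩
  have ha1 : P a := by rw [ha]; exact Nat.find_spec h1
  have ha2 : ∀ m, P m → a ≤ m := fun m hm => by rw [ha]; exact Nat.find_min' h1 hm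
  have h2 : ∃ b, a < b ∧ P b := ⟨j, (ha2 i hi).trans_lt hij, hj⟩
  refine ⟨a, Nat.find h2, (Nat.find_spec h2).1, ha1, (Nat.find_spec h2).2, fun m hm hP => ?_⟩
  by_contra h3
  have h4 := ha2 m hP
  exact Nat.find_min h2 hm ⟨by omega, hP⟩

theorem tri (n : ℕ) : n = 0 ∨ (∃ a, n = 2 ^ a) ∨
    ∃ a b, a < b ∧ n.testBit a = true ∧ n.testBit b = true ∧ ∀ i < b, n.testBit i = true → i = a := by
  by_cases h : ∃ i j, i < j ∧ n.testBit i = true ∧ n.testBit j = true
  · exact Or.inr (Or.inr (low2 h))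
  · by_cases h0 : n = 0
    · exact Or.inl h0
    · obtain ⟨a, ha⟩ := Nat.exists_testBit_of_ne_zero h0
      refine Or.inr (Or.inl ⟨a, ?_⟩)
      apply Nat.eq_of_testBit_eq
      intro i
      rw [Nat.testBit_two_pow]
      by_cases hi : a = i
      · rw [← hi, ha]; simp
      · cases h1 : n.testBit i
        · simp [hi]
        · exfalso
          apply h
          rcases lt_or_gt_of_ne hi with h2 | h2
          · exact ⟨a, i, h2, ha, h1⟩
          · exact ⟨i, a, h2, h1, ha⟩

theorem mod_low {n a b : ℕ} (hab : a < b) (ha : n.testBit a = true) (h : ∀ i < b, n.testBit i = true → i = a) :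
    n % 2 ^ b = 2 ^ a := by
  apply Nat.eq_of_testBit_eq
  intro i
  rw [Nat.testBit_mod_two_pow, Nat.testBit_two_pow]
  by_cases hi : a = i
  · rw [← hi, ha]; simp [hab]
  · by_cases h1 : i < b
    · cases h2 : n.testBit i
      · simp [hi]
      · exact absurd (h i h1 h2).symm hi
    · simp [hi, h1]

theorem land_pow' {n b : ℕ} (h : n.testBit b = true) : n &&& 2 ^ b = 2 ^ b := by
  rw [Nat.and_two_pow, h]; simp

theorem beq_of_eq {a b : ℕ} (h : a = b) : Nat.beq a b = true := by rw [h, Nat.beq_refl]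

/-! ### the bucket of a facet -/

section main

variable {k w : ℕ} {ms : List ℕ} {Z : List (ℕ × ℕ)}

theorem bucket (hm : ckm w ms 0 = true) (hA : lpA Z ms = true) {p s : List (ℕ × ℕ)} {x : ℕ × ℕ}
    (hZ : Z = p ++ x :: s) {a b : ℕ} (hab : a < b) (hb : b < w) (hxa : x.1.testBit a = true)
    (hxb : x.1.testBit b = true) :
    itm (2 ^ a) (2 ^ b) x.1 x.2 (x.1 ^^^ x.2) (msk (2 ^ a) (2 ^ b) x.1 (x.1 % 2 ^ b))
      ((p.filter (qb a)).filter (qb b)).reverse ((s.filter (qb a)).filter (qb b)) = true := by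
  obtain ⟨m1, m2, h1, h2⟩ := ckm_sound 0 hm a (Nat.zero_le _) (hab.trans hb)
  obtain ⟨-, h3⟩ := lpA_sound hA m1 a m2 h1
  have h4 := lpB_sound h3 b (h2 b hab hb)
  rw [List.filter_reverse, List.reverse_reverse] at h4
  have h5 := trav_sound [] h4 ((p.filter (qb a)).filter (qb b)) x ((s.filter (qb a)).filter (qb b)) (by
    rw [hZ, List.filter_append, List.filter_cons_of_pos (by simpa [qb] using hxa), List.filter_append,
      List.filter_cons_of_pos (by simpa [qb] using hxb)])
  rw [List.append_nil] at h5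
  exact h5

theorem single (hm : ckm w ms 0 = true) (hA : lpA Z ms = true) {p s : List (ℕ × ℕ)} {x : ℕ × ℕ}
    (hZ : Z = p ++ x :: s) {a : ℕ} (ha : a < w) (hxa : x.1.testBit a = true) :
    (x.2 = 2 ^ a → p.filter (qb a) = []) ∧ (x.1 ^^^ x.2 = 2 ^ a → s.filter (qb a) = []) := by
  obtain ⟨m1, m2, h1, h2⟩ := ckm_sound 0 hm a (Nat.zero_le _) ha
  obtain ⟨h3, -⟩ := lpA_sound hA m1 a m2 h1
  have h5 := sing_sound [] h3 (s.filter (qb a)).reverse x (p.filter (qb a)).reverse (by
    rw [hZ, List.filter_append, List.filter_cons_of_pos (by simpa [qb] using hxa)]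
    simp)
  refine ⟨fun h => by simpa using h5.1 h, fun h => by simpa using h5.2 h⟩

theorem mem_buck {l : List (ℕ × ℕ)} {g : ℕ × ℕ} {a b : ℕ} (hg : g ∈ l) (ha : g.1.testBit a = true)
    (hb : g.1.testBit b = true) : g ∈ (l.filter (qb a)).filter (qb b) := by
  rw [List.mem_filter, List.mem_filter]
  exact ⟨⟨hg, ha⟩, hb⟩

theorem sub_bit {g r v : ℕ} (h : g &&& r = r) (hv : r.testBit v = true) : g.testBit v = true := by
  rw [← h, Nat.testBit_land, Bool.and_eq_true] at hv
  exact hv.1

/-- the element `v` is in the mask of the bucket of the two lowest elements of `f` without `v` -/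
theorem msk_mem {f v a b : ℕ} (hab : a < b) (ha : f.testBit a = true) (hav : a ≠ v)
    (hbv : b ≠ v) (h : ∀ i < b, f.testBit i = true → i ≠ v → i = a) (hv : f.testBit v = true) :
    (msk (2 ^ a) (2 ^ b) f (f % 2 ^ b)).testBit v = true := by
  unfold msk
  by_cases hvb : b < v
  · have h1 : f % 2 ^ b = 2 ^ a := mod_low hab ha fun i hi h1 => h i hi h1 (by omega)
    rw [beq_of_eq h1, bif'_true]
    show (f ^^^ (2 ^ a ^^^ 2 ^ b)).testBit v = true
    rw [Nat.testBit_xor, Nat.testBit_xor, Nat.testBit_two_pow, Nat.testBit_two_pow, hv]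
    simp [hav, hbv]
  · have hvb : v < b := by omega
    have h1 : (f % 2 ^ b) ^^^ 2 ^ a = 2 ^ v := by
      apply Nat.eq_of_testBit_eq
      intro i
      rw [Nat.testBit_xor, Nat.testBit_mod_two_pow, Nat.testBit_two_pow, Nat.testBit_two_pow]
      by_cases h2 : v = i
      · rw [← h2, hv]; simp [hvb, hav]
      · by_cases h3 : a = i
        · rw [← h3, ha]; simp [hab, Ne.symm hav]
        · by_cases h4 : i < b
          · cases h5 : f.testBit i
            · simp [h2, h3]
            · exact absurd (h i h4 h5 (Ne.symm h2)).symm h3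
          · simp [h2, h3, h4]
    have h2 : Nat.beq (f % 2 ^ b) (2 ^ a) = false := by
      rw [Bool.eq_false_iff]
      intro h3
      rw [Nat.beq_eq] at h3
      rw [h3, Nat.xor_self] at h1
      exact (Nat.two_pow_pos v).ne h1
    rw [h2, bif'_false]
    show (bif' (Nat.beq (((f % 2 ^ b) ^^^ 2 ^ a) &&& (((f % 2 ^ b) ^^^ 2 ^ a) - 1)) 0) ((f % 2 ^ b) ^^^ 2 ^ a) 0).testBit v
      = true
    rw [h1]
    have h3 : 2 ^ v &&& (2 ^ v - 1) = 0 := by
      apply Nat.eq_of_testBit_eq
      intro i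
      rw [Nat.testBit_land, Nat.testBit_two_pow, Nat.testBit_two_pow_sub_one, Nat.zero_testBit]
      by_cases h4 : v = i
      · simp [h4]
      · simp [h4]
    rw [beq_of_eq h3, bif'_true, Nat.testBit_two_pow_self]


/-- the part of `itm` for `r` -/
theorem itm_sound {A B f r c m : ℕ} {pre suf : List (ℕ × ℕ)} (h : itm A B f r c m pre suf = true) :
    (r % B = A → r &&& B = B → al r pre = true) ∧ (c % B = A → c &&& B = B → al c suf = true) ∧
      ex' f pre (r &&& m) = true ∧ ex' f suf (c &&& m) = true := by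
  have h : bif' (bif' (Nat.beq (r % B) A) (bif' (Nat.beq (r &&& B) B) (al r pre) true) true)
    (bif' (bif' (Nat.beq (c % B) A) (bif' (Nat.beq (c &&& B) B) (al c suf) true) true)
      (bif' (ex' f pre (r &&& m)) (ex' f suf (c &&& m)) false) false) false = true := h
  rw [bif'_eq_true, bif'_eq_true, bif'_eq_true] at h
  exact ⟨fun h1 h2 => bif_true (bif_true h.1 (beq_of_eq h1)) (beq_of_eq h2),
    fun h1 h2 => bif_true (bif_true h.2.1 (beq_of_eq h1)) (beq_of_eq h2), h.2.2.1, h.2.2.2⟩

theorem lt_of_bit {f v : ℕ} (hf : f < 2 ^ w) (hv : f.testBit v = true) : v < w := by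
  by_contra h
  rw [Nat.testBit_lt_two_pow (hf.trans_le (Nat.pow_le_pow_right (by norm_num) (not_lt.1 h)))] at hv
  exact absurd hv (by simp)

theorem two_bits {f v : ℕ} (hk : 3 ≤ k) (hp : pc w f = k) :
    ∃ a b, a < b ∧ (f.testBit a = true ∧ a ≠ v) ∧ (f.testBit b = true ∧ b ≠ v) ∧
      ∀ i < b, (f.testBit i = true ∧ i ≠ v) → i = a := by
  apply low2
  rw [pc_eq] at hp
  have h1 : 1 < (((Finset.range w).filter fun v => f.testBit v = true).erase v).card := by
    have := Finset.pred_card_le_card_erase (s := (Finset.range w).filter fun v => f.testBit v = true) (a := v)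
    omega
  obtain ⟨i, hi, j, hj, hij⟩ := Finset.one_lt_card.1 h1
  rw [Finset.mem_erase, Finset.mem_filter] at hi hj
  rcases lt_or_gt_of_ne hij with h2 | h2
  · exact ⟨i, j, h2, ⟨hi.2.2, hi.1⟩, hj.2.2, hj.1⟩
  · exact ⟨j, i, h2, ⟨hj.2.2, hj.1⟩, hi.2.2, hi.1⟩

/-- what is checked for one facet -/
theorem facet (hk : 3 ≤ k) (hm : ckm w ms 0 = true) (hA : lpA Z ms = true) (hB : base k w Z [] = true)
    {p s : List (ℕ × ℕ)} {x : ℕ × ℕ} (hZ : Z = p ++ x :: s) :
    x.1 < 2 ^ w ∧ pc w x.1 = k ∧ x.2 &&& x.1 = x.2 ∧ (∀ g ∈ p, g.1 &&& x.2 ≠ x.2) ∧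
      (∀ g ∈ s, g.1 &&& (x.1 ^^^ x.2) ≠ x.1 ^^^ x.2) ∧
      (∀ v, x.2.testBit v = true → ∃ g ∈ p, x.1 ^^^ (x.1 &&& g.1) = 2 ^ v) ∧
      ∀ v, (x.1 ^^^ x.2).testBit v = true → ∃ g ∈ s, x.1 ^^^ (x.1 &&& g.1) = 2 ^ v := by
  obtain ⟨h1, h2, h3, h4, h5⟩ := base_sound [] hB p x s hZ
  have hr : ∀ v, x.2.testBit v = true → x.1.testBit v = true := by
    intro v hv
    rw [← h3, Nat.testBit_land, Bool.and_eq_true] at hv
    exact hv.2
  have hc : ∀ v, (x.1 ^^^ x.2).testBit v = true → x.1.testBit v = true := by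
    intro v hv
    rw [Nat.testBit_xor] at hv
    cases h6 : x.2.testBit v
    · rw [h6, Bool.xor_false] at hv
      exact hv
    · exact hr v h6
  have hlt : ∀ v, x.1.testBit v = true → v < w := fun v hv => lt_of_bit h1 hv
  have hex : ∀ (t : ℕ), (∀ v, t.testBit v = true → x.1.testBit v = true) → ∀ (l : List (ℕ × ℕ)),
      (∀ a b, a < b → b < w → x.1.testBit a = true → x.1.testBit b = true →
        ∃ l', (∀ g ∈ l', g ∈ l) ∧ ex' x.1 l' (t &&& msk (2 ^ a) (2 ^ b) x.1 (x.1 % 2 ^ b)) = true) →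
      ∀ v, t.testBit v = true → ∃ g ∈ l, x.1 ^^^ (x.1 &&& g.1) = 2 ^ v := by
    intro t ht l hl v hv
    obtain ⟨a, b, hab, ⟨ha, hav⟩, ⟨hb, hbv⟩, h6⟩ := two_bits (v := v) hk h2
    obtain ⟨l', hl', h7⟩ := hl a b hab (hlt b hb) ha hb
    obtain ⟨g, hg, h8⟩ := ex_sound _ h7 v (by
      rw [Nat.testBit_land, hv, msk_mem hab ha hav hbv (fun i hi h9 h10 => h6 i hi ⟨h9, h10⟩) (ht v hv)]
      rfl)
    exact ⟨g, hl' g hg, h8⟩
  refine ⟨h1, h2, h3, ?_, ?_, ?_, ?_⟩
  · intro g hg hgr
    rcases tri x.2 with h6 | ⟨a, h6⟩ | ⟨a, b, hab, ha, hb, h6⟩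
    · have h7 := h4 h6
      rw [List.append_nil, List.reverse_eq_nil_iff] at h7
      rw [h7] at hg
      simp at hg
    · have h7 : x.2.testBit a = true := by rw [h6, Nat.testBit_two_pow_self]
      have h8 := (single hm hA hZ (hlt a (hr a h7)) (hr a h7)).1 h6
      have h9 : g ∈ p.filter (qb a) := List.mem_filter.2 ⟨hg, sub_bit hgr h7⟩
      rw [h8] at h9
      simp at h9
    · have h7 := itm_sound (bucket hm hA hZ hab (hlt b (hr b hb)) (hr a ha) (hr b hb))
      have h8 := h7.1 (mod_low hab ha h6) (land_pow' hb)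
      exact al_sound h8 g (List.mem_reverse.2 (mem_buck hg (sub_bit hgr ha) (sub_bit hgr hb))) hgr
  · intro g hg hgr
    rcases tri (x.1 ^^^ x.2) with h6 | ⟨a, h6⟩ | ⟨a, b, hab, ha, hb, h6⟩
    · rw [h5 h6] at hg
      simp at hg
    · have h7 : (x.1 ^^^ x.2).testBit a = true := by rw [h6, Nat.testBit_two_pow_self]
      have h8 := (single hm hA hZ (hlt a (hc a h7)) (hc a h7)).2 h6
      have h9 : g ∈ s.filter (qb a) := List.mem_filter.2 ⟨hg, sub_bit hgr h7⟩
      rw [h8] at h9
      simp at h9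
    · have h7 := itm_sound (bucket hm hA hZ hab (hlt b (hc b hb)) (hc a ha) (hc b hb))
      have h8 := h7.2.1 (mod_low hab ha h6) (land_pow' hb)
      exact al_sound h8 g (mem_buck hg (sub_bit hgr ha) (sub_bit hgr hb)) hgr
  · refine hex x.2 hr p fun a b hab hb ha' hb' => ⟨_, fun g hg => ?_, (itm_sound (bucket hm hA hZ hab hb ha' hb')).2.2.1⟩
    rw [List.mem_reverse, List.mem_filter, List.mem_filter] at hg
    exact hg.1.1
  · refine hex _ hc s fun a b hab hb ha' hb' => ⟨_, fun g hg => ?_, (itm_sound (bucket hm hA hZ hab hb ha' hb')).2.2.2⟩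
    rw [List.mem_filter, List.mem_filter] at hg
    exact hg.1.1

end main

/-! ### the old checker -/

theorem scan_complete {f r : ℕ} {l : List ℕ} : ∀ rem : ℕ, (∀ g ∈ l, (f &&& g) &&& r ≠ r) →
    (∀ v, rem.testBit v = true → ∃ g ∈ l, f ^^^ (f &&& g) = 2 ^ v) → scan f r l rem = true := by
  induction l with
  | nil =>
    intro rem _ h
    rw [scan_nil, Nat.beq_eq]
    apply Nat.eq_of_testBit_eq
    intro v
    rw [Nat.zero_testBit, Bool.eq_false_iff]
    intro hv
    obtain ⟨g, hg, -⟩ := h v hv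
    simp at hg
  | cons g l ih =>
    intro rem h1 h2
    rw [scan_cons, if_neg (h1 g List.mem_cons_self)]
    have h1' : ∀ g ∈ l, (f &&& g) &&& r ≠ r := fun g' hg' => h1 g' (List.mem_cons_of_mem _ hg')
    split_ifs with h3
    · refine ih _ h1' fun v hv => ?_
      rw [Nat.testBit_xor, Nat.testBit_land] at hv
      cases h4 : rem.testBit v
      · rw [h4] at hv; simp at hv
      · rw [h4] at hv
        obtain ⟨g', hg', h5⟩ := h2 v h4
        rcases List.mem_cons.1 hg' with rfl | hg'
        · rw [h5, Nat.testBit_two_pow_self] at hv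
          simp at hv
        · exact ⟨g', hg', h5⟩
    · refine ih _ h1' fun v hv => ?_
      obtain ⟨g', hg', h5⟩ := h2 v hv
      rcases List.mem_cons.1 hg' with rfl | hg'
      · exfalso
        apply h3
        rw [h5]
        apply Nat.eq_of_testBit_eq
        intro i
        rw [Nat.testBit_land, Nat.testBit_two_pow, Nat.testBit_two_pow_sub_one, Nat.zero_testBit]
        by_cases h4 : v = i
        · simp [h4]
        · simp [h4]
      · exact ⟨g', hg', h5⟩

theorem chk_complete (k w n : ℕ) : ∀ fs rs pre : List ℕ, n ≤ fs.length → n ≤ rs.length →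
    (∀ j < n, chk1 k w (fs.getD j 0) (rs.getD j 0) ((fs.take j).reverse ++ pre) (fs.drop (j + 1)) = true) →
    chk k w n fs rs pre = true := by
  induction n with
  | zero => intro fs rs pre _ _ _; rfl
  | succ n ih =>
    intro fs rs pre h1 h2 h3
    cases fs with
    | nil => simp at h1
    | cons f fs =>
      cases rs with
      | nil => simp at h2
      | cons r rs =>
        show bif' (chk1 k w f r pre fs) (chk k w n fs rs (f :: pre)) false = true
        rw [bif'_eq_true]
        refine ⟨by simpa using h3 0 (Nat.succ_pos _), ih _ _ _ (by simpa using h1) (by simpa using h2) fun j hj => ?_⟩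
        have := h3 (j + 1) (by omega)
        simpa using this

theorem chk1_complete {k w f r : ℕ} {pre suf : List ℕ} (h1 : f < 2 ^ w) (h2 : pc w f = k) (h3 : r &&& f = r)
    (h4 : scan f r pre r = true) (h5 : scan f (f ^^^ r) suf (f ^^^ r) = true) : chk1 k w f r pre suf = true := by
  unfold chk1
  rw [bif'_eq_true, bif'_eq_true, bif'_eq_true, bif'_eq_true]
  exact ⟨by rw [Nat.blt_eq]; exact h1, beq_of_eq h2, beq_of_eq h3, h4, h5⟩

/-- **The fast checker.** -/
theorem chkF_sound {k w : ℕ} {ms fs rs : List ℕ} (hk : 3 ≤ k) (h : chkF k w ms fs rs = true) :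
    chk k w fs.length fs rs [] = true := by
  unfold chkF at h
  rw [bif'_eq_true] at h
  obtain ⟨hm, h⟩ := h
  obtain ⟨hlen, h⟩ := zpk_eq _ _ _ _ h
  rw [rvk_eq, List.append_nil, List.append_nil, List.reverse_reverse, bif'_eq_true] at h
  obtain ⟨hB, hA⟩ := h
  have e1 : (fs.zip rs).map Prod.fst = fs := List.map_fst_zip hlen
  have e2 : (fs.zip rs).length = fs.length := by rw [List.length_zip]; omega
  refine chk_complete k w fs.length fs rs [] le_rfl hlen fun j hj => ?_
  have hj' : j < (fs.zip rs).length := by omega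
  have hZ : fs.zip rs = (fs.zip rs).take j ++ (fs.zip rs)[j] :: (fs.zip rs).drop (j + 1) := by
    rw [← List.drop_eq_getElem_cons hj', List.take_append_drop]
  obtain ⟨h1, h2, h3, h4, h5, h6, h7⟩ := facet hk hm hA hB hZ
  have e3 : (fs.zip rs)[j].1 = fs.getD j 0 := by
    rw [List.getElem_zip, List.getD_eq_getElem _ _ hj]
  have e4 : (fs.zip rs)[j].2 = rs.getD j 0 := by
    rw [List.getElem_zip, List.getD_eq_getElem _ _ (hj.trans_le hlen)]
  rw [e3] at h1 h2 h3 h5 h6 h7
  rw [e4] at h3 h4 h5 h6 h7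
  have hpre : ∀ g ∈ (fs.take j).reverse ++ [], ∃ x ∈ (fs.zip rs).take j, x.1 = g := by
    intro g hg
    rw [List.append_nil, List.mem_reverse] at hg
    rw [← List.mem_map (f := Prod.fst), List.map_take, e1]
    exact hg
  have hpre' : ∀ x ∈ (fs.zip rs).take j, x.1 ∈ (fs.take j).reverse ++ [] := by
    intro x hx
    have h8 : x.1 ∈ ((fs.zip rs).take j).map Prod.fst := List.mem_map_of_mem hx
    rw [List.map_take, e1] at h8
    rw [List.append_nil, List.mem_reverse]
    exact h8
  have hsuf : ∀ g ∈ fs.drop (j + 1), ∃ x ∈ (fs.zip rs).drop (j + 1), x.1 = g := by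
    intro g hg
    rw [← List.mem_map (f := Prod.fst), List.map_drop, e1]
    exact hg
  have hsuf' : ∀ x ∈ (fs.zip rs).drop (j + 1), x.1 ∈ fs.drop (j + 1) := by
    intro x hx
    have h8 : x.1 ∈ ((fs.zip rs).drop (j + 1)).map Prod.fst := List.mem_map_of_mem hx
    rw [List.map_drop, e1] at h8
    exact h8
  have hand : ∀ g r : ℕ, r &&& fs.getD j 0 = r → (fs.getD j 0 &&& g) &&& r = g &&& r := by
    intro g r hr
    conv_rhs => rw [← hr]
    rw [Nat.land_comm (fs.getD j 0) g, Nat.land_assoc, Nat.land_comm (fs.getD j 0) r]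
  have hc : (fs.getD j 0 ^^^ rs.getD j 0) &&& fs.getD j 0 = fs.getD j 0 ^^^ rs.getD j 0 := by
    apply Nat.eq_of_testBit_eq
    intro i
    rw [Nat.testBit_land, Nat.testBit_xor]
    have h8 := congrArg (fun n => Nat.testBit n i) h3
    simp only [Nat.testBit_land] at h8
    revert h8
    cases (fs.getD j 0).testBit i <;> cases (rs.getD j 0).testBit i <;> simp
  refine chk1_complete h1 h2 h3 (scan_complete _ ?_ ?_) (scan_complete _ ?_ ?_)
  · intro g hg
    obtain ⟨x, hx, rfl⟩ := hpre g hg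
    rw [hand _ _ h3]
    exact h4 x hx
  · intro v hv
    obtain ⟨x, hx, h8⟩ := h6 v hv
    exact ⟨x.1, hpre' x hx, h8⟩
  · intro g hg
    obtain ⟨x, hx, rfl⟩ := hsuf g hg
    rw [hand _ _ hc]
    exact h5 x hx
  · intro v hv
    obtain ⟨x, hx, h8⟩ := h7 v hv
    exact ⟨x.1, hsuf' x hx, h8⟩

end Pool.Agent.U820.LT
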