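import Pool.Agent.U729.LT.Ex

/-!
# `main_data` for any certified sphere
-/

set_option autoImplicit false

namespace Pool.Agent.U820.LT

open Module Pool.Agent.W907.SG Pool.Agent.N496.LT Pool.Agent.U729.LT
open Pool.Agent.R782.Bal (Rea)
open Pool.Agent.TH652.Above (HSph)

section main

variable {d w n p : ℕ} {fs : List ℕ} {zs js : List (ℕ × ℕ)} {U : ℕ} {c : Fin n → Fin (d + 1)}

/-- `main_data`, for any list of facets that is a combinatorial sphere -/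
theorem main_data2 [hp : Fact p.Prime] (hD : Data d w n p fs zs js U c) (hfs : ∀ f ∈ fs, f < 2 ^ w)
    (hsp : ∀ M, w + 2 ≤ M → Sp (2 * d + 1) (cx M fs)) :
    ∃ (N : ℕ) (H : SimpleGraph (Fin N)) (f : (Fin N → ℝ) → EuclideanSpace ℝ (Fin (2 * d + 1)))
      (Z : Dbl (ZMod p) H d) (c : Fin Z.n → Fin (d + 1)), HSph (2 * d + 1) H ∧ ContinuousOn f (Rea H) ∧
      (∀ x ∈ Rea H, ‖f x‖ = 1) ∧ Set.InjOn f (Rea H) ∧
      PLS (2 * d + 1) {T | ∃ C : Finset (Fin N), H.IsClique (C : Set (Fin N)) ∧ C.map Fin.valEmbedding = T} ∧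
      Z.U.card = pc n U ∧ ∀ v w a b, H.Adj (Z.j v a) (Z.j w b) → c v ≠ c w := by
  classical
  obtain ⟨M, hM⟩ : ∃ M, M = w + 2 + 2 ^ w := ⟨_, rfl⟩
  have hwM : w + 2 ≤ M := by rw [hM]; exact Nat.le_add_right _ _
  obtain ⟨K, hK⟩ : ∃ K, K = cx M fs := ⟨_, rfl⟩
  have hS : Sp (2 * d + 1) K := by rw [hK]; exact hsp M hwM
  have hKd := hS.1.2.1
  -- the old vertices
  obtain ⟨U₀, hU₀⟩ : ∃ U₀ : Finset (Fin M), U₀ = Finset.univ.filter fun v => v.1 < w := ⟨_, rfl⟩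
  have hKU : ∀ T ∈ K, T ⊆ U₀ := by
    intro T hT v hv
    rw [hK] at hT
    obtain ⟨f, hf, h1⟩ := hT
    rw [hU₀, Finset.mem_filter]
    refine ⟨Finset.mem_univ _, ?_⟩
    by_contra h2
    have h3 := mem_toF.1 (h1 hv)
    rw [Nat.testBit_lt_two_pow ((hfs f hf).trans_le (Nat.pow_le_pow_right (by norm_num) (not_lt.1 h2)))] at h3
    exact absurd h3 (by simp)
  have hcU : U₀.card = w := by
    have h1 : U₀ = Finset.univ.map ⟨fun i : Fin w => (⟨i.1, by omega⟩ : Fin M), fun i j hij => Fin.ext (by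
        have := congrArg Fin.val hij
        exact this)⟩ := by
      ext v
      rw [hU₀, Finset.mem_filter, Finset.mem_map]
      constructor
      · rintro ⟨-, h1⟩
        exact ⟨⟨v.1, h1⟩, Finset.mem_univ _, rfl⟩
      · rintro ⟨i, -, rfl⟩
        exact ⟨Finset.mem_univ _, i.2⟩
    rw [h1, Finset.card_map, Finset.card_univ, Fintype.card_fin]
  have hc1 : 2 ^ U₀.card ≤ U₀ᶜ.card := by
    rw [Finset.card_compl, hcU, Fintype.card_fin, hM]
    omega
  -- the lifts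
  obtain ⟨ms, hms⟩ : ∃ ms : List ℕ, ms = zs.map Prod.fst := ⟨_, rfl⟩
  have hmem : ∀ m, m ∈ ms ↔ ∃ x ∈ zs, x.1 = m := by
    intro m
    rw [hms, List.mem_map]
  obtain ⟨J, hJ⟩ : ∃ J : Fin n → Bool → Fin M, ∀ v a, (J v a).1 = jp js v.1 a :=
    ⟨fun v a => ⟨jp js v.1 a, by have := hD.j_lt v a; omega⟩, fun _ _ => rfl⟩
  have hJinj : ∀ v w a b, J v a = J w b → v = w := by
    intro v w a b h1
    apply hD.j_inj v w a b
    rw [← hJ, ← hJ, h1]
  have hlift : ∀ m ∈ ms, ∀ a : Fin n → Bool, (toF n m).image (fun v => J v (a v)) ∈ K := by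
    intro m hm a
    have h1 := lfts_sound (by have := hD.lifts; rw [← hms] at this; exact this) m hm
    obtain ⟨f, hf, -, h2⟩ := lft_sound js m 0 h1 fun i => if hi : i < n then a ⟨i, hi⟩ else false
    rw [hK]
    refine ⟨f, hf, fun x hx => ?_⟩
    obtain ⟨v, hv, rfl⟩ := Finset.mem_image.1 hx
    rw [mem_toF] at hv
    rw [mem_toF, hJ]
    have h3 := h2 v.1 (by rw [hD.js_len]; exact v.2) hv
    rw [dif_pos v.2] at h3
    exact h3
  have hKJ : ∀ v a, ({J v a} : Finset (Fin M)) ∈ K := by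
    intro v a
    obtain ⟨x, hx, h1⟩ := hD.cov v
    refine hKd _ _ (hlift x.1 ((hmem _).2 ⟨x, hx, rfl⟩) fun _ => a) ?_
    rw [Finset.singleton_subset_iff, Finset.mem_image]
    exact ⟨v, mem_toF.2 h1, rfl⟩
  -- the graph of the lifts
  obtain ⟨GQ, hGQ⟩ : ∃ GQ : SimpleGraph (Fin M), ∀ x y, GQ.Adj x y ↔
      ∃ v w a b, (LG n ms).Adj v w ∧ x = J v a ∧ y = J w b := by
    refine ⟨⟨fun x y => ∃ v w a b, (LG n ms).Adj v w ∧ x = J v a ∧ y = J w b, ⟨?_⟩, ⟨?_⟩⟩, fun _ _ => Iff.rfl⟩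
    · rintro x y ⟨v, w, a, b, h1, h2, h3⟩
      exact ⟨w, v, b, a, h1.symm, h3, h2⟩
    · rintro x ⟨v, w, a, b, h1, h2, h3⟩
      exact h1.1 (hJinj v w a b (h2.symm.trans h3))
  obtain ⟨Q, hQ⟩ : ∃ Q : Set (Finset (Fin M)), Q = {T : Finset (Fin M) | (∀ x ∈ T, ({x} : Finset (Fin M)) ∈ K) ∧
      GQ.IsClique (T : Set (Fin M))} := ⟨_, rfl⟩
  have hQd : Dn Q := by
    intro S T hS h1
    rw [hQ] at hS ⊢
    exact ⟨fun x hx => hS.1 x (h1 hx), hS.2.subset (Finset.coe_subset.2 h1)⟩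
  have hQv : ∀ v, ({v} : Finset (Fin M)) ∈ K → ({v} : Finset (Fin M)) ∈ Q := by
    intro v hv
    rw [hQ]
    refine ⟨fun x hx => ?_, by simp⟩
    rw [Finset.mem_singleton] at hx
    rw [hx]; exact hv
  have hpair : ∀ x y, x ≠ y → (({x, y} : Finset (Fin M)) ∈ Q ↔ ({x} : Finset (Fin M)) ∈ K ∧
      ({y} : Finset (Fin M)) ∈ K ∧ GQ.Adj x y) := by
    intro x y hxy
    rw [hQ]
    constructor
    · rintro ⟨h1, h2⟩
      exact ⟨h1 x (by simp), h1 y (by simp), h2 (by simp) (by simp) hxy⟩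
    · rintro ⟨h1, h2, h3⟩
      refine ⟨fun z hz => ?_, ?_⟩
      · rw [Finset.mem_insert, Finset.mem_singleton] at hz
        rcases hz with rfl | rfl
        · exact h1
        · exact h2
      · rw [Finset.coe_insert, Finset.coe_singleton, SimpleGraph.isClique_pair]
        exact fun _ => h3
  have hQf : ∀ σ : Finset (Fin M), (∀ v ∈ σ, ({v} : Finset (Fin M)) ∈ Q) →
      (∀ v ∈ σ, ∀ w ∈ σ, v ≠ w → ({v, w} : Finset (Fin M)) ∈ Q) → σ ∈ Q := by
    intro σ h1 h2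
    have h3 : ∀ v ∈ σ, ({v} : Finset (Fin M)) ∈ K := by
      intro v hv
      have := h1 v hv
      rw [hQ] at this
      exact this.1 v (by simp)
    rw [hQ]
    refine ⟨h3, fun v hv w hw hvw => ?_⟩
    exact ((hpair v w hvw).1 (h2 v (Finset.mem_coe.1 hv) w (Finset.mem_coe.1 hw) hvw)).2.2
  have hQK : Q ⊆ K := by
    intro T hT
    rw [hQ] at hT
    obtain ⟨h1, h2⟩ := hT
    by_cases hT1 : T.card ≤ 1
    · rcases Nat.le_one_iff_eq_zero_or_eq_one.1 hT1 with h3 | h3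
      · rw [Finset.card_eq_zero] at h3
        rw [h3]; exact hS.1.1
      · obtain ⟨x, rfl⟩ := Finset.card_eq_one.1 h3
        exact h1 x (by simp)
    · -- every element is a lift
      have h3 : ∀ x ∈ T, ∃ v a, x = J v a := by
        intro x hx
        obtain ⟨y, hy, hxy⟩ : ∃ y ∈ T, y ≠ x := by
          by_contra h4
          push Not at h4
          apply hT1
          rw [Finset.card_le_one]
          intro a ha b hb
          rw [h4 a ha, h4 b hb]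
        obtain ⟨v, w, a, b, -, h5, -⟩ := (hGQ _ _).1 (h2 (Finset.mem_coe.2 hx) (Finset.mem_coe.2 hy) hxy.symm)
        exact ⟨v, a, h5⟩
      obtain ⟨C, hC⟩ : ∃ C : Finset (Fin n), C = Finset.univ.filter fun v => ∃ a, J v a ∈ T := ⟨_, rfl⟩
      have hCm : ∀ v, v ∈ C ↔ ∃ a, J v a ∈ T := fun v => by rw [hC]; simp
      have hCc : (LG n ms).IsClique (C : Set (Fin n)) := by
        intro v hv u hu hvu
        obtain ⟨a, ha⟩ := (hCm v).1 (Finset.mem_coe.1 hv)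
        obtain ⟨b, hb⟩ := (hCm u).1 (Finset.mem_coe.1 hu)
        have h4 : J v a ≠ J u b := fun h5 => hvu (hJinj _ _ _ _ h5)
        obtain ⟨v', u', a', b', h5, h6, h7⟩ := (hGQ _ _).1 (h2 (Finset.mem_coe.2 ha) (Finset.mem_coe.2 hb) h4)
        rw [hJinj _ _ _ _ h6, hJinj _ _ _ _ h7]
        exact h5
      obtain ⟨m, hm, h4⟩ := fl_sound hCc n 0 0 (by omega) (by simp) (by have := hD.flag; rw [← hms] at this; exact this)
      obtain ⟨sgn, hsgn⟩ : ∃ sgn : Fin n → Bool, ∀ v ∈ C, J v (sgn v) ∈ T := by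
        refine ⟨fun v => if h : ∃ a, J v a ∈ T then h.choose else false, fun v hv => ?_⟩
        have h5 := (hCm v).1 hv
        simp only [dif_pos h5]
        exact h5.choose_spec
      refine hKd _ _ (hlift m hm sgn) fun x hx => ?_
      obtain ⟨v, a, rfl⟩ := h3 x hx
      have hvC : v ∈ C := (hCm v).2 ⟨a, hx⟩
      rw [Finset.mem_image]
      refine ⟨v, h4 hvC, ?_⟩
      by_contra h5
      obtain ⟨v', u', a', b', h6, h7, h8⟩ := (hGQ _ _).1 (h2 (Finset.mem_coe.2 (hsgn v hvC)) (Finset.mem_coe.2 hx) h5)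
      exact h6.1 ((hJinj _ _ _ _ h7).symm.trans (hJinj _ _ _ _ h8))
  obtain ⟨N, H, φ, hH1, ⟨f, hf1, hf2, hf3⟩, hH3, hφ, hH2⟩ := flag_sphere hS hKU hc1 hQK hQd hQv hQf
  choose pr hpr using hφ
  obtain ⟨j, hj⟩ : ∃ j : Fin n → Bool → Fin N, ∀ v a, φ (j v a) = J v a :=
    ⟨fun v a => pr _ (hKJ v a), fun v a => hpr _ _⟩
  have hjK : ∀ v a, ({φ (j v a)} : Finset (Fin M)) ∈ K := fun v a => by rw [hj]; exact hKJ v a
  have hjinj : ∀ v w a b, j v a = j w b → v = w := fun v w a b h1 => hJinj v w a b (by rw [← hj, ← hj, h1])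
  have hadj : ∀ v w a b, v ≠ w → (LG n ms).Adj v w → H.Adj (j v a) (j w b) := by
    intro v w a b hvw h1
    have h2 : J v a ≠ J w b := fun h3 => hvw (hJinj _ _ _ _ h3)
    rw [hH2 _ _ (hjK v a) (hjK w b), hj, hj, hpair _ _ h2]
    refine ⟨fun h3 => hvw (hjinj _ _ _ _ h3), hKJ v a, hKJ w b, ?_⟩
    rw [hGQ]
    exact ⟨v, w, a, b, h1, rfl, rfl⟩
  have hadj2 : ∀ v w a b, H.Adj (j v a) (j w b) → (LG n ms).Adj v w := by
    intro v w a b h1
    have hne : J v a ≠ J w b := by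
      intro h2
      apply h1.ne
      apply φ.injective
      rw [hj, hj, h2]
    rw [hH2 _ _ (hjK v a) (hjK w b), hj, hj, hpair _ _ hne] at h1
    obtain ⟨v', w', a', b', h5, h6, h7⟩ := (hGQ _ _).1 h1.2.2.2
    rw [hJinj _ _ _ _ h6, hJinj _ _ _ _ h7]
    exact h5
  -- the cycle
  obtain ⟨z, hz⟩ : ∃ z : Finset (Fin n) → ZMod p, ∀ T, z T = ((zF n zs T : ℕ) : ZMod p) := ⟨_, fun _ => rfl⟩
  have hzne : ∀ T, z T ≠ 0 → ∃ x ∈ zs, toF n x.1 = T := by
    intro T hT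
    apply zF_ne
    intro h1
    apply hT
    rw [hz, h1, Nat.cast_zero]
  have hclq : ∀ σ, z σ ≠ 0 → ∀ v ∈ σ, ∀ w ∈ σ, v ≠ w → (LG n ms).Adj v w := by
    intro σ hσ v hv w hw hvw
    obtain ⟨x, hx, rfl⟩ := hzne σ hσ
    exact ⟨hvw, x.1, (hmem _).2 ⟨x, hx, rfl⟩, mem_toF.1 hv, mem_toF.1 hw⟩
  refine ⟨N, H, f, ⟨n, z, j, toF n U, ?_, ?_, ?_, ?_, ?_, ?_, ?_, ?_⟩, c, hH1, hf1, hf2, hf3, hH3, ?_, ?_⟩
  · obtain ⟨x, hx, h1⟩ := hD.z_head
    intro h2
    have h3 := congrFun h2 (toF n x.1)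
    rw [hz, zF_toF hD.z_lt (hD.z_lt x hx), Pi.zero_apply, ZMod.natCast_eq_zero_iff] at h3
    exact h1 (Nat.mod_eq_zero_of_dvd h3)
  · intro σ hσ
    obtain ⟨x, hx, rfl⟩ := hzne σ hσ
    rw [card_toF le_rfl (hD.z_lt x hx), hD.z_card x hx]
  · intro τ
    by_cases h1 : ∀ v ∈ τᶜ, z (insert v τ) = 0
    · refine Finset.sum_eq_zero fun v hv => ?_
      rw [h1 v hv, smul_zero]
    · push Not at h1
      obtain ⟨v, hv, h2⟩ := h1
      obtain ⟨x, hx, h3⟩ := hzne _ h2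
      rw [Finset.mem_compl] at hv
      have h4 : x.1.testBit v.1 = true := by
        rw [← mem_toF, h3]
        exact Finset.mem_insert_self _ _
      have h5 : τ = toF n (x.1 ^^^ 2 ^ v.1) := by
        rw [toF_xor v.2 h4, h3]
        exact (Finset.erase_insert hv).symm
      have h6 : x.1 ^^^ 2 ^ v.1 < 2 ^ n :=
        Nat.xor_lt_two_pow (hD.z_lt x hx) (Nat.pow_lt_pow_right (by norm_num) v.2)
      have h7 := rsum_sound hp.out.one_lt.le hD.z_lt h6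
      rw [h5]
      have h8 := hD.z_cyc x hx v.1 v.2 h4
      rw [← Nat.dvd_iff_mod_eq_zero, ← ZMod.natCast_eq_zero_iff] at h8
      rw [h8] at h7
      rw [h7]
      exact Finset.sum_congr rfl fun u _ => by rw [hz]
  · intro v w hvw a b h1
    exact hvw (hjinj _ _ _ _ h1)
  · intro v hv
    rw [mem_toF] at hv
    apply φ.injective
    rw [hj, hj]
    apply Fin.ext
    rw [hJ, hJ]
    exact (hD.j_U v).1 hv
  · intro v hv
    rw [mem_toF] at hv
    refine ⟨fun h1 => hv ((hD.j_U v).2 ?_), fun h1 => (hadj2 _ _ _ _ h1).1 rfl⟩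
    rw [← hJ, ← hJ, ← hj, ← hj, h1]
  · intro σ hσ v hv w hw hvw a b
    exact hadj v w a b hvw (hclq σ hσ v hv w hw hvw)
  · intro v hv w hw hvw
    rw [mem_toF] at hv hw
    obtain ⟨x, hx, h1, h2⟩ := hD.cliqueU v w hv hw
    exact hadj v w true true hvw ⟨hvw, x.1, (hmem _).2 ⟨x, hx, rfl⟩, h1, h2⟩
  · show (toF n U).card = pc n U
    by_cases hU : U < 2 ^ n
    · exact card_toF le_rfl hU
    · rw [pc_eq]
      refine Finset.card_bij (fun v _ => v.1) ?_ ?_ ?_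
      · intro v hv
        rw [mem_toF] at hv
        rw [Finset.mem_filter, Finset.mem_range]
        exact ⟨v.2, hv⟩
      · intro v _ u _ huv
        exact Fin.ext huv
      · intro v hv
        rw [Finset.mem_filter, Finset.mem_range] at hv
        exact ⟨⟨v, hv.1⟩, mem_toF.2 hv.2, rfl⟩
  · intro v w a b h1
    obtain ⟨h2, m, hm, h3, h4⟩ := hadj2 v w a b h1
    obtain ⟨x, hx, rfl⟩ := (hmem m).1 hm
    exact hD.col x hx v w h3 h4 h2

end main

end Pool.Agent.U820.LT
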