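import Pool.Agent.U820.LT.TrB
import Pool.Agent.U729.LT.Ex

/-!
# The first state, and the lifts on the tree
-/

set_option autoImplicit false

noncomputable section

namespace Pool.Agent.U820.LT

open Pool.Agent.U729.LT

/-- all the leaves have depth `d` -/
def Tr.fb : Tr → ℕ → Bool :=
  Tr.rec (motive := fun _ => ℕ → Bool) (fun _ d => Nat.beq d 0)
    (fun _ _ ihl ihr d => bif' (Nat.beq d 0) false (bif' (ihl (Nat.sub d 1)) (ihr (Nat.sub d 1)) false))

theorem Tr.fb_sound {t : Tr} : ∀ {d : ℕ}, t.fb d = true → t.full d := by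
  induction t with
  | lf m =>
    intro d h
    have h : Nat.beq d 0 = true := h
    rw [Nat.beq_eq] at h
    subst h
    trivial
  | nd l r ihl ihr =>
    intro d h
    have h : bif' (Nat.beq d 0) false (bif' (l.fb (d - 1)) (r.fb (d - 1)) false) = true := h
    cases d with
    | zero => exact absurd h (by simp [bif'])
    | succ d =>
      have h : bif' (l.fb d) (r.fb d) false = true := h
      rw [bif'_eq_true] at h
      exact ⟨ihl h.1, ihr h.2⟩

/-- the leaves are those of the boundary of the simplex `C`; the facet without `v` has the place `v` -/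
def bs (C : ℕ) (t : Tr) (n : ℕ) : Bool :=
  Nat.rec (motive := fun _ => Bool) true (fun v ih => bif' (Nat.beq (t.get v)
    (bif' (Nat.testBit C v) (Nat.xor C (Nat.pow 2 v)) 0)) ih false) n

theorem bs_sound {C : ℕ} {t : Tr} {n : ℕ} (h : bs C t n = true) :
    ∀ v < n, t.get v = if C.testBit v = true then C ^^^ 2 ^ v else 0 := by
  induction n with
  | zero => intro v hv; omega
  | succ n ih =>
    have h : bif' (Nat.beq (t.get n) (bif' (Nat.testBit C n) (C ^^^ 2 ^ n) 0)) (bs C t n) false = true := h
    rw [bif'_eq_true, Nat.beq_eq] at h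
    intro v hv
    by_cases h1 : v = n
    · subst h1
      rw [h.1]
      cases h2 : Nat.testBit C v with
      | true => rw [if_pos rfl]; rfl
      | false => rw [if_neg (by simp)]; rfl
    · exact ih h.2 v (by omega)

theorem inv_base {C : ℕ} {t : Tr} (h1 : t.fb 9 = true) (h2 : bs C t 512 = true) (h3 : Nat.blt C (2 ^ 512) = true)
    (h4 : Nat.beq (pc 512 C) 8 = true) : InvT C t := by
  have hg := bs_sound h2
  rw [Nat.blt_eq] at h3
  rw [Nat.beq_eq] at h4
  have hC5 : ∀ i, C.testBit i = true → i < 512 := fun i hi => bit_lt h3 hi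
  have hb : ∀ v < 512, ∀ i, (t.get v).testBit i = true ↔ C.testBit v = true ∧ C.testBit i = true ∧ v ≠ i := by
    intro v hv i
    rw [hg v hv]
    by_cases h3 : C.testBit v = true
    · rw [if_pos h3, Nat.testBit_xor, Nat.testBit_two_pow]
      by_cases h4 : v = i
      · subst h4
        simp [h3]
      · simp [h3, h4]
    · rw [if_neg h3, Nat.zero_testBit]
      simp [h3]
  refine ⟨Tr.fb_sound h1, ?_, fun M hM => ?_⟩
  · intro v hv i h3
    exact ((hb v hv i).1 h3).2.1
  have hcard : (toF M C).card = 7 + 1 := by rw [card_toF (w := 512) (by omega) h3, h4]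
  have e : KM M C t.get = {T : Finset (Fin M) | T ⊆ toF M C ∧ T ≠ toF M C} := by
    ext T
    constructor
    · rintro ⟨i, h3, h4⟩
      have h5 : ∀ v ∈ T, C.testBit v.1 = true ∧ v.1 ≠ i := fun v hv => by
        have h6 := (hb v.1 (h4 v hv).1 i).1 (h4 v hv).2
        exact ⟨h6.1, h6.2.2⟩
      refine ⟨fun v hv => mem_toF.2 (h5 v hv).1, ?_⟩
      rintro rfl
      have := hC5 i h3
      exact (h5 ⟨i, by omega⟩ (mem_toF.2 h3)).2 rfl
    · rintro ⟨h3, h4⟩
      obtain ⟨c, hc, hcT⟩ := Finset.not_subset.1 fun h8 => h4 (h3.antisymm h8)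
      have hc8 := mem_toF.1 hc
      refine ⟨c.1, hc8, fun v hv => ?_⟩
      have hv8 := mem_toF.1 (h3 hv)
      have hv5 := hC5 _ hv8
      exact ⟨hv5, (hb v.1 hv5 c.1).2 ⟨hv8, hc8, fun h5 => hcT (by
        have : v = c := Fin.ext h5
        rw [← this]; exact hv)⟩⟩
  rw [e]
  exact sp_simplex (Finset.card_pos.1 (by rw [hcard]; omega)) hcard

/-- all the lifts of `σ` are contained in facets; `acc`: the places which contain the lifts of the previous vertices -/
def lftT (t : Tr) (js : List (ℕ × ℕ)) : ℕ → ℕ → Bool :=
  List.rec (motive := fun _ => ℕ → ℕ → Bool) (fun _ acc => bif' (Nat.beq acc 0) false true)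
    (fun x _ ih σ acc => bif' (Nat.beq (Nat.mod σ 2) 1)
      (bif' (ih (Nat.div σ 2) (Nat.land acc (t.get x.1))) (bif' (Nat.beq x.1 x.2) true
        (ih (Nat.div σ 2) (Nat.land acc (t.get x.2)))) false)
      (ih (Nat.div σ 2) acc)) js

/-- the lifts of all the simplices in the list -/
def lftsT (U : ℕ) (t : Tr) (js : List (ℕ × ℕ)) (ms : List ℕ) : Bool :=
  List.rec (motive := fun _ => Bool) true (fun m _ ih => bif' (lftT t js m U) ih false) ms

theorem lftT_sound {t : Tr} (js : List (ℕ × ℕ)) : ∀ σ acc : ℕ, lftT t js σ acc = true → ∀ a : ℕ → Bool,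
    ∃ i, acc.testBit i = true ∧
      ∀ j < js.length, σ.testBit j = true → (t.get (jp js j (a j))).testBit i = true := by
  induction js with
  | nil =>
    intro σ acc h a
    have h : bif' (Nat.beq acc 0) false true = true := h
    have h0 : acc ≠ 0 := by
      rintro rfl
      exact absurd h (by simp [bif'])
    obtain ⟨i, hi⟩ := exists_bit h0
    exact ⟨i, hi, fun j hj => absurd hj (Nat.not_lt_zero _)⟩
  | cons x js ih =>
    intro σ acc h a
    have h : bif' (Nat.beq (σ % 2) 1) (bif' (lftT t js (σ / 2) (acc &&& t.get x.1)) (bif' (Nat.beq x.1 x.2) true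
        (lftT t js (σ / 2) (acc &&& t.get x.2))) false) (lftT t js (σ / 2) acc) = true := h
    have hstep : ∀ acc' : ℕ, lftT t js (σ / 2) acc' = true → (∀ u, acc'.testBit u = true → acc.testBit u = true) →
        (σ.testBit 0 = true → ∀ u, acc'.testBit u = true → (t.get (jp (x :: js) 0 (a 0))).testBit u = true) →
        ∃ i, acc.testBit i = true ∧
          ∀ j < (x :: js).length, σ.testBit j = true → (t.get (jp (x :: js) j (a j))).testBit i = true := by
      intro acc' h1 h2 h3
      obtain ⟨i, hi, h5⟩ := ih _ _ h1 fun i => a (i + 1)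
      refine ⟨i, h2 i hi, fun j hj hσ => ?_⟩
      cases j with
      | zero => exact h3 hσ _ hi
      | succ j =>
        rw [Nat.testBit_succ] at hσ
        have h6 := h5 j (by simpa using hj) hσ
        unfold jp at h6 ⊢
        simpa using h6
    cases h1 : Nat.beq (σ % 2) 1
    · rw [h1, bif'_false] at h
      refine hstep acc h (fun u hu => hu) fun h2 => ?_
      rw [Nat.testBit_zero, decide_eq_true_eq] at h2
      rw [h2] at h1
      exact absurd h1 (by simp)
    · rw [h1, bif'_true, bif'_eq_true] at h
      have hl : ∀ y u : ℕ, (acc &&& y).testBit u = true → acc.testBit u = true := by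
        intro y u h2
        rw [Nat.testBit_land, Bool.and_eq_true] at h2
        exact h2.1
      have hr : ∀ y u : ℕ, (acc &&& y).testBit u = true → y.testBit u = true := by
        intro y u h2
        rw [Nat.testBit_land, Bool.and_eq_true] at h2
        exact h2.2
      cases ha : a 0
      · refine hstep _ h.1 (hl _) fun _ u hu => ?_
        have := hr _ _ hu
        unfold jp
        simpa [ha] using this
      · cases h2 : Nat.beq x.1 x.2
        · rw [h2, bif'_false] at h
          refine hstep _ h.2 (hl _) fun _ u hu => ?_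
          have := hr _ _ hu
          unfold jp
          simpa [ha] using this
        · have h3 : x.1 = x.2 := Nat.eq_of_beq_eq_true h2
          refine hstep _ h.1 (hl _) fun _ u hu => ?_
          have := hr _ _ hu
          unfold jp
          rw [h3] at this
          simpa [ha, h3] using this

theorem lftsT_sound {U : ℕ} {t : Tr} {js : List (ℕ × ℕ)} {ms : List ℕ} (h : lftsT U t js ms = true) :
    ∀ m ∈ ms, lftT t js m U = true := by
  induction ms with
  | nil => simp
  | cons a ms ih =>
    have h : bif' (lftT t js a U) (lftsT U t js ms) false = true := h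
    rw [bif'_eq_true] at h
    intro m hm
    rcases List.mem_cons.1 hm with rfl | hm
    · exact h.1
    · exact ih h.2 m hm

end Pool.Agent.U820.LT
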