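import Pool.Agent.U820.LT.ChkF
import Pool.Agent.U729.LT.Ex

/-!
# A checker for shellings with packed numbers

The facets `f i`, `i < N`, of a complex with the vertices `0, ..., w - 1` (bitmasks `< 2 ^ w`) are packed in one number
`PF`, with fields of `w + 1` bits, the restriction sets in a number `PR`, and `PN` contains for every facet the indices
of its `k` neighbours (fields of `20 * k` bits). The kernel compares all the facets `f i` and `f (i + s)`, for a fixed
shift `s`, by a few operations with big numbers.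
-/

set_option autoImplicit false

namespace Pool.Agent.U820.LT

open Pool.Agent.U729.LT

/-! ### fields -/

/-- the field `i` of `P`, of width `W` -/
def gt (W P i : ℕ) : ℕ := Nat.mod (Nat.shiftRight P (Nat.mul W i)) (Nat.pow 2 W)

theorem gt_eq (W P i : ℕ) : gt W P i = P / 2 ^ (W * i) % 2 ^ W := by
  show (P >>> (W * i)) % 2 ^ W = _
  rw [Nat.shiftRight_eq_div_pow]

theorem gt_zero (W P : ℕ) : gt W P 0 = P % 2 ^ W := by rw [gt_eq, Nat.mul_zero, Nat.pow_zero, Nat.div_one]

theorem gt_succ (W P i : ℕ) : gt W P (i + 1) = gt W (P / 2 ^ W) i := by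
  rw [gt_eq, gt_eq, Nat.mul_succ, Nat.add_comm, Nat.pow_add, Nat.div_div_eq_div_mul]

theorem gt_lt (W P i : ℕ) : gt W P i < 2 ^ W := by
  rw [gt_eq]
  exact Nat.mod_lt _ (Nat.two_pow_pos W)

theorem gt_bit (W P i b : ℕ) : (gt W P i).testBit b = (decide (b < W) && P.testBit (W * i + b)) := by
  rw [gt_eq, Nat.testBit_mod_two_pow, Nat.testBit_div_two_pow, Nat.add_comm b]

theorem gt_shift (W P i s : ℕ) : gt W (Nat.shiftRight P (Nat.mul W s)) i = gt W P (i + s) := by
  show gt W (P >>> (W * s)) i = _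
  rw [gt_eq, gt_eq, Nat.shiftRight_eq_div_pow, Nat.div_div_eq_div_mul, ← Nat.pow_add]
  congr 3
  ring

theorem gt_land (W P Q i : ℕ) : gt W (Nat.land P Q) i = gt W P i &&& gt W Q i := by
  apply Nat.eq_of_testBit_eq
  intro b
  show (gt W (P &&& Q) i).testBit b = _
  rw [Nat.testBit_land, gt_bit, gt_bit, gt_bit, Nat.testBit_land]
  cases decide (b < W) <;> simp

theorem gt_xor (W P Q i : ℕ) : gt W (Nat.xor P Q) i = gt W P i ^^^ gt W Q i := by
  apply Nat.eq_of_testBit_eq
  intro b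
  show (gt W (P ^^^ Q) i).testBit b = _
  rw [Nat.testBit_xor, gt_bit, gt_bit, gt_bit, Nat.testBit_xor]
  cases decide (b < W) <;> simp

theorem gt_add (W n : ℕ) : ∀ P Q : ℕ, (∀ i < n, gt W P i + gt W Q i < 2 ^ W) →
    ∀ i < n, gt W (P + Q) i = gt W P i + gt W Q i := by
  induction n with
  | zero => intro P Q _ i hi; exact absurd hi (Nat.not_lt_zero _)
  | succ n ih =>
    intro P Q h i hi
    have h0 := h 0 (Nat.succ_pos _)
    rw [gt_zero, gt_zero] at h0
    cases i with
    | zero => rw [gt_zero, gt_zero, gt_zero, Nat.add_mod, Nat.mod_eq_of_lt h0]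
    | succ i =>
      have e : (P + Q) / 2 ^ W = P / 2 ^ W + Q / 2 ^ W := by
        rw [Nat.add_div (Nat.two_pow_pos W), if_neg (by omega), Nat.add_zero]
      rw [gt_succ, e, gt_succ, gt_succ]
      refine ih _ _ (fun i' hi' => ?_) i (by omega)
      have := h (i' + 1) (by omega)
      rwa [gt_succ, gt_succ] at this

/-- the number with the fields `1` -/
def on (W N : ℕ) : ℕ := Nat.div (Nat.sub (Nat.pow 2 (Nat.mul W N)) 1) (Nat.sub (Nat.pow 2 W) 1)

theorem on_mul {W : ℕ} (hW : 1 ≤ W) (N : ℕ) : (2 ^ W - 1) * on W N = 2 ^ (W * N) - 1 := by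
  have h1 : (2 ^ W - 1) ∣ 2 ^ (W * N) - 1 := by
    rw [pow_mul]
    simpa using Nat.sub_dvd_pow_sub_pow (2 ^ W) 1 N
  exact Nat.mul_div_cancel' h1

theorem on_succ {W : ℕ} (hW : 1 ≤ W) (N : ℕ) : on W (N + 1) = 1 + 2 ^ W * on W N := by
  have h0 : 2 ≤ 2 ^ W := by
    calc 2 = 2 ^ 1 := rfl
      _ ≤ 2 ^ W := Nat.pow_le_pow_right (by norm_num) hW
  have h1 := on_mul hW (N + 1)
  have h2 := on_mul hW N
  have h3 : 1 ≤ 2 ^ (W * N) := Nat.one_le_two_pow
  have h4 : (2 ^ W - 1) * on W (N + 1) = (2 ^ W - 1) * (1 + 2 ^ W * on W N) := by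
    have e : (2 ^ W - 1) * (1 + 2 ^ W * on W N) = (2 ^ W - 1) + 2 ^ W * ((2 ^ W - 1) * on W N) := by ring
    rw [h1, e, h2, Nat.mul_succ, Nat.pow_add]
    have h5 : 1 ≤ 2 ^ W := by omega
    have h6 : 1 ≤ 2 ^ (W * N) * 2 ^ W := Nat.mul_pos h3 h5
    zify [h3, h5, h6]
    ring
  exact Nat.eq_of_mul_eq_mul_left (by omega) h4

theorem gt_on {W : ℕ} (hW : 1 ≤ W) {c : ℕ} (hc : c < 2 ^ W) (N : ℕ) : ∀ i,
    gt W (Nat.mul c (on W N)) i = if i < N then c else 0 := by
  have hz : on W 0 = 0 := by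
    have := on_mul hW 0
    rw [Nat.mul_zero, Nat.pow_zero, Nat.sub_self] at this
    rcases Nat.mul_eq_zero.1 this with h | h
    · have h0 : 2 ≤ 2 ^ W := by
        calc 2 = 2 ^ 1 := rfl
          _ ≤ 2 ^ W := Nat.pow_le_pow_right (by norm_num) hW
      omega
    · exact h
  induction N with
  | zero =>
    intro i
    show gt W (c * on W 0) i = _
    rw [hz, Nat.mul_zero, gt_eq, Nat.zero_div, Nat.zero_mod, if_neg (Nat.not_lt_zero _)]
  | succ N ih =>
    intro i
    show gt W (c * on W (N + 1)) i = _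
    have e : c * on W (N + 1) = c + 2 ^ W * (c * on W N) := by
      rw [on_succ hW]; ring
    cases i with
    | zero => rw [gt_zero, e, Nat.add_mul_mod_self_left, Nat.mod_eq_of_lt hc, if_pos (Nat.succ_pos _)]
    | succ i =>
      have e2 : (c + 2 ^ W * (c * on W N)) / 2 ^ W = c * on W N := by
        rw [Nat.add_mul_div_left _ _ (Nat.two_pow_pos W), Nat.div_eq_of_lt hc, Nat.zero_add]
      rw [gt_succ, e, e2]
      have := ih i
      rw [show Nat.mul c (on W N) = c * on W N from rfl] at this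
      rw [this]
      by_cases h : i < N
      · rw [if_pos h, if_pos (by omega)]
      · rw [if_neg h, if_neg (by omega)]

/-- all the fields of `X` are different from zero -/
def tst (X G K : ℕ) : Bool := Nat.beq (Nat.land (Nat.add X G) K) K

theorem add_guard {w x : ℕ} (hx : x < 2 ^ w) : (x + (2 ^ w - 1)).testBit w = true ↔ x ≠ 0 := by
  have h0 := Nat.two_pow_pos w
  rw [Nat.testBit_eq_decide_div_mod_eq, decide_eq_true_eq]
  constructor
  · rintro h rfl
    rw [Nat.zero_add, Nat.div_eq_of_lt (by omega)] at h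
    omega
  · intro h
    have h1 : (x + (2 ^ w - 1)) / 2 ^ w = 1 := by
      apply Nat.div_eq_of_lt_le
      · omega
      · omega
    rw [h1]

theorem tst_sound {w n X G K : ℕ} (hG : ∀ i < n, gt (w + 1) G i = 2 ^ w - 1) (hK : ∀ i < n, gt (w + 1) K i = 2 ^ w)
    (hX : ∀ i < n, gt (w + 1) X i < 2 ^ w) (h : tst X G K = true) : ∀ i < n, gt (w + 1) X i ≠ 0 := by
  intro i hi
  have h : Nat.beq (Nat.land (X + G) K) K = true := h
  rw [Nat.beq_eq] at h
  have h1 := congrArg (fun P => gt (w + 1) P i) h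
  simp only [gt_land] at h1
  have h2 : 2 ^ (w + 1) = 2 ^ w + 2 ^ w := by rw [Nat.pow_succ]; ring
  have h3 := gt_add (w + 1) n X G (fun i' hi' => by
    have h3 := hX i' hi'
    rw [hG i' hi', h2]
    omega) i hi
  rw [h3, hG i hi, hK i hi] at h1
  rw [← add_guard (hX i hi)]
  have h4 := congrArg (fun P => Nat.testBit P w) h1
  simp only [Nat.testBit_land, Nat.testBit_two_pow_self, Bool.and_true] at h4
  exact h4

theorem tst_complete {w N X : ℕ} (hX : ∀ i < N, gt (w + 1) X i < 2 ^ w) (h : ∀ i < N, gt (w + 1) X i ≠ 0) :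
    tst X (Nat.mul (2 ^ w - 1) (on (w + 1) N)) (Nat.mul (2 ^ w) (on (w + 1) N)) = true := by
  have h2 : 2 ^ (w + 1) = 2 ^ w + 2 ^ w := by rw [Nat.pow_succ]; ring
  have h0 := Nat.two_pow_pos w
  have hG : ∀ i < N, gt (w + 1) (Nat.mul (2 ^ w - 1) (on (w + 1) N)) i = 2 ^ w - 1 := by
    intro i hi
    rw [gt_on (by omega) (by omega), if_pos hi]
  have hK := gt_on (W := w + 1) (by omega) (c := 2 ^ w) (by omega) N
  obtain ⟨G, hG'⟩ : ∃ G, G = Nat.mul (2 ^ w - 1) (on (w + 1) N) := ⟨_, rfl⟩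
  obtain ⟨K, hK'⟩ : ∃ K, K = Nat.mul (2 ^ w) (on (w + 1) N) := ⟨_, rfl⟩
  rw [← hG'] at hG ⊢
  rw [← hK'] at hK ⊢
  show Nat.beq ((X + G) &&& K) K = true
  rw [Nat.beq_eq]
  apply Nat.eq_of_testBit_eq
  intro m
  rw [Nat.testBit_land]
  cases hm : K.testBit m
  · simp
  · rw [Bool.and_true]
    have e : (w + 1) * (m / (w + 1)) + m % (w + 1) = m := Nat.div_add_mod m (w + 1)
    have hb : m % (w + 1) < w + 1 := Nat.mod_lt _ (Nat.succ_pos _)
    have h3 := gt_bit (w + 1) K (m / (w + 1)) (m % (w + 1))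
    rw [e, hm, hK] at h3
    simp only [hb, decide_true, Bool.and_true] at h3
    by_cases h4 : m / (w + 1) < N
    · rw [if_pos h4, Nat.testBit_two_pow, decide_eq_true_eq] at h3
      have h5 := gt_bit (w + 1) (X + G) (m / (w + 1)) w
      rw [show (w + 1) * (m / (w + 1)) + w = m by omega] at h5
      simp only [Nat.lt_succ_self, decide_true, Bool.true_and] at h5
      rw [← h5, gt_add (w + 1) N X G (fun i' hi' => by
        have h6 := hX i' hi'
        rw [hG i' hi', h2]
        omega) _ h4, hG _ h4]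
      exact (add_guard (hX _ h4)).2 (h _ h4)
    · rw [if_neg h4] at h3
      simp at h3

/-! ### the list of the fields -/

/-- the list of the first `n` fields -/
def unp (W : ℕ) : ℕ → ℕ → List ℕ
  | 0, _ => []
  | n + 1, P => P % 2 ^ W :: unp W n (P / 2 ^ W)

theorem unp_length (W n : ℕ) : ∀ P, (unp W n P).length = n := by
  induction n with
  | zero => intro P; rfl
  | succ n ih => intro P; show (unp W n _).length + 1 = _; rw [ih]

theorem unp_getD (W n : ℕ) : ∀ P i, i < n → (unp W n P).getD i 0 = gt W P i := by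
  induction n with
  | zero => intro P i h; exact absurd h (Nat.not_lt_zero _)
  | succ n ih =>
    intro P i h
    cases i with
    | zero => rw [gt_zero]; rfl
    | succ i =>
      rw [gt_succ, ← ih _ _ (by omega)]
      rfl

theorem mem_unp {W n P f : ℕ} : f ∈ unp W n P ↔ ∃ i < n, gt W P i = f := by
  rw [List.mem_iff_getElem]
  constructor
  · rintro ⟨i, hi, h⟩
    rw [unp_length] at hi
    refine ⟨i, hi, ?_⟩
    rw [← unp_getD W n P i hi, ← h, List.getD_eq_getElem]
  · rintro ⟨i, hi, h⟩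
    refine ⟨i, by rw [unp_length]; exact hi, ?_⟩
    rw [← h, ← unp_getD W n P i hi, List.getD_eq_getElem]

/-! ### the comparison of the facets `i` and `i + s` -/

/-- the number with the complements of the facets -/
def cpl (w N PF : ℕ) : ℕ := Nat.xor (Nat.mul (Nat.sub (Nat.pow 2 w) 1) (on (Nat.succ w) N)) PF

/-- one shift -/
def sh1 (W PR PC PX G K S : ℕ) : Bool :=
  bif' (tst (Nat.land (Nat.shiftRight PR S) PC) (Nat.shiftRight G S) (Nat.shiftRight K S))
    (tst (Nat.land (Nat.shiftRight PC S) PX) (Nat.shiftRight G S) (Nat.shiftRight K S)) false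

/-- the shifts `s₀ + i + 1`, `i < n` -/
def shL (W PR PC PX G K s₀ n : ℕ) : Bool :=
  Nat.rec (motive := fun _ => Bool) true
    (fun i ih => bif' (sh1 W PR PC PX G K (Nat.mul W (Nat.succ (Nat.add s₀ i)))) ih false) n

/-- the shifts `s₀ + i + 1`, `i < n`, for packed facets -/
def shF (w N PF PR s₀ n : ℕ) : Bool :=
  shL (Nat.succ w) PR (cpl w N PF) (Nat.xor PF PR) (Nat.mul (Nat.sub (Nat.pow 2 w) 1) (on (Nat.succ w) N))
    (Nat.mul (Nat.pow 2 w) (on (Nat.succ w) N)) s₀ n

theorem shL_sound {W PR PC PX G K s₀ n : ℕ} (h : shL W PR PC PX G K s₀ n = true) : ∀ s, s₀ < s → s ≤ s₀ + n →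
    sh1 W PR PC PX G K (Nat.mul W s) = true := by
  induction n with
  | zero => intro s h1 h2; omega
  | succ n ih =>
    intro s h1 h2
    have h : bif' (sh1 W PR PC PX G K (Nat.mul W (s₀ + n + 1))) (shL W PR PC PX G K s₀ n) false = true := h
    rw [bif'_eq_true] at h
    rcases Nat.eq_or_lt_of_le h2 with h3 | h3
    · rw [h3]; exact h.1
    · exact ih h.2 s h1 (by omega)

section sem

variable {w N PF PR : ℕ}

/-- every facet is smaller than `2 ^ w`, and contains its restriction set -/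
def Ok (w N PF PR : ℕ) : Prop := ∀ i < N, gt (w + 1) PF i < 2 ^ w ∧ gt (w + 1) PR i &&& gt (w + 1) PF i = gt (w + 1) PR i

theorem gt_cpl {i : ℕ} (hi : i < N) : gt (w + 1) (cpl w N PF) i = (2 ^ w - 1) ^^^ gt (w + 1) PF i := by
  have h0 := Nat.two_pow_pos w
  have h2 : 2 ^ (w + 1) = 2 ^ w + 2 ^ w := by rw [Nat.pow_succ]; ring
  show gt (w + 1) (Nat.xor (Nat.mul (2 ^ w - 1) (on (w + 1) N)) PF) i = _
  rw [gt_xor, gt_on (by omega) (by omega), if_pos hi]

theorem not_sub {w f r : ℕ} (hr : ∀ v, r.testBit v = true → v < w) (h : r &&& ((2 ^ w - 1) ^^^ f) ≠ 0) :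
    f &&& r ≠ r := by
  intro h1
  apply h
  apply Nat.eq_of_testBit_eq
  intro v
  rw [Nat.testBit_land, Nat.testBit_xor, Nat.testBit_two_pow_sub_one, Nat.zero_testBit]
  cases hv : r.testBit v
  · simp
  · have h2 := sub_bit h1 hv
    rw [h2]
    simp [hr v hv]

theorem cpl_lt {w N PF i : ℕ} (hi : i < N) (h : gt (w + 1) PF i < 2 ^ w) : gt (w + 1) (cpl w N PF) i < 2 ^ w := by
  rw [gt_cpl hi]
  exact Nat.xor_lt_two_pow (by have := Nat.two_pow_pos w; omega) h

theorem bit_lt {w f v : ℕ} (hf : f < 2 ^ w) (hv : f.testBit v = true) : v < w := lt_of_bit hf hv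

theorem sub_lt {w f r : ℕ} (hf : f < 2 ^ w) (h : r &&& f = r) : r < 2 ^ w := by
  rw [← h]
  exact Nat.and_lt_two_pow _ hf

theorem xor_sub {f r : ℕ} (h : r &&& f = r) : (f ^^^ r) &&& f = f ^^^ r := by
  apply Nat.eq_of_testBit_eq
  intro i
  rw [Nat.testBit_land, Nat.testBit_xor]
  have h8 := congrArg (fun n => Nat.testBit n i) h
  simp only [Nat.testBit_land] at h8
  revert h8
  cases f.testBit i <;> cases r.testBit i <;> simp

/-- the result of one shift -/
theorem sh1_sound (hok : Ok w N PF PR) {s i : ℕ} (hi : i + s < N)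
    (h : sh1 (Nat.succ w) PR (cpl w N PF) (Nat.xor PF PR) (Nat.mul (Nat.sub (Nat.pow 2 w) 1) (on (Nat.succ w) N))
      (Nat.mul (Nat.pow 2 w) (on (Nat.succ w) N)) (Nat.mul (w + 1) s) = true) :
    gt (w + 1) PF i &&& gt (w + 1) PR (i + s) ≠ gt (w + 1) PR (i + s) ∧
      gt (w + 1) PF (i + s) &&& (gt (w + 1) PF i ^^^ gt (w + 1) PR i) ≠ gt (w + 1) PF i ^^^ gt (w + 1) PR i := by
  have h0 := Nat.two_pow_pos w
  have h2 : 2 ^ (w + 1) = 2 ^ w + 2 ^ w := by rw [Nat.pow_succ]; ring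
  have h : bif' (tst (Nat.land (Nat.shiftRight PR (Nat.mul (w + 1) s)) (cpl w N PF))
      (Nat.shiftRight (Nat.mul (2 ^ w - 1) (on (w + 1) N)) (Nat.mul (w + 1) s))
      (Nat.shiftRight (Nat.mul (2 ^ w) (on (w + 1) N)) (Nat.mul (w + 1) s)))
    (tst (Nat.land (Nat.shiftRight (cpl w N PF) (Nat.mul (w + 1) s)) (Nat.xor PF PR))
      (Nat.shiftRight (Nat.mul (2 ^ w - 1) (on (w + 1) N)) (Nat.mul (w + 1) s))
      (Nat.shiftRight (Nat.mul (2 ^ w) (on (w + 1) N)) (Nat.mul (w + 1) s))) false = true := h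
  rw [bif'_eq_true] at h
  have hG : ∀ i' < N - s, gt (w + 1) (Nat.shiftRight (Nat.mul (2 ^ w - 1) (on (w + 1) N)) (Nat.mul (w + 1) s)) i' =
      2 ^ w - 1 := by
    intro i' hi'
    rw [gt_shift, gt_on (by omega) (by omega), if_pos (by omega)]
  have hK : ∀ i' < N - s, gt (w + 1) (Nat.shiftRight (Nat.mul (2 ^ w) (on (w + 1) N)) (Nat.mul (w + 1) s)) i' =
      2 ^ w := by
    intro i' hi'
    rw [gt_shift, gt_on (by omega) (by omega), if_pos (by omega)]
  have hR : ∀ j < N, gt (w + 1) PR j < 2 ^ w := fun j hj => sub_lt (hok j hj).1 (hok j hj).2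
  constructor
  · have h3 := tst_sound hG hK (fun i' hi' => by
      rw [gt_land, gt_shift]
      exact Nat.and_lt_two_pow _ (cpl_lt (by omega) (hok i' (by omega)).1)) h.1 i (by omega)
    rw [gt_land, gt_shift, gt_cpl (by omega)] at h3
    exact not_sub (fun v hv => bit_lt (hR _ hi) hv) h3
  · have h3 := tst_sound hG hK (fun i' hi' => by
      rw [gt_land, gt_shift]
      refine lt_of_le_of_lt Nat.and_le_left (cpl_lt (by omega) (hok (i' + s) (by omega)).1)) h.2 i (by omega)
    rw [gt_land, gt_shift, gt_cpl hi, gt_xor, Nat.land_comm] at h3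
    refine not_sub (fun v hv => ?_) h3
    have h4 := xor_sub (hok i (by omega)).2
    rw [← h4, Nat.testBit_land, Bool.and_eq_true] at hv
    exact bit_lt (hok i (by omega)).1 hv.2

end sem

end Pool.Agent.U820.LT
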