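import Pool.Agent.U820.LT.Fast

/-!
# The neighbours, the lifts, and the final theorem for the packed checker
-/

set_option autoImplicit false

namespace Pool.Agent.U820.LT

open Pool.Agent.U729.LT

/-- the number with the digits `cs` in the base `2 ^ S` -/
def cmb (S : ℕ) (cs : List ℕ) : ℕ :=
  List.rec (motive := fun _ => ℕ) 0 (fun c _ ih => Nat.add c (Nat.mul (Nat.pow 2 S) ih)) cs

/-! ### the neighbours -/

/-- one neighbour `i` of the facet `j`; `e` is the difference of the facets -/
def nb1 (N j r u i e : ℕ) (ih : ℕ → Bool) : Bool :=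
  bif' (Nat.blt i N) (bif' (Nat.beq (Nat.land e (Nat.sub e 1)) 0) (bif' (Nat.beq e 0) false
    (bif' (Nat.beq (Nat.land u e) 0)
      (bif' (bif' (Nat.beq (Nat.land r e) 0) (Nat.blt j i) (Nat.blt i j)) (ih (Nat.lor u e)) false) false)) false) false

/-- the `k` neighbours of the facet `j`; `n` is the number with the packed indices, `u` the union of the differences -/
def nbk (W N PF j f r k : ℕ) : ℕ → ℕ → Bool :=
  Nat.rec (motive := fun _ => ℕ → ℕ → Bool) (fun _ u => Nat.beq u f)
    (fun _ ih n u => nb1 N j r u (Nat.mod n 1048576)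
      (Nat.xor f (Nat.land f (gt W PF (Nat.mod n 1048576)))) (ih (Nat.div n 1048576))) k

/-- the check of one facet -/
def nbf (k w N PF j f r n : ℕ) : Bool :=
  bif' (Nat.blt f (Nat.pow 2 w)) (bif' (Nat.beq (Nat.land r f) r) (nbk (Nat.succ w) N PF j f r k n 0) false) false

/-- the check of the facet `j` -/
def nbj (k w N PF PR PN j : ℕ) : Bool :=
  nbf k w N PF j (gt (Nat.succ w) PF j) (gt (Nat.succ w) PR j) (gt (Nat.mul 20 k) PN j)

/-- the check of the facets `j₀ + i`, `i < n` -/
def nbL (k w N PF PR PN j₀ n : ℕ) : Bool :=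
  Nat.rec (motive := fun _ => Bool) true (fun i ih => bif' (nbj k w N PF PR PN (Nat.add j₀ i)) ih false) n

theorem nbL_sound {k w N PF PR PN j₀ n : ℕ} (h : nbL k w N PF PR PN j₀ n = true) : ∀ j, j₀ ≤ j → j < j₀ + n →
    nbj k w N PF PR PN j = true := by
  induction n with
  | zero => intro j h1 h2; omega
  | succ n ih =>
    intro j h1 h2
    have h : bif' (nbj k w N PF PR PN (j₀ + n)) (nbL k w N PF PR PN j₀ n) false = true := h
    rw [bif'_eq_true] at h
    rcases Nat.eq_or_lt_of_le (Nat.le_of_lt_succ (show j < j₀ + n + 1 from h2)) with h3 | h3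
    · rw [h3]; exact h.1
    · exact ih h.2 j h1 h3

theorem exists_bit {e : ℕ} (h : e ≠ 0) : ∃ v, e.testBit v = true := by
  by_contra h1
  push Not at h1
  apply h
  apply Nat.eq_of_testBit_eq
  intro v
  rw [Nat.zero_testBit]
  exact Bool.eq_false_iff.2 (h1 v)

theorem nbk_sound {w N PF j f r : ℕ} (hf : f < 2 ^ w) (k : ℕ) : ∀ n u, nbk (w + 1) N PF j f r k n u = true →
    pc w f = pc w u + k ∧ ∀ v, f.testBit v = true → u.testBit v = false → ∃ i < N,
      f ^^^ (f &&& gt (w + 1) PF i) = 2 ^ v ∧ (r.testBit v = true → i < j) ∧ (r.testBit v = false → j < i) := by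
  induction k with
  | zero =>
    intro n u h
    have h : Nat.beq u f = true := h
    rw [Nat.beq_eq] at h
    subst h
    exact ⟨rfl, fun v h1 h2 => absurd (h1.symm.trans h2) (by simp)⟩
  | succ k ih =>
    intro n u h
    obtain ⟨i, hi⟩ : ∃ i, i = n % 1048576 := ⟨_, rfl⟩
    obtain ⟨e, he⟩ : ∃ e, e = f ^^^ (f &&& gt (w + 1) PF i) := ⟨_, rfl⟩
    have h : bif' (Nat.blt (n % 1048576) N) (bif' (Nat.beq ((f ^^^ (f &&& gt (w + 1) PF (n % 1048576))) &&&
      ((f ^^^ (f &&& gt (w + 1) PF (n % 1048576))) - 1)) 0)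
      (bif' (Nat.beq (f ^^^ (f &&& gt (w + 1) PF (n % 1048576))) 0) false
        (bif' (Nat.beq (u &&& (f ^^^ (f &&& gt (w + 1) PF (n % 1048576)))) 0)
          (bif' (bif' (Nat.beq (r &&& (f ^^^ (f &&& gt (w + 1) PF (n % 1048576)))) 0) (Nat.blt j (n % 1048576))
            (Nat.blt (n % 1048576) j)) (nbk (w + 1) N PF j f r k (n / 1048576)
              (u ||| (f ^^^ (f &&& gt (w + 1) PF (n % 1048576))))) false) false)) false) false = true := h
    rw [← hi, ← he, bif'_eq_true, bif'_eq_true] at h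
    obtain ⟨h1, h2, h⟩ := h
    rw [Nat.blt_eq] at h1
    rw [Nat.beq_eq] at h2
    cases h3 : Nat.beq e 0 with
    | true => rw [h3, bif'_true] at h; exact absurd h (by simp)
    | false =>
      rw [h3, bif'_false, bif'_eq_true, bif'_eq_true] at h
      obtain ⟨h4, h5, h6⟩ := h
      rw [Nat.beq_eq] at h4
      have he0 : e ≠ 0 := fun h0 => by rw [h0, Nat.beq_refl] at h3; simp at h3
      obtain ⟨v₀, hv₀⟩ := exists_bit he0
      have hev : e = 2 ^ v₀ := eq_pow_of h2 hv₀
      have hfv : f.testBit v₀ = true := by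
        rw [he, Nat.testBit_xor, Nat.testBit_land] at hv₀
        revert hv₀
        cases f.testBit v₀ <;> simp
      have huv : u.testBit v₀ = false := by
        have h7 := congrArg (fun m => Nat.testBit m v₀) h4
        simp only [Nat.testBit_land, Nat.zero_testBit, hv₀, Bool.and_true] at h7
        exact h7
      have hvw : v₀ < w := bit_lt hf hfv
      obtain ⟨h7, h8⟩ := ih _ _ h6
      refine ⟨?_, fun v hv1 hv2 => ?_⟩
      · rw [h7, pc_eq, pc_eq]
        have h9 : (Finset.range w).filter (fun v => (u ||| e).testBit v = true) =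
            insert v₀ ((Finset.range w).filter fun v => u.testBit v = true) := by
          ext v
          rw [Finset.mem_insert, Finset.mem_filter, Finset.mem_filter, Nat.testBit_lor, hev, Nat.testBit_two_pow,
            Bool.or_eq_true, decide_eq_true_eq, Finset.mem_range]
          constructor
          · rintro ⟨h10, h11 | h11⟩
            · exact Or.inr ⟨h10, h11⟩
            · exact Or.inl h11.symm
          · rintro (rfl | ⟨h10, h11⟩)
            · exact ⟨hvw, Or.inr rfl⟩
            · exact ⟨h10, Or.inl h11⟩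
        rw [h9, Finset.card_insert_of_notMem (by rw [Finset.mem_filter, huv]; simp)]
        omega
      · by_cases hvv : v = v₀
        · subst hvv
          refine ⟨i, h1, by rw [← he, hev], ?_, ?_⟩
          · intro h9
            have h10 : Nat.beq (r &&& e) 0 = false := by
              rw [Bool.eq_false_iff]
              intro h10
              rw [Nat.beq_eq] at h10
              have h11 := congrArg (fun m => Nat.testBit m v) h10
              simp only [Nat.testBit_land, Nat.zero_testBit, h9, hv₀] at h11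
              simp at h11
            rw [h10, bif'_false, Nat.blt_eq] at h5
            exact h5
          · intro h9
            have h10 : Nat.beq (r &&& e) 0 = true := by
              rw [Nat.beq_eq]
              apply Nat.eq_of_testBit_eq
              intro v'
              rw [Nat.testBit_land, hev, Nat.testBit_two_pow, Nat.zero_testBit]
              by_cases h11 : v = v'
              · rw [← h11, h9]; simp
              · simp [h11]
            rw [h10, bif'_true, Nat.blt_eq] at h5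
            exact h5
        · refine h8 v hv1 ?_
          rw [Nat.testBit_lor, hv2, hev, Nat.testBit_two_pow, Bool.false_or, decide_eq_false_iff_not]
          exact fun h => hvv h.symm

/-- the facets `a ≤ j < b` are checked -/
def Nb (k w N PF PR PN a b : ℕ) : Prop := ∀ j, a ≤ j → j < b → nbj k w N PF PR PN j = true

theorem Nb.of {k w N PF PR PN a n : ℕ} (h : nbL k w N PF PR PN a n = true) : Nb k w N PF PR PN a (a + n) :=
  nbL_sound h

theorem Nb.trans {k w N PF PR PN a b c : ℕ} (h1 : Nb k w N PF PR PN a b) (h2 : Nb k w N PF PR PN b c) :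
    Nb k w N PF PR PN a c := fun j ha hc => by
  rcases Nat.lt_or_ge j b with h | h
  · exact h1 j ha h
  · exact h2 j h hc

/-- the shifts `a < s ≤ b` are checked -/
def Sf (w N PF PR a b : ℕ) : Prop := ∀ s, a < s → s ≤ b → sh1 (Nat.succ w) PR (cpl w N PF) (Nat.xor PF PR)
  (Nat.mul (Nat.sub (Nat.pow 2 w) 1) (on (Nat.succ w) N)) (Nat.mul (Nat.pow 2 w) (on (Nat.succ w) N))
  (Nat.mul (w + 1) s) = true

theorem Sf.of {w N PF PR a n : ℕ} (h : shF w N PF PR a n = true) : Sf w N PF PR a (a + n) :=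
  shL_sound h

theorem Sf.trans {w N PF PR a b c : ℕ} (h1 : Sf w N PF PR a b) (h2 : Sf w N PF PR b c) :
    Sf w N PF PR a c := fun j ha hc => by
  rcases Nat.lt_or_ge b j with h | h
  · exact h2 j h hc
  · exact h1 j ha h

section main

variable {k w N PF PR PN : ℕ}

theorem nbj_sound {j : ℕ} (h : nbj k w N PF PR PN j = true) : gt (w + 1) PF j < 2 ^ w ∧
    gt (w + 1) PR j &&& gt (w + 1) PF j = gt (w + 1) PR j ∧ pc w (gt (w + 1) PF j) = k ∧
    ∀ v, (gt (w + 1) PF j).testBit v = true → ∃ i < N,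
      gt (w + 1) PF j ^^^ (gt (w + 1) PF j &&& gt (w + 1) PF i) = 2 ^ v ∧
      ((gt (w + 1) PR j).testBit v = true → i < j) ∧ ((gt (w + 1) PR j).testBit v = false → j < i) := by
  have h : bif' (Nat.blt (gt (w + 1) PF j) (2 ^ w)) (bif' (Nat.beq (gt (w + 1) PR j &&& gt (w + 1) PF j)
    (gt (w + 1) PR j)) (nbk (w + 1) N PF j (gt (w + 1) PF j) (gt (w + 1) PR j) k (gt (20 * k) PN j) 0) false) false =
    true := h
  rw [bif'_eq_true, bif'_eq_true, Nat.blt_eq, Nat.beq_eq] at h
  obtain ⟨h1, h2, h3⟩ := h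
  obtain ⟨h4, h5⟩ := nbk_sound h1 k _ _ h3
  refine ⟨h1, h2, ?_, fun v hv => h5 v hv (Nat.zero_testBit v)⟩
  rw [h4, pc_eq w 0]
  simp

theorem ok_of (hn : Nb k w N PF PR PN 0 N) : Ok w N PF PR := fun i hi =>
  ⟨(nbj_sound (hn i (Nat.zero_le _) hi)).1, (nbj_sound (hn i (Nat.zero_le _) hi)).2.1⟩

theorem hand {f r g : ℕ} (hr : r &&& f = r) : (f &&& g) &&& r = g &&& r := by
  conv_rhs => rw [← hr]
  rw [Nat.land_comm f g, Nat.land_assoc, Nat.land_comm f r]

/-- **The packed checker implies the checker for lists.** -/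
theorem chk_of (hn : Nb k w N PF PR PN 0 N) (hs : Sf w N PF PR 0 (N - 1)) :
    chk k w (unp (w + 1) N PF).length (unp (w + 1) N PF) (unp (w + 1) N PR) [] = true := by
  have hok := ok_of hn
  obtain ⟨fs, hfs⟩ : ∃ fs, fs = unp (w + 1) N PF := ⟨_, rfl⟩
  obtain ⟨rs, hrs⟩ : ∃ rs, rs = unp (w + 1) N PR := ⟨_, rfl⟩
  have hlf : fs.length = N := by rw [hfs, unp_length]
  have hlr : rs.length = N := by rw [hrs, unp_length]
  have hgf : ∀ i < N, fs.getD i 0 = gt (w + 1) PF i := by rw [hfs]; exact unp_getD _ _ _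
  have hgr : ∀ i < N, rs.getD i 0 = gt (w + 1) PR i := by rw [hrs]; exact unp_getD _ _ _
  rw [← hfs, ← hrs]
  refine chk_complete k w fs.length fs rs [] le_rfl (by omega) fun j hj => ?_
  rw [hlf] at hj
  rw [hgf j hj, hgr j hj]
  obtain ⟨h1, h2, h3, h4⟩ := nbj_sound (hn j (Nat.zero_le _) hj)
  have hpre : ∀ g, g ∈ (fs.take j).reverse ++ [] ↔ ∃ i < j, gt (w + 1) PF i = g := by
    intro g
    rw [List.append_nil, List.mem_reverse, List.mem_take_iff_getElem]
    constructor
    · rintro ⟨i, hi, h⟩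
      refine ⟨i, by omega, ?_⟩
      rw [← hgf i (by omega), List.getD_eq_getElem _ _ (by omega)]
      exact h
    · rintro ⟨i, hi, h⟩
      refine ⟨i, by omega, ?_⟩
      rw [← h, ← hgf i (by omega), List.getD_eq_getElem _ _ (by omega)]
  have hsuf : ∀ g, g ∈ fs.drop (j + 1) ↔ ∃ i, j < i ∧ i < N ∧ gt (w + 1) PF i = g := by
    intro g
    rw [List.mem_drop_iff_getElem]
    constructor
    · rintro ⟨i, hi, h⟩
      refine ⟨j + 1 + i, by omega, by omega, ?_⟩
      rw [← hgf _ (by omega), List.getD_eq_getElem _ _ (by omega)]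
      exact h
    · rintro ⟨i, hi, hi', h⟩
      refine ⟨i - (j + 1), by omega, ?_⟩
      rw [← h, ← hgf i (by omega), List.getD_eq_getElem _ _ (by omega)]
      congr 1
      omega
  have hsh : ∀ i i', i < i' → i' < N → gt (w + 1) PF i &&& gt (w + 1) PR i' ≠ gt (w + 1) PR i' ∧
      gt (w + 1) PF i' &&& (gt (w + 1) PF i ^^^ gt (w + 1) PR i) ≠ gt (w + 1) PF i ^^^ gt (w + 1) PR i := by
    intro i i' hi hi'
    have h5 := sh1_sound (s := i' - i) (i := i) hok (by omega) (hs (i' - i) (by omega) (by omega))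
    rwa [show i + (i' - i) = i' by omega] at h5
  refine chk1_complete h1 h3 h2 (scan_complete _ ?_ ?_) (scan_complete _ ?_ ?_)
  · intro g hg
    obtain ⟨i, hi, rfl⟩ := (hpre g).1 hg
    rw [hand h2]
    exact (hsh i j hi hj).1
  · intro v hv
    obtain ⟨i, hi, h5, h6, -⟩ := h4 v (by
      have h7 := congrArg (fun m => Nat.testBit m v) h2
      simp only [Nat.testBit_land, hv, Bool.true_and] at h7
      exact h7)
    exact ⟨_, (hpre _).2 ⟨i, h6 hv, rfl⟩, h5⟩
  · intro g hg
    obtain ⟨i, hi, hi', rfl⟩ := (hsuf g).1 hg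
    rw [hand (xor_sub h2)]
    exact (hsh j i hi hi').2
  · intro v hv
    have h8 : (gt (w + 1) PF j).testBit v = true ∧ (gt (w + 1) PR j).testBit v = false := by
      have h7 := congrArg (fun m => Nat.testBit m v) h2
      simp only [Nat.testBit_land] at h7
      rw [Nat.testBit_xor] at hv
      revert h7 hv
      cases (gt (w + 1) PF j).testBit v <;> cases (gt (w + 1) PR j).testBit v <;> simp
    obtain ⟨i, hi, h5, -, h6⟩ := h4 v h8.1
    exact ⟨_, (hsuf _).2 ⟨i, h6 h8.2, hi, rfl⟩, h5⟩

end main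

/-! ### the lifts -/

/-- some facet contains `c`; `o`: the number with the fields `1`, `PC`: the complements -/
def anycF (w o PC G K c : ℕ) : Bool :=
  bif' (Nat.blt c (Nat.pow 2 w)) (bif' (tst (Nat.land (Nat.mul c o) PC) G K) false true) false

/-- `lft` with `anycF` -/
def lftF (w o PC G K : ℕ) (js : List (ℕ × ℕ)) : ℕ → ℕ → Bool :=
  List.rec (motive := fun _ => ℕ → ℕ → Bool) (fun _ cur => anycF w o PC G K cur)
    (fun x _ ih σ cur => bif' (Nat.beq (Nat.mod σ 2) 1)
      (bif' (ih (Nat.div σ 2) (Nat.lor cur (Nat.pow 2 x.1))) (bif' (Nat.beq x.1 x.2) true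
        (ih (Nat.div σ 2) (Nat.lor cur (Nat.pow 2 x.2)))) false)
      (ih (Nat.div σ 2) cur)) js

/-- `lfts` with `anycF` -/
def lftsL (w o PC G K : ℕ) (js : List (ℕ × ℕ)) (ms : List ℕ) : Bool :=
  List.rec (motive := fun _ => Bool) true (fun m _ ih => bif' (lftF w o PC G K js m 0) ih false) ms

/-- `lfts` for packed facets -/
def lftsF (w N PF : ℕ) (js : List (ℕ × ℕ)) (ms : List ℕ) : Bool :=
  lftsL w (on (Nat.succ w) N) (cpl w N PF) (Nat.mul (Nat.sub (Nat.pow 2 w) 1) (on (Nat.succ w) N))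
    (Nat.mul (Nat.pow 2 w) (on (Nat.succ w) N)) js ms

theorem anyc_complete {c : ℕ} {l : List ℕ} (h : ∃ f ∈ l, c &&& f = c) : anyc c l = true := by
  induction l with
  | nil => obtain ⟨f, hf, -⟩ := h; simp at hf
  | cons a l ih =>
    show bif' (Nat.beq (c &&& a) c) true (anyc c l) = true
    cases h1 : Nat.beq (c &&& a) c with
    | true => rfl
    | false =>
      rw [bif'_false]
      obtain ⟨f, hf, h2⟩ := h
      rcases List.mem_cons.1 hf with rfl | hf
      · rw [h2, Nat.beq_refl] at h1; simp at h1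
      · exact ih ⟨f, hf, h2⟩

theorem anycF_sound {w N PF : ℕ} {c : ℕ} (h : anycF w (on (w + 1) N) (cpl w N PF)
    (Nat.mul (2 ^ w - 1) (on (w + 1) N)) (Nat.mul (2 ^ w) (on (w + 1) N)) c = true) :
    anyc c (unp (w + 1) N PF) = true := by
  have h0 := Nat.two_pow_pos w
  have h2 : 2 ^ (w + 1) = 2 ^ w + 2 ^ w := by rw [Nat.pow_succ]; ring
  unfold anycF at h
  rw [bif'_eq_true, Nat.blt_eq] at h
  obtain ⟨hc, h⟩ := h
  have hc : c < 2 ^ w := hc
  have h3 : tst (Nat.land (Nat.mul c (on (w + 1) N)) (cpl w N PF)) (Nat.mul (2 ^ w - 1) (on (w + 1) N))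
      (Nat.mul (2 ^ w) (on (w + 1) N)) = false := by
    cases h4 : tst (Nat.land (Nat.mul c (on (w + 1) N)) (cpl w N PF)) (Nat.mul (2 ^ w - 1) (on (w + 1) N))
      (Nat.mul (2 ^ w) (on (w + 1) N)) with
    | false => rfl
    | true => rw [h4, bif'_true] at h; exact absurd h (by simp)
  apply anyc_complete
  by_contra hne
  push Not at hne
  rw [Bool.eq_false_iff] at h3
  apply h3
  have hX : ∀ i < N, gt (w + 1) (Nat.land (Nat.mul c (on (w + 1) N)) (cpl w N PF)) i =
      c &&& ((2 ^ w - 1) ^^^ gt (w + 1) PF i) := by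
    intro i hi
    rw [gt_land, gt_on (by omega) (by omega), if_pos hi, gt_cpl hi]
  refine tst_complete (fun i hi => ?_) fun i hi h4 => ?_
  · rw [hX i hi]
    exact lt_of_le_of_lt Nat.and_le_left hc
  · rw [hX i hi] at h4
    refine hne _ (mem_unp.2 ⟨i, hi, rfl⟩) ?_
    apply Nat.eq_of_testBit_eq
    intro v
    rw [Nat.testBit_land]
    cases hv : c.testBit v with
    | false => rfl
    | true =>
      have h5 := congrArg (fun m => Nat.testBit m v) h4
      simp only [Nat.testBit_land, Nat.testBit_xor, Nat.testBit_two_pow_sub_one, Nat.zero_testBit, hv,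
        bit_lt hc hv, decide_true, Bool.true_and] at h5
      revert h5
      cases (gt (w + 1) PF i).testBit v <;> simp

theorem lftF_sound {w N PF : ℕ} (js : List (ℕ × ℕ)) : ∀ σ cur : ℕ,
    lftF w (on (w + 1) N) (cpl w N PF) (Nat.mul (2 ^ w - 1) (on (w + 1) N)) (Nat.mul (2 ^ w) (on (w + 1) N)) js σ cur =
      true → lft (unp (w + 1) N PF) js σ cur = true := by
  induction js with
  | nil => intro σ cur h; exact anycF_sound h
  | cons x js ih =>
    intro σ cur h
    have h : bif' (Nat.beq (σ % 2) 1) (bif' (lftF w (on (w + 1) N) (cpl w N PF) (Nat.mul (2 ^ w - 1) (on (w + 1) N))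
      (Nat.mul (2 ^ w) (on (w + 1) N)) js (σ / 2) (cur ||| 2 ^ x.1)) (bif' (Nat.beq x.1 x.2) true
      (lftF w (on (w + 1) N) (cpl w N PF) (Nat.mul (2 ^ w - 1) (on (w + 1) N))
      (Nat.mul (2 ^ w) (on (w + 1) N)) js (σ / 2) (cur ||| 2 ^ x.2))) false)
      (lftF w (on (w + 1) N) (cpl w N PF) (Nat.mul (2 ^ w - 1) (on (w + 1) N))
      (Nat.mul (2 ^ w) (on (w + 1) N)) js (σ / 2) cur) = true := h
    show bif' (Nat.beq (σ % 2) 1) (bif' (lft (unp (w + 1) N PF) js (σ / 2) (cur ||| 2 ^ x.1))
      (bif' (Nat.beq x.1 x.2) true (lft (unp (w + 1) N PF) js (σ / 2) (cur ||| 2 ^ x.2))) false)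
      (lft (unp (w + 1) N PF) js (σ / 2) cur) = true
    cases h1 : Nat.beq (σ % 2) 1 with
    | false =>
      rw [h1, bif'_false] at h
      rw [bif'_false]
      exact ih _ _ h
    | true =>
      rw [h1, bif'_true, bif'_eq_true] at h
      rw [bif'_true, bif'_eq_true]
      refine ⟨ih _ _ h.1, ?_⟩
      cases h2 : Nat.beq x.1 x.2 with
      | true => rfl
      | false =>
        rw [h2, bif'_false] at h
        rw [bif'_false]
        exact ih _ _ h.2

/-- **The packed check of the lifts implies the check for lists.** -/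
theorem lfts_of {w N PF : ℕ} {js : List (ℕ × ℕ)} {ms : List ℕ}
    (h : lftsF w N PF js ms = true) : lfts (unp (w + 1) N PF) js ms = true := by
  induction ms with
  | nil => rfl
  | cons m ms ih =>
    have h : bif' (lftF w (on (w + 1) N) (cpl w N PF) (Nat.mul (2 ^ w - 1) (on (w + 1) N))
      (Nat.mul (2 ^ w) (on (w + 1) N)) js m 0) (lftsF w N PF js ms) false = true := h
    show bif' (lft (unp (w + 1) N PF) js m 0) (lfts (unp (w + 1) N PF) js ms) false = true
    rw [bif'_eq_true] at h ⊢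
    exact ⟨lftF_sound js _ _ h.1, ih h.2⟩

end Pool.Agent.U820.LT
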