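import Pool.Agent.U966.LT.Fin
import Pool.Agent.U820.LT.Ex2

/-!
# The final statements for any certified sphere
-/

set_option autoImplicit false

noncomputable section

namespace Pool.Agent.U966.LD

open Filter Pool.Agent.U729.LT Pool.Agent.U820.LT

section

variable {d w n p : ℕ} {fs : List ℕ} {zs js : List (ℕ × ℕ)} {U : ℕ} {c : Fin n → Fin (d + 1)}

/-- The first final statement, for any certified sphere. -/
theorem fin3s [hp : Fact p.Prime] (hp2 : p ≠ 2) (hd : 1 ≤ d) (hD : Data d w n p fs zs js U c)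
    (hfs : ∀ f ∈ fs, f < 2 ^ w) (hsp : ∀ M, w + 2 ≤ M → Sp (2 * d + 1) (cx M fs)) :
    ∃ (n : ℕ) (S : SimpleGraph (Fin n)), PLS (2 * d + 1) (cl S) ∧ (∃ K : ℕ → Subgroup (Gam S), Chain K) ∧
    (davis S).free.DetL2Acyclic ∧ ((davis S).prod ((davis S).prod (davis S))).free.DetL2Acyclic ∧
    ((davis S).prod ((davis S).prod (davis S))).free.l2torsion = 0 ∧
    ∃ b : ℝ, 0 < b ∧ ∀ (K : ℕ → Subgroup (Gam S)) [∀ i, (K i).Normal], Chain K → ∀ᶠ i in atTop,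
      b ≤ growth ((davis S).prod ((davis S).prod (davis S))) ((K i).prod ((K i).prod (K i))) (3 * d + 1) := by
  obtain ⟨N, H, f, Z, c', h1, h2, h3, h4, h5, -, h6⟩ := main_data2 hD hfs hsp
  obtain ⟨n, S, k1, -, k3, k4, k5, k6, k7⟩ := Pool.Agent.U966.LT.main3S d N H hd h1 f h2 h3 h4 p hp2 Z c' h6
  refine ⟨n, S, pls_sub (sub_iff.1 k1) h5, ?_, k4, k5, k6, (2 ^ n / 2 ^ Z.U.card / 2) ^ 3 * Real.log p, ?_, ?_⟩
  · obtain ⟨K, k1, k2, k3, k4⟩ := k3
    exact ⟨K, k1, k2, k3, k4⟩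
  · have : (1 : ℝ) < p := by exact_mod_cast hp.out.one_lt
    have := Real.log_pos this
    positivity
  · intro K hKn hK
    have h0 : (0 : ℝ) < 2 ^ n / 2 ^ Z.U.card := by positivity
    filter_upwards [@k7 K hKn hK.finiteIndex hK.anti hK.iInf _ (half_pos h0) (half_lt_self h0)] with i hi
    rw [growth_eq]
    exact hi

/-- The second final statement, for any certified sphere. -/
theorem fin2s [hp : Fact p.Prime] (hp2 : p ≠ 2) (hd : 1 ≤ d) (hD : Data d w n p fs zs js U c)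
    (hfs : ∀ f ∈ fs, f < 2 ^ w) (hsp : ∀ M, w + 2 ≤ M → Sp (2 * d + 1) (cx M fs)) :
    ∃ (n : ℕ) (S : SimpleGraph (Fin n)), PLS (2 * d + 1) (cl S) ∧ (∃ K : ℕ → Subgroup (Gam S), Chain K) ∧
    ∃ b : ℝ, 0 < b ∧ ∀ (K : ℕ → Subgroup (Gam S)) [∀ i, (K i).Normal], Chain K → ∀ᶠ i in atTop,
      ∀ m, m = 2 * d ∨ m = 2 * d + 1 → b ≤ growth ((davis S).prod (davis S)) ((K i).prod (K i)) m := by
  obtain ⟨N, H, f, Z, c', h1, h2, h3, h4, h5, -, h6⟩ := main_data2 hD hfs hsp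
  obtain ⟨n, S, k1, -, k3, k7⟩ := Pool.Agent.U966.LT.main2S d N H hd h1 f h2 h3 h4 p hp2 Z c' h6
  refine ⟨n, S, pls_sub (sub_iff.1 k1) h5, ?_, (2 ^ n / 2 ^ Z.U.card / 2) ^ 2 * Real.log p, ?_, ?_⟩
  · obtain ⟨K, k1, k2, k3, k4⟩ := k3
    exact ⟨K, k1, k2, k3, k4⟩
  · have : (1 : ℝ) < p := by exact_mod_cast hp.out.one_lt
    have := Real.log_pos this
    positivity
  · intro K hKn hK
    have h0 : (0 : ℝ) < 2 ^ n / 2 ^ Z.U.card := by positivity
    filter_upwards [@k7 K hKn hK.finiteIndex hK.anti hK.iInf _ (half_pos h0) (half_lt_self h0)] with i hi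
    intro m hm
    rw [growth_eq]
    exact hi m hm

end

end Pool.Agent.U966.LD
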