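import Pool.Agent.U820.LT.Fast2

/-!
# A checker for sequences of bistellar flips, with packed numbers

The facets of a complex are the fields (of `w + 1` bits) of a number; the field `0` means an unused place.
-/

set_option autoImplicit false

namespace Pool.Agent.U820.LT

open Pool.Agent.U729.LT

/-- replace the field `p` of `P` by `x` -/
def upd (W P p x : ℕ) : ℕ := Nat.xor P (Nat.shiftLeft (Nat.xor (gt W P p) x) (Nat.mul W p))

/-- replace several fields -/
def updL (W : ℕ) (us : List (ℕ × ℕ)) : ℕ → ℕ :=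
  List.rec (motive := fun _ => ℕ → ℕ) (fun P => P) (fun x _ ih P => ih (upd W P x.1 x.2)) us

/-- the places are smaller than `N`, the new values have `W` bits -/
def ckU (W N : ℕ) (us : List (ℕ × ℕ)) : Bool :=
  List.rec (motive := fun _ => Bool) true
    (fun x _ ih => bif' (Nat.blt x.1 N) (bif' (Nat.blt x.2 (Nat.pow 2 W)) ih false) false) us

/-- one value -/
def ckv1 (C u f : ℕ) (ih : ℕ → Bool) : Bool :=
  bif' (Nat.beq f 0) (ih u) (bif' (Nat.beq (Nat.land C f) f)
    (bif' (Nat.beq (Nat.land (Nat.xor C f) (Nat.sub (Nat.xor C f) 1)) 0) (ih (Nat.lor u (Nat.xor C f))) false) false)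

/-- the fields of `P` at the places of `us` are `0` or `C` without one element; all the elements of `E` occur -/
def ckV (W P C E : ℕ) (us : List (ℕ × ℕ)) : ℕ → Bool :=
  List.rec (motive := fun _ => ℕ → Bool) (fun u => Nat.beq u E) (fun x _ ih u => ckv1 C u (gt W P x.1) ih) us

/-- one flip `(A, B)` from `P` to `Q` -/
def stp (w N o G K A B : ℕ) (us : List (ℕ × ℕ)) (P Q : ℕ) (ih : ℕ → Bool) : Bool :=
  bif' (ckU (Nat.succ w) N us) (bif' (Nat.blt A (Nat.pow 2 w)) (bif' (Nat.blt B (Nat.pow 2 w))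
    (bif' (Nat.beq (Nat.land A B) 0) (bif' (Nat.beq A 0) false (bif' (Nat.beq B 0) false
      (bif' (ckV (Nat.succ w) P (Nat.lor A B) B us 0) (bif' (ckV (Nat.succ w) Q (Nat.lor A B) A us 0)
        (bif' (tst (Nat.land (Nat.mul B o) (Nat.xor G P)) G K) (bif' (tst (Nat.land (Nat.mul A o) (Nat.xor G Q)) G K)
          (ih Q) false) false) false) false))) false) false) false) false

/-- a sequence of flips -/
def run (w N o G K tgt : ℕ) (rs : List (ℕ × ℕ × List (ℕ × ℕ))) : ℕ → Bool :=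
  List.rec (motive := fun _ => ℕ → Bool) (fun P => Nat.beq P tgt)
    (fun r _ ih P => stp w N o G K r.1 r.2.1 r.2.2 P (updL (Nat.succ w) r.2.2 P) ih) rs

/-- a sequence of flips from `P` to `Q` -/
def flips (w N : ℕ) (rs : List (ℕ × ℕ × List (ℕ × ℕ))) (P Q : ℕ) : Bool :=
  run w N (on (Nat.succ w) N) (Nat.mul (Nat.sub (Nat.pow 2 w) 1) (on (Nat.succ w) N))
    (Nat.mul (Nat.pow 2 w) (on (Nat.succ w) N)) Q rs P

/-! ### soundness -/

theorem gt_shl {W y : ℕ} (hy : y < 2 ^ W) (p j : ℕ) :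
    gt W (Nat.shiftLeft y (Nat.mul W p)) j = if j = p then y else 0 := by
  apply Nat.eq_of_testBit_eq
  intro b
  show (gt W (y <<< (W * p)) j).testBit b = _
  rw [gt_bit, Nat.testBit_shiftLeft]
  by_cases hb : b < W
  · rcases Nat.lt_trichotomy j p with h | h | h
    · have h1 : W * j + b < W * p := by
        calc W * j + b < W * j + W := by omega
          _ = W * (j + 1) := by ring
          _ ≤ W * p := Nat.mul_le_mul_left _ h
      rw [if_neg h.ne, Nat.zero_testBit]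
      simp [Nat.not_le.2 h1]
    · subst h
      rw [if_pos rfl]
      simp [hb]
    · have h1 : W * p + W ≤ W * j := by
        calc W * p + W = W * (p + 1) := by ring
          _ ≤ W * j := Nat.mul_le_mul_left _ h
      rw [if_neg h.ne', Nat.zero_testBit, Nat.testBit_lt_two_pow (lt_of_lt_of_le hy
        (Nat.pow_le_pow_right (by norm_num) (show W ≤ W * j + b - W * p by omega)))]
      simp
  · have h1 : (if j = p then y else 0 : ℕ).testBit b = false := by
      split_ifs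
      · exact Nat.testBit_lt_two_pow (lt_of_lt_of_le hy (Nat.pow_le_pow_right (by norm_num) (not_lt.1 hb)))
      · exact Nat.zero_testBit _
    rw [h1]
    simp [hb]

theorem gt_upd {W P p x j : ℕ} (hx : x < 2 ^ W) : gt W (upd W P p x) j = if j = p then x else gt W P j := by
  unfold upd
  rw [gt_xor, gt_shl (y := Nat.xor (gt W P p) x) (Nat.xor_lt_two_pow (gt_lt W P p) hx)]
  split_ifs with h
  · subst h
    show gt W P j ^^^ (gt W P j ^^^ x) = x
    rw [← Nat.xor_assoc, Nat.xor_self, Nat.zero_xor]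
  · exact Nat.xor_zero _

theorem ckU_sound {W N : ℕ} {us : List (ℕ × ℕ)} (h : ckU W N us = true) : ∀ x ∈ us, x.1 < N ∧ x.2 < 2 ^ W := by
  induction us with
  | nil => simp
  | cons y us ih =>
    have h : bif' (Nat.blt y.1 N) (bif' (Nat.blt y.2 (2 ^ W)) (ckU W N us) false) false = true := h
    rw [bif'_eq_true, bif'_eq_true, Nat.blt_eq, Nat.blt_eq] at h
    intro x hx
    rcases List.mem_cons.1 hx with rfl | hx
    · exact ⟨h.1, h.2.1⟩
    · exact ih h.2.2 x hx

theorem gt_updL {W : ℕ} {us : List (ℕ × ℕ)} : ∀ P : ℕ, (∀ x ∈ us, x.2 < 2 ^ W) → ∀ j, (∀ x ∈ us, x.1 ≠ j) →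
    gt W (updL W us P) j = gt W P j := by
  induction us with
  | nil => intro P _ j _; rfl
  | cons y us ih =>
    intro P h j hj
    show gt W (updL W us (upd W P y.1 y.2)) j = _
    rw [ih _ (fun x hx => h x (List.mem_cons_of_mem _ hx)) j fun x hx => hj x (List.mem_cons_of_mem _ hx),
      gt_upd (h y List.mem_cons_self), if_neg fun h1 => hj y List.mem_cons_self h1.symm]

theorem ckV_sound {W P C E : ℕ} {us : List (ℕ × ℕ)} : ∀ u, ckV W P C E us u = true →
    (∀ x ∈ us, C &&& gt W P x.1 = gt W P x.1) ∧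
    ∀ b, E.testBit b = true → u.testBit b = true ∨ ∃ x ∈ us, C ^^^ gt W P x.1 = 2 ^ b ∧ C &&& gt W P x.1 = gt W P x.1 := by
  induction us with
  | nil =>
    intro u h
    have h : Nat.beq u E = true := h
    rw [Nat.beq_eq] at h
    subst h
    exact ⟨by simp, fun b hb => Or.inl hb⟩
  | cons y us ih =>
    intro u h
    have h : bif' (Nat.beq (gt W P y.1) 0) (ckV W P C E us u) (bif' (Nat.beq (C &&& gt W P y.1) (gt W P y.1))
      (bif' (Nat.beq ((C ^^^ gt W P y.1) &&& ((C ^^^ gt W P y.1) - 1)) 0) (ckV W P C E us (u ||| (C ^^^ gt W P y.1)))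
        false) false) = true := h
    cases h1 : Nat.beq (gt W P y.1) 0 with
    | true =>
      rw [h1, bif'_true] at h
      rw [Nat.beq_eq] at h1
      obtain ⟨h2, h3⟩ := ih _ h
      refine ⟨fun x hx => ?_, fun b hb => ?_⟩
      · rcases List.mem_cons.1 hx with rfl | hx
        · rw [h1, Nat.and_zero]
        · exact h2 x hx
      · rcases h3 b hb with h4 | ⟨x, hx, h4⟩
        · exact Or.inl h4
        · exact Or.inr ⟨x, List.mem_cons_of_mem _ hx, h4⟩
    | false =>
      rw [h1, bif'_false, bif'_eq_true, bif'_eq_true, Nat.beq_eq, Nat.beq_eq] at h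
      obtain ⟨h4, h5, h6⟩ := h
      obtain ⟨h2, h3⟩ := ih _ h6
      refine ⟨fun x hx => ?_, fun b hb => ?_⟩
      · rcases List.mem_cons.1 hx with rfl | hx
        · exact h4
        · exact h2 x hx
      · rcases h3 b hb with h7 | ⟨x, hx, h7⟩
        · rw [Nat.testBit_lor, Bool.or_eq_true] at h7
          rcases h7 with h7 | h7
          · exact Or.inl h7
          · exact Or.inr ⟨y, List.mem_cons_self, eq_pow_of h5 h7, h4⟩
        · exact Or.inr ⟨x, List.mem_cons_of_mem _ hx, h7⟩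

section sem

variable {M w N P Q : ℕ}

/-- the complex with the facets `gt (w + 1) P i`, `i < N` -/
def KP (M w N P : ℕ) : Set (Finset (Fin M)) := {T | ∃ i < N, T ⊆ toF M (gt (w + 1) P i)}

theorem KP_eq : KP M w N P = cx M (unp (w + 1) N P) := by
  ext T
  constructor
  · rintro ⟨i, hi, h⟩
    exact ⟨_, mem_unp.2 ⟨i, hi, rfl⟩, h⟩
  · rintro ⟨f, hf, h⟩
    obtain ⟨i, hi, rfl⟩ := mem_unp.1 hf
    exact ⟨i, hi, h⟩

theorem toF_sub {a b : ℕ} (h : b &&& a = a) : toF M a ⊆ toF M b := by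
  intro v hv
  rw [mem_toF] at hv ⊢
  exact sub_bit h hv

/-- `r` is not contained in the fields of `P` -/
theorem tst_sub {r : ℕ} (hr : r < 2 ^ w)
    (h : tst (Nat.land (Nat.mul r (on (w + 1) N)) (Nat.xor (Nat.mul (2 ^ w - 1) (on (w + 1) N)) P))
      (Nat.mul (2 ^ w - 1) (on (w + 1) N)) (Nat.mul (2 ^ w) (on (w + 1) N)) = true) (hM : w ≤ M) :
    ∀ i < N, ¬ toF M r ⊆ toF M (gt (w + 1) P i) := by
  intro i hi h1
  have h0 := Nat.two_pow_pos w
  have h2 : 2 ^ (w + 1) = 2 ^ w + 2 ^ w := by rw [Nat.pow_succ]; ring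
  have hX : ∀ i < N, gt (w + 1) (Nat.land (Nat.mul r (on (w + 1) N))
      (Nat.xor (Nat.mul (2 ^ w - 1) (on (w + 1) N)) P)) i = r &&& ((2 ^ w - 1) ^^^ gt (w + 1) P i) := by
    intro i hi
    rw [gt_land, gt_on (by omega) (by omega), if_pos hi, gt_xor, gt_on (by omega) (by omega), if_pos hi]
  have h3 := tst_sound (n := N) (fun i hi => by rw [gt_on (by omega) (by omega), if_pos hi])
    (fun i hi => by rw [gt_on (by omega) (by omega), if_pos hi])
    (fun i hi => by rw [hX i hi]; exact lt_of_le_of_lt Nat.and_le_left hr) h i hi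
  rw [hX i hi] at h3
  refine not_sub (fun v hv => bit_lt hr hv) h3 ?_
  apply Nat.eq_of_testBit_eq
  intro v
  rw [Nat.testBit_land]
  cases hv : r.testBit v with
  | false => simp
  | true =>
    have h4 : (⟨v, (bit_lt hr hv).trans_le hM⟩ : Fin M) ∈ toF M (gt (w + 1) P i) := h1 (mem_toF.2 hv)
    rw [mem_toF] at h4
    rw [h4]; rfl

theorem xor_bit {C f b v : ℕ} (h : C ^^^ f = 2 ^ b) (hv : C.testBit v = true) (hvb : v ≠ b) : f.testBit v = true := by
  have h1 := congrArg (fun m => Nat.testBit m v) h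
  simp only [Nat.testBit_xor, hv, Nat.testBit_two_pow] at h1
  cases hf : f.testBit v with
  | true => rfl
  | false =>
    rw [hf] at h1
    simp at h1
    exact absurd h1.symm hvb

/-- the state is a sphere -/
def Good (k w N P : ℕ) : Prop := (∀ i < N, gt (w + 1) P i < 2 ^ w) ∧ ∀ M, w + 1 ≤ M → Sp k (KP M w N P)

theorem stp_sound {k A B : ℕ} {us : List (ℕ × ℕ)} {ih : ℕ → Bool} (hg : Good k w N P)
    (h : stp w N (on (Nat.succ w) N) (Nat.mul (Nat.sub (Nat.pow 2 w) 1) (on (Nat.succ w) N))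
      (Nat.mul (Nat.pow 2 w) (on (Nat.succ w) N)) A B us P (updL (Nat.succ w) us P) ih = true) :
    Good k w N (updL (w + 1) us P) ∧ ih (updL (w + 1) us P) = true := by
  obtain ⟨Q, hQ⟩ : ∃ Q, Q = updL (w + 1) us P := ⟨_, rfl⟩
  obtain ⟨hP, hS⟩ := hg
  have h : bif' (ckU (w + 1) N us) (bif' (Nat.blt A (2 ^ w)) (bif' (Nat.blt B (2 ^ w))
    (bif' (Nat.beq (A &&& B) 0) (bif' (Nat.beq A 0) false (bif' (Nat.beq B 0) false
      (bif' (ckV (w + 1) P (A ||| B) B us 0) (bif' (ckV (w + 1) (updL (w + 1) us P) (A ||| B) A us 0)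
        (bif' (tst (Nat.land (Nat.mul B (on (w + 1) N)) (Nat.xor (Nat.mul (2 ^ w - 1) (on (w + 1) N)) P))
            (Nat.mul (2 ^ w - 1) (on (w + 1) N)) (Nat.mul (2 ^ w) (on (w + 1) N)))
          (bif' (tst (Nat.land (Nat.mul A (on (w + 1) N)) (Nat.xor (Nat.mul (2 ^ w - 1) (on (w + 1) N))
              (updL (w + 1) us P))) (Nat.mul (2 ^ w - 1) (on (w + 1) N)) (Nat.mul (2 ^ w) (on (w + 1) N)))
          (ih (updL (w + 1) us P)) false) false) false) false))) false) false) false) false = true := h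
  rw [← hQ] at h ⊢
  rw [bif'_eq_true, bif'_eq_true, bif'_eq_true, bif'_eq_true, Nat.blt_eq, Nat.blt_eq, Nat.beq_eq] at h
  obtain ⟨h1, hA, hB, hAB, h⟩ := h
  cases hA0 : Nat.beq A 0 with
  | true => rw [hA0, bif'_true] at h; exact absurd h (by simp)
  | false =>
  cases hB0 : Nat.beq B 0 with
  | true => rw [hA0, bif'_false, hB0, bif'_true] at h; exact absurd h (by simp)
  | false =>
  rw [hA0, bif'_false, hB0, bif'_false, bif'_eq_true, bif'_eq_true, bif'_eq_true, bif'_eq_true] at h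
  obtain ⟨hv1, hv2, ht1, ht2, hih⟩ := h
  have hA0 : A ≠ 0 := fun h0 => by rw [h0, Nat.beq_refl] at hA0; simp at hA0
  have hB0 : B ≠ 0 := fun h0 => by rw [h0, Nat.beq_refl] at hB0; simp at hB0
  have hu := ckU_sound h1
  obtain ⟨ho1, ho2⟩ := ckV_sound _ hv1
  obtain ⟨hn1, hn2⟩ := ckV_sound _ hv2
  have hunt : ∀ j, (∀ x ∈ us, x.1 ≠ j) → gt (w + 1) Q j = gt (w + 1) P j := by
    rw [hQ]
    exact gt_updL P fun x hx => (hu x hx).2
  have hC : A ||| B < 2 ^ w := Nat.or_lt_two_pow hA hB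
  have hQlt : ∀ i < N, gt (w + 1) Q i < 2 ^ w := by
    intro i hi
    by_cases h2 : ∃ x ∈ us, x.1 = i
    · obtain ⟨x, hx, rfl⟩ := h2
      rw [← hn1 x hx]
      exact lt_of_le_of_lt Nat.and_le_left hC
    · push Not at h2
      rw [hunt i h2]
      exact hP i hi
  refine ⟨⟨hQlt, fun M hM => ?_⟩, hih⟩
  have hBn := tst_sub (M := M) hB ht1 (by omega)
  have hAn := tst_sub (M := M) hA ht2 (by omega)
  have hS := hS M hM
  have ht : ∀ a : ℕ, a ≠ 0 → a < 2 ^ w → (toF M a).Nonempty := by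
    intro a ha0 ha
    obtain ⟨v, hv⟩ := exists_bit ha0
    exact ⟨⟨v, by have := bit_lt ha hv; omega⟩, mem_toF.2 hv⟩
  have hmem : ∀ v : Fin M, v ∈ toF M (A ||| B) ↔ v ∈ toF M A ∪ toF M B := by
    intro v
    rw [Finset.mem_union, mem_toF, mem_toF, mem_toF, Nat.testBit_lor, Bool.or_eq_true]
  have hCs : ∀ {T : Finset (Fin M)} {f : ℕ}, (A ||| B) &&& f = f → T ⊆ toF M f → T ⊆ toF M A ∪ toF M B :=
    fun h2 h3 v hv => (hmem v).1 (toF_sub h2 (h3 hv))
  -- coverage
  have hcov : ∀ {R : ℕ} {b : Fin M} {x : ℕ × ℕ} {T : Finset (Fin M)}, (A ||| B) ^^^ gt (w + 1) R x.1 = 2 ^ b.1 →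
      T ⊆ toF M A ∪ toF M B → b ∉ T → T ⊆ toF M (gt (w + 1) R x.1) := by
    intro R b x T h2 h3 h4 v hv
    rw [mem_toF]
    refine xor_bit h2 (mem_toF.1 ((hmem v).2 (h3 hv))) fun h5 => h4 ?_
    rw [← Fin.ext h5]; exact hv
  have hcO : ∀ (b : Fin M) (T : Finset (Fin M)), b ∈ toF M B → T ⊆ toF M A ∪ toF M B → b ∉ T → T ∈ KP M w N P := by
    intro b T hb h3 h4
    rcases ho2 b.1 (mem_toF.1 hb) with h5 | ⟨x, hx, h5, -⟩
    · rw [Nat.zero_testBit] at h5; exact absurd h5 (by simp)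
    · exact ⟨x.1, (hu x hx).1, hcov h5 h3 h4⟩
  have hcN : ∀ (b : Fin M) (T : Finset (Fin M)), b ∈ toF M A → T ⊆ toF M A ∪ toF M B → b ∉ T → T ∈ KP M w N Q := by
    intro b T hb h3 h4
    rcases hn2 b.1 (mem_toF.1 hb) with h5 | ⟨x, hx, h5, -⟩
    · rw [Nat.zero_testBit] at h5; exact absurd h5 (by simp)
    · exact ⟨x.1, (hu x hx).1, hcov h5 h3 h4⟩
  have hdis : Disjoint (toF M A) (toF M B) := by
    rw [Finset.disjoint_left]
    intro v h2 h3
    rw [mem_toF] at h2 h3
    have h4 := congrArg (fun m => Nat.testBit m v.1) hAB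
    simp only [Nat.testBit_land, h2, h3, Nat.zero_testBit] at h4
    simp at h4
  have hf : IsFlip (KP M w N P) (toF M A) (toF M B) := by
    refine ⟨ht A hA0 hA, ht B hB0 hB, hdis, ?_, fun T hT => ⟨?_, ?_⟩⟩
    · rintro ⟨i, hi, h2⟩
      exact hBn i hi h2
    · rintro ⟨i, hi, h2⟩
      have h3 : ∃ x ∈ us, x.1 = i := by
        by_contra h4
        push Not at h4
        apply hAn i hi
        rw [hunt i h4]
        exact Finset.subset_union_right.trans h2
      obtain ⟨x, hx, rfl⟩ := h3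
      refine ⟨fun v hv => ?_, fun h4 => hBn _ hi (h4.trans (Finset.subset_union_left.trans h2))⟩
      rcases Finset.mem_union.1 (hCs (ho1 x hx) h2 (Finset.mem_union_left _ hv)) with h4 | h4
      · exact absurd h4 (Finset.disjoint_left.1 hT hv)
      · exact h4
    · intro h2
      obtain ⟨b, hb, hbT⟩ := Finset.not_subset.1 h2.2
      refine hcO b _ hb (Finset.union_subset (h2.1.trans Finset.subset_union_right) Finset.subset_union_left) ?_
      intro h3
      rcases Finset.mem_union.1 h3 with h4 | h4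
      · exact hbT h4
      · exact Finset.disjoint_left.1 hdis h4 hb
  have hm : ∀ R : ℕ, (∀ i < N, gt (w + 1) R i < 2 ^ w) → ∀ T ∈ KP M w N R, (⟨w, by omega⟩ : Fin M) ∉ T := by
    rintro R hR T ⟨i, hi, h2⟩ h3
    have h4 := mem_toF.1 (h2 h3)
    exact absurd (bit_lt (hR i hi) h4) (by simp)
  have hfl := hS.flip hf ⟨w, by omega⟩ (hm P hP) (fun h2 => absurd (bit_lt hB (mem_toF.1 h2)) (by simp))
  have e : Pool.Agent.U729.LT.flip (KP M w N P) (toF M A) (toF M B) = KP M w N Q := by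
    ext T
    constructor
    · rintro ⟨h2, h3⟩
      obtain ⟨a, ha, haT⟩ := Finset.not_subset.1 h2
      rcases h3 with ⟨i, hi, h3⟩ | ⟨-, h3⟩
      · by_cases h4 : ∃ x ∈ us, x.1 = i
        · obtain ⟨x, hx, rfl⟩ := h4
          exact hcN a T ha (hCs (ho1 x hx) h3) haT
        · push Not at h4
          exact ⟨i, hi, by rw [hunt i h4]; exact h3⟩
      · exact hcN a T ha h3 haT
    · rintro ⟨i, hi, h2⟩
      refine ⟨fun h3 => hAn i hi (h3.trans h2), ?_⟩
      by_cases h4 : ∃ x ∈ us, x.1 = i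
      · obtain ⟨x, hx, rfl⟩ := h4
        have h5 := hCs (hn1 x hx) h2
        by_cases h6 : toF M B ⊆ T
        · exact Or.inr ⟨h6, h5⟩
        · obtain ⟨b, hb, hbT⟩ := Finset.not_subset.1 h6
          exact Or.inl (hcO b T hb h5 hbT)
      · push Not at h4
        exact Or.inl ⟨i, hi, by rw [← hunt i h4]; exact h2⟩
  rw [← e]
  exact hfl

/-- **A sequence of flips.** -/
theorem Good.step {k : ℕ} (hg : Good k w N P) {rs : List (ℕ × ℕ × List (ℕ × ℕ))} (h : flips w N rs P Q = true) :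
    Good k w N Q := by
  unfold flips at h
  induction rs generalizing P with
  | nil =>
    have h : Nat.beq P Q = true := h
    rw [Nat.beq_eq] at h
    rw [← h]
    exact hg
  | cons r rs ih =>
    obtain ⟨h1, h2⟩ := stp_sound hg (A := r.1) (B := r.2.1) (us := r.2.2) (ih := run w N (on (Nat.succ w) N)
      (Nat.mul (Nat.sub (Nat.pow 2 w) 1) (on (Nat.succ w) N)) (Nat.mul (Nat.pow 2 w) (on (Nat.succ w) N)) Q rs) h
    exact ih h1 h2

/-- the check of the first state: the boundary of the simplex with the vertices `v ≤ k` -/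
def base0 (k w N : ℕ) (us : List (ℕ × ℕ)) (P : ℕ) : Bool :=
  bif' (ckU (Nat.succ w) N us) (bif' (Nat.ble (Nat.succ k) w)
    (bif' (ckV (Nat.succ w) P (Nat.sub (Nat.pow 2 (Nat.succ k)) 1) (Nat.sub (Nat.pow 2 (Nat.succ k)) 1) us 0)
      (bif' (Nat.beq (updL (Nat.succ w) us P) 0)
        (tst (Nat.land (Nat.mul (Nat.sub (Nat.pow 2 (Nat.succ k)) 1) (on (Nat.succ w) N))
          (Nat.xor (Nat.mul (Nat.sub (Nat.pow 2 w) 1) (on (Nat.succ w) N)) P))
          (Nat.mul (Nat.sub (Nat.pow 2 w) 1) (on (Nat.succ w) N)) (Nat.mul (Nat.pow 2 w) (on (Nat.succ w) N)))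
        false) false) false) false

theorem Good.base {k : ℕ} {us : List (ℕ × ℕ)} (h : base0 k w N us P = true) : Good k w N P := by
  obtain ⟨C, hC⟩ : ∃ C, C = 2 ^ (k + 1) - 1 := ⟨_, rfl⟩
  have h : bif' (ckU (w + 1) N us) (bif' (Nat.ble (k + 1) w)
    (bif' (ckV (w + 1) P (2 ^ (k + 1) - 1) (2 ^ (k + 1) - 1) us 0)
      (bif' (Nat.beq (updL (w + 1) us P) 0)
        (tst (Nat.land (Nat.mul (2 ^ (k + 1) - 1) (on (w + 1) N)) (Nat.xor (Nat.mul (2 ^ w - 1) (on (w + 1) N)) P))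
          (Nat.mul (2 ^ w - 1) (on (w + 1) N)) (Nat.mul (2 ^ w) (on (w + 1) N))) false) false) false) false = true := h
  rw [← hC, bif'_eq_true, bif'_eq_true, bif'_eq_true, bif'_eq_true, Nat.ble_eq, Nat.beq_eq] at h
  obtain ⟨h1, h2, h3, h4, h5⟩ := h
  have hu := ckU_sound h1
  obtain ⟨ho1, ho2⟩ := ckV_sound _ h3
  have hCw : C < 2 ^ w := by
    have h6 : 2 ^ (k + 1) ≤ 2 ^ w := Nat.pow_le_pow_right (by norm_num) h2
    have h7 := Nat.two_pow_pos (k + 1)
    omega
  have h0 : ∀ j, (∀ x ∈ us, x.1 ≠ j) → gt (w + 1) P j = 0 := by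
    intro j hj
    rw [← gt_updL P (fun x hx => (hu x hx).2) j hj, h4, gt_eq, Nat.zero_div, Nat.zero_mod]
  have hsub : ∀ i, C &&& gt (w + 1) P i = gt (w + 1) P i := by
    intro i
    by_cases h6 : ∃ x ∈ us, x.1 = i
    · obtain ⟨x, hx, rfl⟩ := h6
      exact ho1 x hx
    · push Not at h6
      rw [h0 i h6, Nat.and_zero]
  have hP : ∀ i < N, gt (w + 1) P i < 2 ^ w := by
    intro i hi
    rw [← hsub i]
    exact lt_of_le_of_lt Nat.and_le_left hCw
  refine ⟨hP, fun M hM => ?_⟩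
  have hCn := tst_sub (M := M) hCw h5 (by omega)
  have hbit : ∀ v : Fin M, v ∈ toF M C ↔ v.1 < k + 1 := by
    intro v
    rw [mem_toF, hC, Nat.testBit_two_pow_sub_one, decide_eq_true_eq]
  have hcard : (toF M C).card = k + 1 := by
    have e : toF M C = Finset.univ.map ⟨fun i : Fin (k + 1) => (⟨i.1, by omega⟩ : Fin M), fun i j hij => Fin.ext (by
        have := congrArg Fin.val hij
        exact this)⟩ := by
      ext v
      rw [hbit, Finset.mem_map]
      constructor
      · intro h1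
        exact ⟨⟨v.1, h1⟩, Finset.mem_univ _, rfl⟩
      · rintro ⟨i, -, rfl⟩
        exact i.2
    rw [e, Finset.card_map, Finset.card_univ, Fintype.card_fin]
  have e : KP M w N P = {T : Finset (Fin M) | T ⊆ toF M C ∧ T ≠ toF M C} := by
    ext T
    constructor
    · rintro ⟨i, hi, h6⟩
      refine ⟨h6.trans (toF_sub (hsub i)), ?_⟩
      rintro rfl
      exact hCn i hi h6
    · rintro ⟨h6, h7⟩
      obtain ⟨b, hb, hbT⟩ := Finset.not_subset.1 fun h8 => h7 (h6.antisymm h8)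
      rcases ho2 b.1 (mem_toF.1 hb) with h8 | ⟨x, hx, h8, -⟩
      · rw [Nat.zero_testBit] at h8; exact absurd h8 (by simp)
      · refine ⟨x.1, (hu x hx).1, fun v hv => ?_⟩
        rw [mem_toF]
        refine xor_bit h8 (mem_toF.1 (h6 hv)) fun h9 => hbT ?_
        rw [← Fin.ext h9]; exact hv
  rw [e]
  exact sp_simplex (Finset.card_pos.1 (by rw [hcard]; omega)) hcard

/-- the result, for lists -/
theorem Good.sp {k : ℕ} (hg : Good k w N P) {M : ℕ} (hM : w + 1 ≤ M) : Sp k (cx M (unp (w + 1) N P)) := by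
  rw [← KP_eq]
  exact hg.2 M hM

theorem Good.lt {k : ℕ} (hg : Good k w N P) : ∀ f ∈ unp (w + 1) N P, f < 2 ^ w := by
  intro f hf
  obtain ⟨i, hi, rfl⟩ := mem_unp.1 hf
  exact hg.1 i hi

end sem

end Pool.Agent.U820.LT
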