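import Pool.Agent.U820.LT.Flips

/-!
# Flips for slot masks: the abstract step
-/

set_option autoImplicit false

namespace Pool.Agent.U820.LT

open Pool.Agent.U729.LT

/-- the complex with the places in `U`; the label `v` is in the place `i` iff bit `i` of `m v` is set -/
def KM (M U : ℕ) (m : ℕ → ℕ) : Set (Finset (Fin M)) :=
  {T | ∃ i, U.testBit i = true ∧ ∀ v ∈ T, v.1 < 512 ∧ (m v.1).testBit i = true}

/-- the invariant -/
def Inv (k U : ℕ) (m : ℕ → ℕ) : Prop :=
  (∀ v < 512, ∀ i, (m v).testBit i = true → U.testBit i = true) ∧ ∀ M, 513 ≤ M → Sp k (KM M U m)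

/-- the set of the labels of a list of entries -/
def lab (M : ℕ) (L : List (ℕ × ℕ)) : Finset (Fin M) := Finset.univ.filter fun v => ∃ e ∈ L, e.1 = v.1

theorem mem_lab {M : ℕ} {L : List (ℕ × ℕ)} {v : Fin M} : v ∈ lab M L ↔ ∃ e ∈ L, e.1 = v.1 := by
  simp [lab]

theorem card_lab {M : ℕ} {L : List (ℕ × ℕ)} (h : (L.map Prod.fst).Nodup) (hM : ∀ e ∈ L, e.1 < M) :
    (lab M L).card = L.length := by
  have e : (lab M L).map Fin.valEmbedding = (L.map Prod.fst).toFinset := by
    ext x
    rw [Finset.mem_map, List.mem_toFinset, List.mem_map]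
    constructor
    · rintro ⟨v, hv, rfl⟩
      exact mem_lab.1 hv
    · rintro ⟨e, he, rfl⟩
      exact ⟨⟨e.1, hM e he⟩, mem_lab.2 ⟨e, he, rfl⟩, rfl⟩
  rw [← Finset.card_map Fin.valEmbedding, e, List.toFinset_card_of_nodup h, List.length_map]

theorem nodup_inj {α β : Type} {f : α → β} {L : List α} (h : (L.map f).Nodup) {x y : α} (hx : x ∈ L) (hy : y ∈ L)
    (hxy : f x = f y) : x = y := List.inj_on_of_nodup_map h hx hy hxy

theorem step_abs {k U So Sn U' : ℕ} {m m' : ℕ → ℕ} {LA LB : List (ℕ × ℕ)} (hi : Inv k U m)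
    (hlen : LA.length + LB.length = k + 1) (hA0 : LA ≠ []) (hB0 : LB ≠ [])
    (hlt : ∀ e ∈ LA ++ LB, e.1 < 512) (hnd : ((LA ++ LB).map Prod.fst).Nodup)
    (hqA : (LA.map Prod.snd).Nodup) (hqB : (LB.map Prod.snd).Nodup)
    (hSn : ∀ i, Sn.testBit i = true ↔ ∃ e ∈ LA, e.2 = i)
    (hSo : ∀ i, So.testBit i = true ↔ ∃ e ∈ LB, e.2 = i)
    (hA : ∀ i, So.testBit i = true ↔ U.testBit i = true ∧ ∀ e ∈ LA, (m e.1).testBit i = true)
    (hB : ∀ e ∈ LB, ∀ i, So.testBit i = true → ((m e.1).testBit i = true ↔ i ≠ e.2))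
    (hBn : ∀ i, ¬ (U.testBit i = true ∧ ∀ e ∈ LB, (m e.1).testBit i = true))
    (hfree : ∀ i, Sn.testBit i = true → U.testBit i = true → So.testBit i = true)
    (hm : ∀ e ∈ LA ++ LB, m' e.1 = m e.1 ^^^ ((So ^^^ Sn) ^^^ 2 ^ e.2))
    (hm0 : ∀ v < 512, (∀ e ∈ LA ++ LB, e.1 ≠ v) → m' v = m v)
    (hU : U' = (U ^^^ So) ||| Sn) : Inv k U' m' := by
  obtain ⟨hmk, hsp⟩ := hi
  -- bits of the new masks
  have hbit : ∀ e ∈ LA ++ LB, ∀ i, (m' e.1).testBit i =
      ((m e.1).testBit i ^^ ((So.testBit i ^^ Sn.testBit i) ^^ decide (e.2 = i))) := by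
    intro e he i
    rw [hm e he, Nat.testBit_xor, Nat.testBit_xor, Nat.testBit_xor, Nat.testBit_two_pow]
  have hndA : (LA.map Prod.fst).Nodup := by
    rw [List.map_append] at hnd
    exact hnd.of_append_left
  have hndB : (LB.map Prod.fst).Nodup := by
    rw [List.map_append] at hnd
    exact hnd.of_append_right
  have hdAB : ∀ e ∈ LA, ∀ e' ∈ LB, e.1 ≠ e'.1 := by
    intro e he e' he' h
    rw [List.map_append, List.nodup_append] at hnd
    exact hnd.2.2 _ (List.mem_map.2 ⟨e, he, rfl⟩) _ (List.mem_map.2 ⟨e', he', rfl⟩) h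
  have hltA : ∀ e ∈ LA, e.1 < 512 := fun e he => hlt e (List.mem_append_left _ he)
  have hltB : ∀ e ∈ LB, e.1 < 512 := fun e he => hlt e (List.mem_append_right _ he)
  have hSoU : ∀ i, So.testBit i = true → U.testBit i = true := fun i h => ((hA i).1 h).1
  have hU'b : ∀ i, U'.testBit i = ((U.testBit i ^^ So.testBit i) || Sn.testBit i) := by
    intro i
    rw [hU, Nat.testBit_lor, Nat.testBit_xor]
  -- facts for a given M
  have key : ∀ M, 513 ≤ M → (∀ e ∈ LB, ∀ v : Fin M, v.1 < 512 → ((m v.1).testBit e.2 = true ↔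
      (v ∈ lab M LA ∪ lab M LB ∧ v.1 ≠ e.1))) := by
    intro M hM e he
    have hS := hsp M hM
    obtain ⟨f, hf⟩ : ∃ f : Finset (Fin M), f = Finset.univ.filter fun v => v.1 < 512 ∧ (m v.1).testBit e.2 = true :=
      ⟨_, rfl⟩
    have hfm : ∀ v, v ∈ f ↔ v.1 < 512 ∧ (m v.1).testBit e.2 = true := fun v => by rw [hf]; simp
    have hSoe : So.testBit e.2 = true := (hSo _).2 ⟨e, he, rfl⟩
    have hfK : f ∈ KM M U m := ⟨e.2, hSoU _ hSoe, fun v hv => (hfm v).1 hv⟩
    have hfc := hS.1.card_le hfK
    obtain ⟨b, hb⟩ : ∃ b : Fin M, b.1 = e.1 := ⟨⟨e.1, by have := hltB e he; omega⟩, rfl⟩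
    have hbB : b ∈ lab M LB := mem_lab.2 ⟨e, he, hb.symm⟩
    have hsub : (lab M LA ∪ lab M LB).erase b ⊆ f := by
      intro v hv
      rw [Finset.mem_erase, Finset.mem_union, mem_lab, mem_lab] at hv
      rw [hfm]
      rcases hv with ⟨h1, ⟨e', he', h2⟩ | ⟨e', he', h2⟩⟩
      · rw [← h2]
        exact ⟨hltA e' he', ((hA _).1 hSoe).2 e' he'⟩
      · rw [← h2]
        refine ⟨hltB e' he', (hB e' he' _ hSoe).2 ?_⟩
        intro h3
        apply h1
        have h4 := nodup_inj hqB he he' h3
        exact Fin.ext (by rw [hb, h4, h2])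
    have hdis : Disjoint (lab M LA) (lab M LB) := by
      rw [Finset.disjoint_left]
      intro v h1 h2
      obtain ⟨e1, h3, h4⟩ := mem_lab.1 h1
      obtain ⟨e2, h5, h6⟩ := mem_lab.1 h2
      exact hdAB e1 h3 e2 h5 (h4.trans h6.symm)
    have hcard : ((lab M LA ∪ lab M LB).erase b).card = k := by
      rw [Finset.card_erase_of_mem (Finset.mem_union_right _ hbB), Finset.card_union_of_disjoint hdis,
        card_lab hndA fun e he => by have := hltA e he; omega, card_lab hndB fun e he => by have := hltB e he; omega,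
        hlen]
      rfl
    have heq := Finset.eq_of_subset_of_card_le hsub (by rw [hcard]; exact hfc)
    intro v hv
    constructor
    · intro h1
      have h2 : v ∈ f := (hfm v).2 ⟨hv, h1⟩
      rw [← heq, Finset.mem_erase] at h2
      exact ⟨h2.2, fun h3 => h2.1 (Fin.ext (h3.trans hb.symm))⟩
    · rintro ⟨h1, h2⟩
      have h3 : v ∈ (lab M LA ∪ lab M LB).erase b := Finset.mem_erase.2 ⟨fun h4 => h2 (by rw [h4, hb]), h1⟩
      exact ((hfm v).1 (hsub h3)).2
  -- labels which do not occur
  have hout : ∀ v < 512, (∀ e ∈ LA ++ LB, e.1 ≠ v) → ∀ i, So.testBit i = true → (m v).testBit i = false := by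
    intro v hv h i h1
    obtain ⟨e, he, rfl⟩ := (hSo i).1 h1
    cases h2 : (m v).testBit e.2 with
    | false => rfl
    | true =>
      have h3 := ((key 513 le_rfl e he ⟨v, by omega⟩ hv).1 h2).1
      rw [Finset.mem_union, mem_lab, mem_lab] at h3
      rcases h3 with ⟨e', he', h4⟩ | ⟨e', he', h4⟩
      · exact absurd h4 (h e' (List.mem_append_left _ he'))
      · exact absurd h4 (h e' (List.mem_append_right _ he'))
  -- unused places
  have hun : ∀ v < 512, ∀ i, Sn.testBit i = true → So.testBit i = false → (m v).testBit i = false := by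
    intro v hv i h1 h2
    cases h3 : (m v).testBit i with
    | false => rfl
    | true =>
      have h4 := hfree i h1 (hmk v hv i h3)
      rw [h2] at h4
      exact absurd h4 (by simp)
  -- the new masks at the places of `Sn`
  have hnew : ∀ e ∈ LA, ∀ v < 512, (m' v).testBit e.2 = true ↔ (∃ e' ∈ LA ++ LB, e'.1 = v) ∧ v ≠ e.1 := by
    intro e he v hv
    have hSne : Sn.testBit e.2 = true := (hSn _).2 ⟨e, he, rfl⟩
    by_cases h : ∃ e' ∈ LA ++ LB, e'.1 = v
    · obtain ⟨e', he', rfl⟩ := h
      rw [hbit e' he', hSne]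
      rcases List.mem_append.1 he' with h1 | h1
      · have h2 : (m e'.1).testBit e.2 = So.testBit e.2 := by
          cases h3 : So.testBit e.2 with
          | true => exact ((hA _).1 h3).2 e' h1
          | false => exact hun _ hv _ hSne h3
        rw [h2]
        have h4 : (So.testBit e.2 ^^ ((So.testBit e.2 ^^ true) ^^ decide (e'.2 = e.2))) = !decide (e'.2 = e.2) := by
          cases So.testBit e.2 <;> simp
        rw [h4]
        simp only [Bool.not_eq_true', decide_eq_false_iff_not]
        constructor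
        · intro h5
          exact ⟨⟨e', he', rfl⟩, fun h6 => h5 (by rw [nodup_inj hndA h1 he h6])⟩
        · rintro ⟨-, h5⟩ h6
          exact h5 (by rw [nodup_inj hqA h1 he h6])
      · have h2 : ((m e'.1).testBit e.2 ^^ ((So.testBit e.2 ^^ true) ^^ decide (e'.2 = e.2))) = true := by
          cases h3 : So.testBit e.2 with
          | true =>
            have h4 := hB e' h1 _ h3
            by_cases h5 : e.2 = e'.2
            · have h6 : (m e'.1).testBit e.2 = false := by
                cases h7 : (m e'.1).testBit e.2 with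
                | false => rfl
                | true => exact absurd h5 (h4.1 h7)
              rw [h6]
              simp [h5]
            · have h6 : ¬ e'.2 = e.2 := fun h => h5 h.symm
              rw [h4.2 h5]
              simp [h6]
          | false =>
            rw [hun _ hv _ hSne h3]
            have h5 : e'.2 ≠ e.2 := by
              intro h6
              rw [← h6, (hSo _).2 ⟨e', h1, rfl⟩] at h3
              exact absurd h3 (by simp)
            simp [h5]
        rw [h2]
        simp only [true_iff]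
        exact ⟨⟨e', he', rfl⟩, fun h3 => hdAB e he e' h1 h3.symm⟩
    · push Not at h
      rw [hm0 v hv h]
      constructor
      · intro h1
        exfalso
        cases h2 : So.testBit e.2 with
        | true => rw [hout v hv h _ h2] at h1; exact absurd h1 (by simp)
        | false => rw [hun v hv _ hSne h2] at h1; exact absurd h1 (by simp)
      · rintro ⟨⟨e', he', h1⟩, -⟩
        exact absurd h1 (h e' he')
  -- the new masks at the other places
  have hold : ∀ i, Sn.testBit i = false → ∀ v < 512, (m' v).testBit i = ((m v).testBit i && !So.testBit i) := by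
    intro i hi v hv
    by_cases h : ∃ e' ∈ LA ++ LB, e'.1 = v
    · obtain ⟨e', he', rfl⟩ := h
      rw [hbit e' he', hi]
      rcases List.mem_append.1 he' with h1 | h1
      · have h2 : e'.2 ≠ i := by
          rintro rfl
          rw [(hSn _).2 ⟨e', h1, rfl⟩] at hi
          exact absurd hi (by simp)
        cases h3 : So.testBit i with
        | true => rw [((hA _).1 h3).2 e' h1]; simp [h2]
        | false => simp [h2]
      · cases h3 : So.testBit i with
        | true =>
          have h4 := hB e' h1 _ h3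
          by_cases h5 : i = e'.2
          · have h6 : (m e'.1).testBit i = false := by
              cases h7 : (m e'.1).testBit i with
              | false => rfl
              | true => exact absurd h5 (h4.1 h7)
            rw [h6]
            simp [h5]
          · have h6 : ¬ e'.2 = i := fun h => h5 h.symm
            rw [h4.2 h5]
            simp [h6]
        | false =>
          have h5 : e'.2 ≠ i := by
            rintro rfl
            rw [(hSo _).2 ⟨e', h1, rfl⟩] at h3
            exact absurd h3 (by simp)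
          simp [h5]
    · push Not at h
      rw [hm0 v hv h]
      cases h3 : So.testBit i with
      | true => rw [hout v hv h _ h3]; rfl
      | false => simp
  refine ⟨?_, fun M hM => ?_⟩
  · intro v hv i h1
    rw [hU'b]
    cases h2 : Sn.testBit i with
    | true => simp
    | false =>
      rw [hold i h2 v hv, Bool.and_eq_true, Bool.not_eq_true'] at h1
      rw [hmk v hv i h1.1, h1.2]
      rfl
  have hS := hsp M hM
  obtain ⟨A, hAd⟩ : ∃ A, A = lab M LA := ⟨_, rfl⟩
  obtain ⟨B, hBd⟩ : ∃ B, B = lab M LB := ⟨_, rfl⟩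
  have hkey := key M hM
  rw [← hAd, ← hBd] at hkey
  have hdis : Disjoint A B := by
    rw [Finset.disjoint_left, hAd, hBd]
    intro v h1 h2
    obtain ⟨e1, h3, h4⟩ := mem_lab.1 h1
    obtain ⟨e2, h5, h6⟩ := mem_lab.1 h2
    exact hdAB e1 h3 e2 h5 (h4.trans h6.symm)
  have hcA : A.card = LA.length := by rw [hAd]; exact card_lab hndA fun e he => by have := hltA e he; omega
  have hcB : B.card = LB.length := by rw [hBd]; exact card_lab hndB fun e he => by have := hltB e he; omega
  have hAne : A.Nonempty := by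
    rw [← Finset.card_pos, hcA]
    exact List.length_pos_of_ne_nil hA0
  have hBne : B.Nonempty := by
    rw [← Finset.card_pos, hcB]
    exact List.length_pos_of_ne_nil hB0
  have hA512 : ∀ v ∈ A, v.1 < 512 := by
    intro v hv
    rw [hAd] at hv
    obtain ⟨e, he, h1⟩ := mem_lab.1 hv
    rw [← h1]; exact hltA e he
  have hB512 : ∀ v ∈ B, v.1 < 512 := by
    intro v hv
    rw [hBd] at hv
    obtain ⟨e, he, h1⟩ := mem_lab.1 hv
    rw [← h1]; exact hltB e he
  have hBK : B ∉ KM M U m := by
    rintro ⟨i, h1, h2⟩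
    refine hBn i ⟨h1, fun e he => ?_⟩
    exact (h2 ⟨e.1, by have := hltB e he; omega⟩ (by rw [hBd]; exact mem_lab.2 ⟨e, he, rfl⟩)).2
  -- faces of the old facets
  have hOK : ∀ e ∈ LB, ∀ T : Finset (Fin M), T ⊆ A ∪ B → (∀ v ∈ T, v.1 ≠ e.1) → T ∈ KM M U m := by
    intro e he T hT h1
    refine ⟨e.2, hSoU _ ((hSo _).2 ⟨e, he, rfl⟩), fun v hv => ?_⟩
    have h2 : v.1 < 512 := by
      rcases Finset.mem_union.1 (hT hv) with h3 | h3
      · exact hA512 v h3
      · exact hB512 v h3
    exact ⟨h2, (hkey e he v h2).2 ⟨hT hv, h1 v hv⟩⟩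
  have hf : IsFlip (KM M U m) A B := by
    refine isFlip_of_gs hS.1 hAne hBne hdis (by rw [hcA, hcB, hlen]) hBK ?_
    intro b hb
    rw [hBd] at hb
    obtain ⟨e, he, h1⟩ := mem_lab.1 hb
    refine hOK e he _ ?_ ?_
    · exact Finset.union_subset ((Finset.erase_subset _ _).trans Finset.subset_union_right) Finset.subset_union_left
    · intro v hv h2
      rcases Finset.mem_union.1 hv with h3 | h3
      · exact (Finset.mem_erase.1 h3).1 (Fin.ext (h2.trans h1))
      · rw [hAd] at h3
        obtain ⟨e', he', h4⟩ := mem_lab.1 h3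
        exact hdAB e' he' e he (h4.trans h2)
  have hfl := hS.flip hf ⟨512, by omega⟩ (by
    rintro T ⟨i, -, h1⟩ h2
    exact absurd (h1 _ h2).1 (by simp)) (fun h2 => absurd (hB512 _ h2) (by simp))
  have hlabAB : ∀ v : Fin M, v ∈ A ∪ B ↔ ∃ e ∈ LA ++ LB, e.1 = v.1 := by
    intro v
    rw [Finset.mem_union, hAd, hBd, mem_lab, mem_lab]
    constructor
    · rintro (⟨e, he, h⟩ | ⟨e, he, h⟩)
      · exact ⟨e, List.mem_append_left _ he, h⟩
      · exact ⟨e, List.mem_append_right _ he, h⟩
    · rintro ⟨e, he, h⟩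
      rcases List.mem_append.1 he with h1 | h1
      · exact Or.inl ⟨e, h1, h⟩
      · exact Or.inr ⟨e, h1, h⟩
  have hNK : ∀ a ∈ A, ∀ T : Finset (Fin M), T ⊆ A ∪ B → a ∉ T → T ∈ KM M U' m' := by
    intro a ha T hT h1
    have ha' := ha
    rw [hAd] at ha'
    obtain ⟨e, he, h2⟩ := mem_lab.1 ha'
    refine ⟨e.2, by rw [hU'b, (hSn _).2 ⟨e, he, rfl⟩]; simp, fun v hv => ?_⟩
    have h3 := (hlabAB v).1 (hT hv)
    have h4 : v.1 < 512 := by
      obtain ⟨e', he', h5⟩ := h3
      rw [← h5]; exact hlt e' he'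
    refine ⟨h4, (hnew e he v.1 h4).2 ⟨h3, fun h5 => h1 ?_⟩⟩
    have : v = a := Fin.ext (h5.trans h2)
    rw [← this]; exact hv
  have e : Pool.Agent.U729.LT.flip (KM M U m) A B = KM M U' m' := by
    ext T
    constructor
    · rintro ⟨h2, h3⟩
      obtain ⟨a, ha, haT⟩ := Finset.not_subset.1 h2
      rcases h3 with ⟨i, h4, h5⟩ | ⟨-, h3⟩
      · cases h6 : So.testBit i with
        | true =>
          obtain ⟨e, he, rfl⟩ := (hSo i).1 h6
          refine hNK a ha T (fun v hv => ?_) haT
          have h7 := h5 v hv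
          exact ((hkey e he v h7.1).1 h7.2).1
        | false =>
          have h7 : Sn.testBit i = false := by
            cases h8 : Sn.testBit i with
            | false => rfl
            | true =>
              have h9 := hfree i h8 h4
              rw [h6] at h9
              exact absurd h9 (by simp)
          refine ⟨i, by rw [hU'b, h4, h6]; rfl, fun v hv => ⟨(h5 v hv).1, ?_⟩⟩
          rw [hold i h7 _ (h5 v hv).1, (h5 v hv).2, h6]
          rfl
      · exact hNK a ha T h3 haT
    · rintro ⟨i, h4, h5⟩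
      cases h6 : Sn.testBit i with
      | true =>
        obtain ⟨e, he, rfl⟩ := (hSn i).1 h6
        have h7 : T ⊆ A ∪ B := fun v hv => (hlabAB v).2 ((hnew e he v.1 (h5 v hv).1).1 (h5 v hv).2).1
        refine ⟨fun h8 => ?_, ?_⟩
        · have h9 : (⟨e.1, by have := hltA e he; omega⟩ : Fin M) ∈ A := by rw [hAd]; exact mem_lab.2 ⟨e, he, rfl⟩
          exact ((hnew e he _ (hltA e he)).1 (h5 _ (h8 h9)).2).2 rfl
        · by_cases h8 : B ⊆ T
          · exact Or.inr ⟨h8, h7⟩
          · obtain ⟨b, hb, hbT⟩ := Finset.not_subset.1 h8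
            rw [hBd] at hb
            obtain ⟨e', he', h9⟩ := mem_lab.1 hb
            refine Or.inl (hOK e' he' T h7 fun v hv h10 => hbT ?_)
            have : v = b := Fin.ext (h10.trans h9)
            rw [← this]; exact hv
      | false =>
        have h7 : So.testBit i = false := by
          cases h8 : So.testBit i with
          | false => rfl
          | true =>
            rw [hU'b, h6, h8, hSoU i h8] at h4
            exact absurd h4 (by simp)
        have h8 : U.testBit i = true := by
          rw [hU'b, h6, h7] at h4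
          simpa using h4
        have h9 : ∀ v ∈ T, v.1 < 512 ∧ (m v.1).testBit i = true := by
          intro v hv
          have h10 := h5 v hv
          rw [hold i h6 _ h10.1, h7] at h10
          exact ⟨h10.1, by simpa using h10.2⟩
        refine ⟨fun h10 => ?_, Or.inl ⟨i, h8, h9⟩⟩
        rw [(hA i).2 ⟨h8, fun e he => (h9 ⟨e.1, by have := hltA e he; omega⟩
          (h10 (by rw [hAd]; exact mem_lab.2 ⟨e, he, rfl⟩))).2⟩] at h7
        exact absurd h7 (by simp)
  rw [← e]
  exact hfl

end Pool.Agent.U820.LT
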