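import Pool.Agent.U820.LT.TrA

/-!
# A checker for sequences of bistellar flips with slot masks in a tree
-/

set_option autoImplicit false

noncomputable section

namespace Pool.Agent.U820.LT

open Pool.Agent.U729.LT

/-- a binary tree with numbers (masks of places) at the leaves -/
inductive Tr : Type
  | lf (m : ℕ) : Tr
  | nd (l r : Tr) : Tr

/-- the leaf `v` of the tree (path: the bits of `v`, the lowest first) -/
def Tr.get : Tr → ℕ → ℕ :=
  Tr.rec (motive := fun _ => ℕ → ℕ) (fun m _ => m)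
    (fun _ _ ihl ihr v => bif' (Nat.beq (Nat.mod v 2) 0) (ihl (Nat.div v 2)) (ihr (Nat.div v 2)))

/-- exclusive or of the leaf `v` with `x` -/
def Tr.set : Tr → ℕ → ℕ → Tr :=
  Tr.rec (motive := fun _ => ℕ → ℕ → Tr) (fun m _ x => Tr.lf (Nat.xor m x))
    (fun l r ihl ihr v x => bif' (Nat.beq (Nat.mod v 2) 0) (Tr.nd (ihl (Nat.div v 2) x) r)
      (Tr.nd l (ihr (Nat.div v 2) x)))

/-- exclusive or of the leaf `v` with `x`; the continuation gets the old leaf and the new tree -/
def Tr.up {β : Type} : Tr → ℕ → ℕ → (ℕ → Tr → β) → β :=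
  Tr.rec (motive := fun _ => ℕ → ℕ → (ℕ → Tr → β) → β) (fun m _ x k => k m (Tr.lf (Nat.xor m x)))
    (fun l r ihl ihr v x k => bif' (Nat.beq (Nat.mod v 2) 0)
      (ihl (Nat.div v 2) x (fun m l' => k m (Tr.nd l' r))) (ihr (Nat.div v 2) x (fun m r' => k m (Tr.nd l r'))))

/-- the union of the places of the first `n` entries (increasing places, different labels) -/
def slo (n : ℕ) : ℕ → ℕ → ℕ → ℕ → (ℕ → ℕ → ℕ → Bool) → Bool :=
  Nat.rec (motive := fun _ => ℕ → ℕ → ℕ → ℕ → (ℕ → ℕ → ℕ → Bool) → Bool) (fun R _ c acc k => k R c acc)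
    (fun _ ih R p c acc k => bif' (Nat.blt p (Nat.succ (Nat.mod (Nat.div R 512) 65536)))
      (bif' (Nat.beq (Nat.land c (Nat.pow 2 (Nat.mod R 512))) 0)
        (ih (Nat.div R 33554432) (Nat.succ (Nat.mod (Nat.div R 512) 65536)) (Nat.lor c (Nat.pow 2 (Nat.mod R 512)))
          (Nat.lor acc (Nat.pow 2 (Nat.mod (Nat.div R 512) 65536))) k) false) false) n

/-- the updates for the entries of `A` -/
def gA (D : ℕ) (n : ℕ) : Tr → ℕ → ℕ → (ℕ → Tr → ℕ → Bool) → Bool :=
  Nat.rec (motive := fun _ => Tr → ℕ → ℕ → (ℕ → Tr → ℕ → Bool) → Bool) (fun t R acc k => k acc t R)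
    (fun _ ih t R acc k => Tr.up t (Nat.mod R 512) (Nat.xor D (Nat.pow 2 (Nat.mod (Nat.div R 512) 65536)))
      (fun m t' => ih t' (Nat.div R 33554432) (Nat.land acc m) k)) n

/-- the updates for the entries of `B` -/
def gB (D S : ℕ) (n : ℕ) : Tr → ℕ → ℕ → (ℕ → Tr → Bool) → Bool :=
  Nat.rec (motive := fun _ => Tr → ℕ → ℕ → (ℕ → Tr → Bool) → Bool) (fun t _ acc k => k acc t)
    (fun _ ih t R acc k => Tr.up t (Nat.mod R 512) (Nat.xor D (Nat.pow 2 (Nat.mod (Nat.div R 512) 65536)))
      (fun m t' => bif' (Nat.beq (Nat.land m S) (Nat.xor S (Nat.pow 2 (Nat.mod (Nat.div R 512) 65536))))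
        (ih t' (Nat.div R 33554432) (Nat.land acc m) k) false)) n

/-- one flip -/
def st1 (a : ℕ) (R : ℕ) (U : ℕ) (t : Tr) (k : ℕ → Tr → Bool) : Bool :=
  bif' (Nat.beq a 0) false (slo a R 0 0 0 (fun R' c Sn => slo (Nat.sub 8 a) R' 0 c 0 (fun _ _ So =>
    bif' (Nat.beq (Nat.land (Nat.xor U So) Sn) 0)
      (gA (Nat.xor So Sn) a t R U (fun x t' R'' => bif' (Nat.beq x So)
        (gB (Nat.xor So Sn) So (Nat.sub 8 a) t' R'' U (fun y t'' => bif' (Nat.beq y 0)
          (k (Nat.lor (Nat.xor U So) Sn) t'') false)) false)) false)))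

/-- the sequence of flips -/
def rn (tgt : ℕ → Tr → Bool) (rs : List ℕ) : ℕ → Tr → Bool :=
  List.rec (motive := fun _ => ℕ → Tr → Bool) tgt
    (fun r _ ih U t => st1 (Nat.mod r 8) (Nat.div r 8) U t ih) rs

/-- equality of trees -/
def Tr.eq : Tr → Tr → Bool :=
  Tr.rec (motive := fun _ => Tr → Bool)
    (fun m t => Tr.rec (motive := fun _ => Bool) (fun m' => Nat.beq m m') (fun _ _ _ _ => false) t)
    (fun _ _ ihl ihr t => Tr.rec (motive := fun _ => Bool) (fun _ => false)
      (fun l' r' _ _ => bif' (ihl l') (ihr r') false) t)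

/-- the flips `rs` lead from `(U, t)` to `(U', t')` -/
def seg (rs : List ℕ) (U : ℕ) (t : Tr) (U' : ℕ) (t' : Tr) : Bool :=
  rn (fun U₁ t₁ => bif' (Nat.beq U₁ U') (Tr.eq t₁ t') false) rs U t

/-! ### soundness -/

/-- all the leaves have depth `d` -/
def Tr.full : ℕ → Tr → Prop
  | 0, .lf _ => True
  | 0, .nd _ _ => False
  | _ + 1, .lf _ => False
  | d + 1, .nd l r => l.full d ∧ r.full d

theorem get_nd (l r : Tr) (v : ℕ) : (Tr.nd l r).get v = if v % 2 = 0 then l.get (v / 2) else r.get (v / 2) := by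
  show bif' (Nat.beq (v % 2) 0) (l.get (v / 2)) (r.get (v / 2)) = _
  cases h : Nat.beq (v % 2) 0 with
  | true => rw [Nat.beq_eq] at h; rw [if_pos h]; rfl
  | false => rw [if_neg fun h1 => by rw [h1] at h; simp at h]; rfl

theorem set_nd (l r : Tr) (v x : ℕ) : (Tr.nd l r).set v x =
    if v % 2 = 0 then Tr.nd (l.set (v / 2) x) r else Tr.nd l (r.set (v / 2) x) := by
  show bif' (Nat.beq (v % 2) 0) (Tr.nd (l.set (v / 2) x) r) (Tr.nd l (r.set (v / 2) x)) = _
  cases h : Nat.beq (v % 2) 0 with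
  | true => rw [Nat.beq_eq] at h; rw [if_pos h]; rfl
  | false => rw [if_neg fun h1 => by rw [h1] at h; simp at h]; rfl

theorem up_eq {β : Type} (t : Tr) : ∀ (v x : ℕ) (k : ℕ → Tr → β), t.up v x k = k (t.get v) (t.set v x) := by
  induction t with
  | lf m => intro v x k; rfl
  | nd l r ihl ihr =>
    intro v x k
    show bif' (Nat.beq (v % 2) 0) (l.up (v / 2) x (fun m l' => k m (Tr.nd l' r)))
      (r.up (v / 2) x (fun m r' => k m (Tr.nd l r'))) = _
    rw [ihl, ihr, get_nd, set_nd]
    cases h : Nat.beq (v % 2) 0 with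
    | true => rw [Nat.beq_eq] at h; rw [if_pos h, if_pos h]; rfl
    | false =>
      have h1 : v % 2 ≠ 0 := fun h1 => by rw [h1] at h; simp at h
      rw [if_neg h1, if_neg h1]; rfl

theorem full_set {d : ℕ} {t : Tr} (h : t.full d) (v x : ℕ) : (t.set v x).full d := by
  induction t generalizing d v with
  | lf m =>
    cases d with
    | zero => trivial
    | succ d => exact h.elim
  | nd l r ihl ihr =>
    cases d with
    | zero => exact h.elim
    | succ d =>
      rw [set_nd]
      split_ifs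
      · exact ⟨ihl h.1 _, h.2⟩
      · exact ⟨h.1, ihr h.2 _⟩

theorem mod_split (u v d : ℕ) : u % 2 ^ (d + 1) = v % 2 ^ (d + 1) ↔
    u % 2 = v % 2 ∧ (u / 2) % 2 ^ d = (v / 2) % 2 ^ d := by
  rw [Nat.pow_succ', Nat.mod_mul, Nat.mod_mul]
  constructor
  · intro h
    have h1 := Nat.mod_lt u (y := 2) (by norm_num)
    have h2 := Nat.mod_lt v (y := 2) (by norm_num)
    omega
  · rintro ⟨h1, h2⟩
    rw [h1, h2]

theorem get_set {d : ℕ} {t : Tr} (h : t.full d) (u v x : ℕ) :
    (t.set v x).get u = if u % 2 ^ d = v % 2 ^ d then t.get v ^^^ x else t.get u := by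
  induction t generalizing d u v with
  | lf m =>
    cases d with
    | zero =>
      rw [if_pos (by rw [Nat.pow_zero, Nat.mod_one, Nat.mod_one])]
      rfl
    | succ d => exact h.elim
  | nd l r ihl ihr =>
    cases d with
    | zero => exact h.elim
    | succ d =>
      rw [set_nd]
      by_cases hv : v % 2 = 0
      · rw [if_pos hv, get_nd, get_nd, get_nd, if_pos hv]
        by_cases hu : u % 2 = 0
        · rw [if_pos hu, if_pos hu, ihl h.1]
          have e : (u % 2 ^ (d + 1) = v % 2 ^ (d + 1)) = ((u / 2) % 2 ^ d = (v / 2) % 2 ^ d) := by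
            rw [mod_split]; exact propext ⟨fun h => h.2, fun h => ⟨hu.trans hv.symm, h⟩⟩
          simp only [e]
        · rw [if_neg hu, if_neg hu, if_neg]
          rw [mod_split]
          rintro ⟨h1, -⟩
          exact hu (h1.trans hv)
      · rw [if_neg hv, get_nd, get_nd, get_nd, if_neg hv]
        by_cases hu : u % 2 = 0
        · rw [if_pos hu, if_pos hu, if_neg]
          rw [mod_split]
          rintro ⟨h1, -⟩
          exact hv (h1.symm.trans hu)
        · rw [if_neg hu, if_neg hu, ihr h.2]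
          have e : (u % 2 ^ (d + 1) = v % 2 ^ (d + 1)) = ((u / 2) % 2 ^ d = (v / 2) % 2 ^ d) := by
            rw [mod_split]
            exact propext ⟨fun h => h.2, fun h => ⟨by
              have := Nat.mod_two_eq_zero_or_one u
              have := Nat.mod_two_eq_zero_or_one v
              omega, h⟩⟩
          simp only [e]

theorem get_set9 {t : Tr} (h : t.full 9) {u v : ℕ} (hu : u < 512) (hv : v < 512) (x : ℕ) :
    (t.set v x).get u = if u = v then t.get v ^^^ x else t.get u := by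
  have h9 : (2 : ℕ) ^ 9 = 512 := by norm_num
  rw [get_set h, h9, Nat.mod_eq_of_lt hu, Nat.mod_eq_of_lt hv]

/-- the entries -/
def es : ℕ → ℕ → List (ℕ × ℕ)
  | 0, _ => []
  | n + 1, R => (R % 512, R / 512 % 65536) :: es n (R / 33554432)

/-- the rest after the entries -/
def dr : ℕ → ℕ → ℕ
  | 0, R => R
  | n + 1, R => dr n (R / 33554432)

theorem es_length (n : ℕ) : ∀ R, (es n R).length = n := by
  induction n with
  | zero => intro R; rfl
  | succ n ih =>
    intro R
    show (es n _).length + 1 = n + 1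
    rw [ih]

theorem es_lt {n : ℕ} : ∀ {R : ℕ}, ∀ e ∈ es n R, e.1 < 512 := by
  induction n with
  | zero => intro R e he; exact absurd he (by simp [es])
  | succ n ih =>
    intro R e he
    rcases List.mem_cons.1 he with rfl | he
    · exact Nat.mod_lt _ (by norm_num)
    · exact ih e he

theorem land_pow0 {c v : ℕ} (h : Nat.beq (Nat.land c (Nat.pow 2 v)) 0 = true) : c.testBit v = false := by
  rw [Nat.beq_eq] at h
  have h1 : (c &&& 2 ^ v).testBit v = false := by
    have : c &&& 2 ^ v = 0 := h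
    rw [this, Nat.zero_testBit]
  rw [Nat.testBit_land, Nat.testBit_two_pow_self, Bool.and_true] at h1
  exact h1

theorem lor_pow (c v i : ℕ) : (Nat.lor c (Nat.pow 2 v)).testBit i = true ↔ c.testBit i = true ∨ v = i := by
  show (c ||| 2 ^ v).testBit i = true ↔ _
  rw [Nat.testBit_lor, Nat.testBit_two_pow, Bool.or_eq_true, decide_eq_true_eq]

theorem slo_sound {n : ℕ} : ∀ (R p c acc : ℕ) (k : ℕ → ℕ → ℕ → Bool), slo n R p c acc k = true →
    ∃ c' acc', k (dr n R) c' acc' = true ∧
      (∀ i, acc'.testBit i = true ↔ acc.testBit i = true ∨ ∃ e ∈ es n R, e.2 = i) ∧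
      (∀ v, c'.testBit v = true ↔ c.testBit v = true ∨ ∃ e ∈ es n R, e.1 = v) ∧
      (∀ e ∈ es n R, p ≤ e.2 ∧ c.testBit e.1 = false) ∧
      ((es n R).map Prod.snd).Nodup ∧ ((es n R).map Prod.fst).Nodup := by
  induction n with
  | zero =>
    intro R p c acc k h
    exact ⟨c, acc, h, by simp [es], by simp [es], by simp [es], by simp [es], by simp [es]⟩
  | succ n ih =>
    intro R p c acc k h
    obtain ⟨v, hv⟩ : ∃ v, v = R % 512 := ⟨_, rfl⟩
    obtain ⟨q, hq⟩ : ∃ q, q = R / 512 % 65536 := ⟨_, rfl⟩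
    have h : bif' (Nat.blt p (Nat.succ (R / 512 % 65536))) (bif' (Nat.beq (Nat.land c (Nat.pow 2 (R % 512))) 0)
      (slo n (R / 33554432) (Nat.succ (R / 512 % 65536)) (Nat.lor c (Nat.pow 2 (R % 512)))
        (Nat.lor acc (Nat.pow 2 (R / 512 % 65536))) k) false) false = true := h
    have he : es (n + 1) R = (v, q) :: es n (R / 33554432) := by rw [hv, hq]; rfl
    rw [← hv, ← hq, bif'_eq_true, bif'_eq_true, Nat.blt_eq] at h
    obtain ⟨h1, h2, h3⟩ := h
    obtain ⟨c', acc', h4, h5, h6, h7, h8, h9⟩ := ih _ _ _ _ _ h3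
    have hcv := land_pow0 h2
    refine ⟨c', acc', h4, ?_, ?_, ?_, ?_, ?_⟩
    · intro i
      rw [h5, lor_pow, he]
      simp only [List.mem_cons, exists_eq_or_imp]
      tauto
    · intro i
      rw [h6, lor_pow, he]
      simp only [List.mem_cons, exists_eq_or_imp]
      tauto
    · rw [he]
      intro e he'
      rcases List.mem_cons.1 he' with rfl | he'
      · exact ⟨Nat.lt_succ_iff.1 h1, hcv⟩
      · obtain ⟨h10, h11⟩ := h7 e he'
        refine ⟨by have := Nat.lt_succ_iff.1 h1; exact this.trans (Nat.le_of_succ_le h10), ?_⟩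
        cases h12 : c.testBit e.1 with
        | false => rfl
        | true =>
          have := (lor_pow c v e.1).2 (Or.inl h12)
          rw [h11] at this
          exact absurd this (by simp)
    · rw [he, List.map_cons, List.nodup_cons]
      refine ⟨fun h10 => ?_, h8⟩
      obtain ⟨e, h11, h12⟩ := List.mem_map.1 h10
      have h13 := (h7 e h11).1
      have h14 : e.2 = q := h12
      rw [h14] at h13
      exact absurd h13 (by omega)
    · rw [he, List.map_cons, List.nodup_cons]
      refine ⟨fun h10 => ?_, h9⟩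
      obtain ⟨e, h11, h12⟩ := List.mem_map.1 h10
      have h13 := (h7 e h11).2
      have h14 : e.1 = v := h12
      rw [h14] at h13
      have := (lor_pow c v v).2 (Or.inr rfl)
      rw [h13] at this
      exact absurd this (by simp)

theorem gA_sound {D n : ℕ} : ∀ (t : Tr) (R acc : ℕ) (k : ℕ → Tr → ℕ → Bool), gA D n t R acc k = true → t.full 9 →
    ((es n R).map Prod.fst).Nodup → ∃ acc' t', k acc' t' (dr n R) = true ∧ t'.full 9 ∧
      (∀ i, acc'.testBit i = true ↔ acc.testBit i = true ∧ ∀ e ∈ es n R, (t.get e.1).testBit i = true) ∧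
      (∀ e ∈ es n R, t'.get e.1 = t.get e.1 ^^^ (D ^^^ 2 ^ e.2)) ∧
      (∀ v < 512, (∀ e ∈ es n R, e.1 ≠ v) → t'.get v = t.get v) := by
  induction n with
  | zero =>
    intro t R acc k h hf _
    exact ⟨acc, t, h, hf, by simp [es], by simp [es], fun _ _ _ => rfl⟩
  | succ n ih =>
    intro t R acc k h hf hnd
    obtain ⟨v, hv⟩ : ∃ v, v = R % 512 := ⟨_, rfl⟩
    obtain ⟨q, hq⟩ : ∃ q, q = R / 512 % 65536 := ⟨_, rfl⟩
    have h : Tr.up t (R % 512) (D ^^^ 2 ^ (R / 512 % 65536))
      (fun m t' => gA D n t' (R / 33554432) (Nat.land acc m) k) = true := h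
    have he : es (n + 1) R = (v, q) :: es n (R / 33554432) := by rw [hv, hq]; rfl
    have hv5 : v < 512 := by rw [hv]; exact Nat.mod_lt _ (by norm_num)
    rw [up_eq, ← hv, ← hq] at h
    rw [he, List.map_cons, List.nodup_cons] at hnd
    obtain ⟨acc', t', h1, h2, h3, h4, h5⟩ := ih _ _ _ _ h (full_set hf _ _) hnd.2
    have hne : ∀ e ∈ es n (R / 33554432), e.1 ≠ v := fun e he h6 => hnd.1 (List.mem_map.2 ⟨e, he, h6⟩)
    have hg : ∀ e ∈ es n (R / 33554432), (t.set v (D ^^^ 2 ^ q)).get e.1 = t.get e.1 := by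
      intro e he
      rw [get_set9 hf (es_lt e he) hv5, if_neg (hne e he)]
    refine ⟨acc', t', h1, h2, ?_, ?_, ?_⟩
    · intro i
      rw [h3, he]
      show (acc &&& t.get v).testBit i = true ∧ _ ↔ _
      rw [Nat.testBit_land, Bool.and_eq_true, and_assoc]
      simp only [List.forall_mem_cons]
      refine and_congr_right fun _ => and_congr_right fun _ => ?_
      exact forall₂_congr fun e he => by rw [hg e he]
    · rw [he]
      intro e he'
      rcases List.mem_cons.1 he' with rfl | he'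
      · show t'.get v = _
        rw [h5 v hv5 hne, get_set9 hf hv5 hv5, if_pos rfl]
      · rw [h4 e he', hg e he']
    · intro u hu h6
      rw [he] at h6
      rw [h5 u hu fun e he' => h6 e (List.mem_cons_of_mem _ he'), get_set9 hf hu hv5,
        if_neg fun h7 => h6 _ List.mem_cons_self h7.symm]

theorem gB_sound {D S n : ℕ} : ∀ (t : Tr) (R acc : ℕ) (k : ℕ → Tr → Bool), gB D S n t R acc k = true → t.full 9 →
    ((es n R).map Prod.fst).Nodup → ∃ acc' t', k acc' t' = true ∧ t'.full 9 ∧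
      (∀ i, acc'.testBit i = true ↔ acc.testBit i = true ∧ ∀ e ∈ es n R, (t.get e.1).testBit i = true) ∧
      (∀ e ∈ es n R, t'.get e.1 = t.get e.1 ^^^ (D ^^^ 2 ^ e.2)) ∧
      (∀ v < 512, (∀ e ∈ es n R, e.1 ≠ v) → t'.get v = t.get v) ∧
      (∀ e ∈ es n R, ∀ i, S.testBit i = true → ((t.get e.1).testBit i = true ↔ i ≠ e.2)) := by
  induction n with
  | zero =>
    intro t R acc k h hf _
    exact ⟨acc, t, h, hf, by simp [es], by simp [es], fun _ _ _ => rfl, by simp [es]⟩
  | succ n ih =>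
    intro t R acc k h hf hnd
    obtain ⟨v, hv⟩ : ∃ v, v = R % 512 := ⟨_, rfl⟩
    obtain ⟨q, hq⟩ : ∃ q, q = R / 512 % 65536 := ⟨_, rfl⟩
    have h : Tr.up t (R % 512) (D ^^^ 2 ^ (R / 512 % 65536))
      (fun m t' => bif' (Nat.beq (m &&& S) (S ^^^ 2 ^ (R / 512 % 65536)))
        (gB D S n t' (R / 33554432) (Nat.land acc m) k) false) = true := h
    have he : es (n + 1) R = (v, q) :: es n (R / 33554432) := by rw [hv, hq]; rfl
    have hv5 : v < 512 := by rw [hv]; exact Nat.mod_lt _ (by norm_num)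
    rw [up_eq, ← hv, ← hq] at h
    rw [bif'_eq_true, Nat.beq_eq] at h
    obtain ⟨h0, h⟩ := h
    rw [he, List.map_cons, List.nodup_cons] at hnd
    obtain ⟨acc', t', h1, h2, h3, h4, h5, h55⟩ := ih _ _ _ _ h (full_set hf _ _) hnd.2
    have hne : ∀ e ∈ es n (R / 33554432), e.1 ≠ v := fun e he h6 => hnd.1 (List.mem_map.2 ⟨e, he, h6⟩)
    have hg : ∀ e ∈ es n (R / 33554432), (t.set v (D ^^^ 2 ^ q)).get e.1 = t.get e.1 := by
      intro e he
      rw [get_set9 hf (es_lt e he) hv5, if_neg (hne e he)]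
    refine ⟨acc', t', h1, h2, ?_, ?_, ?_, ?_⟩
    · intro i
      rw [h3, he]
      show (acc &&& t.get v).testBit i = true ∧ _ ↔ _
      rw [Nat.testBit_land, Bool.and_eq_true, and_assoc]
      simp only [List.forall_mem_cons]
      refine and_congr_right fun _ => and_congr_right fun _ => ?_
      exact forall₂_congr fun e he => by rw [hg e he]
    · rw [he]
      intro e he'
      rcases List.mem_cons.1 he' with rfl | he'
      · show t'.get v = _
        rw [h5 v hv5 hne, get_set9 hf hv5 hv5, if_pos rfl]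
      · rw [h4 e he', hg e he']
    · intro u hu h6
      rw [he] at h6
      rw [h5 u hu fun e he' => h6 e (List.mem_cons_of_mem _ he'), get_set9 hf hu hv5,
        if_neg fun h7 => h6 _ List.mem_cons_self h7.symm]
    · rw [he]
      intro e he' i hi
      rcases List.mem_cons.1 he' with rfl | he'
      · show (t.get v).testBit i = true ↔ i ≠ q
        have h6 := congrArg (fun m => Nat.testBit m i) h0
        simp only [Nat.testBit_land, Nat.testBit_xor, Nat.testBit_two_pow, hi, Bool.and_true] at h6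
        rw [h6]
        simp only [Bool.true_bne, Bool.not_eq_true', decide_eq_false_iff_not]
        exact ⟨fun h h' => h h'.symm, fun h h' => h h'.symm⟩
      · rw [← hg e he']
        exact h55 e he' i hi

/-- the invariant of the state -/
def InvT (U : ℕ) (t : Tr) : Prop := t.full 9 ∧ Inv 7 U t.get

theorem st1_sound {a R U : ℕ} {t : Tr} {k : ℕ → Tr → Bool} (hi : InvT U t) (ha : a < 8)
    (h : st1 a R U t k = true) : ∃ U' t', InvT U' t' ∧ k U' t' = true := by
  obtain ⟨hf, hi⟩ := hi
  have h : bif' (Nat.beq a 0) false (slo a R 0 0 0 (fun R' c Sn => slo (8 - a) R' 0 c 0 (fun _ _ So =>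
    bif' (Nat.beq ((U ^^^ So) &&& Sn) 0)
      (gA (So ^^^ Sn) a t R U (fun x t' R'' => bif' (Nat.beq x So)
        (gB (So ^^^ Sn) So (8 - a) t' R'' U (fun y t'' => bif' (Nat.beq y 0)
          (k ((U ^^^ So) ||| Sn) t'') false)) false)) false))) = true := h
  cases ha0 : Nat.beq a 0 with
  | true => rw [ha0, bif'_true] at h; exact absurd h (by simp)
  | false =>
  rw [ha0, bif'_false] at h
  have ha0 : a ≠ 0 := fun h0 => by rw [h0] at ha0; simp at ha0
  obtain ⟨c, Sn, h, h1, h2, -, h4, h5⟩ := slo_sound _ _ _ _ _ h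
  obtain ⟨-, So, h, g1, -, g3, g4, g5⟩ := slo_sound _ _ _ _ _ h
  rw [bif'_eq_true, Nat.beq_eq] at h
  obtain ⟨h6, h⟩ := h
  obtain ⟨x, t', h, h7, h8, h9, h10⟩ := gA_sound _ _ _ _ h hf h5
  rw [bif'_eq_true, Nat.beq_eq] at h
  obtain ⟨h11, h⟩ := h
  subst h11
  obtain ⟨y, t'', h, k1, k2, k3, k4, k5⟩ := gB_sound _ _ _ _ h h7 g5
  rw [bif'_eq_true, Nat.beq_eq] at h
  obtain ⟨k6, h⟩ := h
  subst k6
  -- the labels of `A` and of `B` are different
  have hdis : ∀ e ∈ es a R, ∀ e' ∈ es (8 - a) (dr a R), e.1 ≠ e'.1 := by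
    intro e he e' he' h12
    have h13 := (g3 e' he').2
    rw [← h12, ((h2 e.1).2 (Or.inr ⟨e, he, rfl⟩))] at h13
    exact absurd h13 (by simp)
  have hSo : ∀ i, x.testBit i = true ↔ ∃ e ∈ es (8 - a) (dr a R), e.2 = i := fun i => by
    rw [g1 i]; simp
  have hSn : ∀ i, Sn.testBit i = true ↔ ∃ e ∈ es a R, e.2 = i := fun i => by
    rw [h1 i]; simp
  have hgB : ∀ e ∈ es (8 - a) (dr a R), t'.get e.1 = t.get e.1 := fun e he =>
    h10 _ (es_lt e he) fun e' he' => hdis e' he' e he
  refine ⟨_, t'', ⟨k1, ?_⟩, h⟩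
  refine step_abs hi (So := x) (Sn := Sn) (LA := es a R) (LB := es (8 - a) (dr a R)) ?_ ?_ ?_ ?_ ?_ h4 g4 hSn hSo h8
    ?_ ?_ ?_ ?_ ?_ rfl
  · rw [es_length, es_length]; omega
  · intro h12
    have := es_length a R
    rw [h12] at this
    exact ha0 this.symm
  · intro h12
    have := es_length (8 - a) (dr a R)
    rw [h12, List.length_nil] at this
    omega
  · intro e he
    rcases List.mem_append.1 he with he | he
    · exact es_lt e he
    · exact es_lt e he
  · rw [List.map_append, List.nodup_append]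
    refine ⟨h5, g5, ?_⟩
    intro u hu v hv
    obtain ⟨e, he, rfl⟩ := List.mem_map.1 hu
    obtain ⟨e', he', rfl⟩ := List.mem_map.1 hv
    exact hdis e he e' he'
  · intro e he i hi
    rw [← hgB e he]
    exact k5 e he i hi
  · rintro i ⟨h12, h13⟩
    have h14 := (k2 i).2 ⟨h12, fun e he => by rw [hgB e he]; exact h13 e he⟩
    rw [Nat.zero_testBit] at h14
    exact absurd h14 (by simp)
  · intro i h12 h13
    have h14 := congrArg (fun m => Nat.testBit m i) h6
    simp only [Nat.testBit_land, Nat.testBit_xor, h12, h13, Nat.zero_testBit, Bool.and_true] at h14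
    cases h15 : x.testBit i with
    | true => rfl
    | false => rw [h15] at h14; simp at h14
  · intro e he
    rcases List.mem_append.1 he with he | he
    · rw [k4 e.1 (es_lt e he) fun e' he' => fun h12 => hdis e he e' he' h12.symm, h9 e he]
    · rw [k3 e he, hgB e he]
  · intro v hv h12
    rw [k4 v hv fun e he => h12 e (List.mem_append_right _ he), h10 v hv fun e he => h12 e (List.mem_append_left _ he)]

theorem rn_sound {tgt : ℕ → Tr → Bool} {rs : List ℕ} : ∀ {U : ℕ} {t : Tr}, InvT U t → rn tgt rs U t = true →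
    ∃ U' t', InvT U' t' ∧ tgt U' t' = true := by
  induction rs with
  | nil => intro U t hi h; exact ⟨U, t, hi, h⟩
  | cons r rs ih =>
    intro U t hi h
    have h : st1 (r % 8) (r / 8) U t (rn tgt rs) = true := h
    obtain ⟨U', t', h1, h2⟩ := st1_sound hi (Nat.mod_lt _ (by norm_num)) h
    exact ih h1 h2

theorem Tr.eq_sound : ∀ {t t' : Tr}, Tr.eq t t' = true → t = t' := by
  intro t
  induction t with
  | lf m =>
    intro t' h
    cases t' with
    | lf m' =>
      have h : Nat.beq m m' = true := h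
      rw [Nat.beq_eq] at h
      rw [h]
    | nd l r =>
      have h : false = true := h
      exact absurd h (by simp)
  | nd l r ihl ihr =>
    intro t' h
    cases t' with
    | lf m' =>
      have h : false = true := h
      exact absurd h (by simp)
    | nd l' r' =>
      have h : bif' (Tr.eq l l') (Tr.eq r r') false = true := h
      rw [bif'_eq_true] at h
      rw [ihl h.1, ihr h.2]

theorem InvT.seg {rs : List ℕ} {U U' : ℕ} {t t' : Tr} (hi : InvT U t) (h : seg rs U t U' t' = true) :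
    InvT U' t' := by
  obtain ⟨U₁, t₁, h1, h2⟩ := rn_sound hi h
  rw [bif'_eq_true, Nat.beq_eq] at h2
  rw [← h2.1, ← Tr.eq_sound h2.2]
  exact h1

end Pool.Agent.U820.LT
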